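import Mathlib

/-!
# Eigenfunctions on compact spaces with an action of a procyclic group

Let `k` be a dense element, with `k ^ (p ^ j) → 1`, of a compact group which acts on a compact metric
space `Y`. Suppose that there are finitely many functions which distinguish `y` and `k • y`, such that
the level sets for a dense set of levels have totally disconnected images under the functions which
are invariant under `k ^ p`. Then there is a function `Ψ` without zeros with `Ψ (k • y) = ζ Ψ y`.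
-/

set_option autoImplicit false

open MeasureTheory Set Metric Filter Topology TopologicalSpace

namespace Pool.Agent.L0h31.HS

/-- cyclic labels for a permutation -/
theorem exists_label {Ω : Type} (s : Equiv.Perm Ω) (p : ℕ) :
    ∃ κ : Ω → ZMod p, ∀ f, (∀ m : ℤ, (s ^ m) f = f → (p : ℤ) ∣ m) → κ (s f) = κ f + 1 := by
  classical
  let S : Setoid Ω := Equiv.Perm.SameCycle.setoid s
  let rep : Ω → Ω := fun ω => (Quotient.mk S ω).out
  have hrep : ∀ ω, ∃ k : ℤ, (s ^ k) (rep ω) = ω := by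
    intro ω
    have h : S.r (rep ω) ω := Quotient.mk_out (s := S) ω
    exact h
  choose k hk using hrep
  refine ⟨fun ω => ((k ω : ℤ) : ZMod p), fun ω hω => ?_⟩
  have h1 : rep (s ω) = rep ω := by
    show (Quotient.mk S (s ω)).out = (Quotient.mk S ω).out
    congr 1
    apply Quotient.sound
    show Equiv.Perm.SameCycle s (s ω) ω
    exact ⟨-1, by simp⟩
  have h2 : (s ^ (-(k ω + 1) + k (s ω))) (rep ω) = rep ω := by
    have e1 : (s ^ (k (s ω))) (rep ω) = s ω := by
      have := hk (s ω)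
      rwa [h1] at this
    have e2 : (s ^ (k ω + 1)) (rep ω) = s ω := by
      rw [add_comm, zpow_add, Equiv.Perm.mul_apply, hk ω]
      simp
    rw [zpow_add, Equiv.Perm.mul_apply, e1, ← e2, ← Equiv.Perm.mul_apply, ← zpow_add]
    simp
  have h2' : (s ^ (-(k ω + 1) + k (s ω))) ω = ω := by
    have e1 : (s ^ (-(k ω + 1) + k (s ω))) ((s ^ k ω) (rep ω)) =
        (s ^ k ω) ((s ^ (-(k ω + 1) + k (s ω))) (rep ω)) := by
      rw [← Equiv.Perm.mul_apply, ← zpow_add, add_comm, zpow_add, Equiv.Perm.mul_apply]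
    rw [h2, hk ω] at e1
    exact e1
  have h3 := hω _ h2'
  show ((k (s ω) : ℤ) : ZMod p) = ((k ω : ℤ) : ZMod p) + 1
  have h4 : ((-(k ω + 1) + k (s ω) : ℤ) : ZMod p) = 0 :=
    (ZMod.intCast_zmod_eq_zero_iff_dvd _ p).2 h3
  push_cast at h4
  linear_combination h4

/-- the shift of the sequences indexed by the integers -/
def shift (P : Type) : Equiv.Perm (ℤ → P) where
  toFun f m := f (m + 1)
  invFun f m := f (m - 1)
  left_inv f := by funext m; simp
  right_inv f := by funext m; simp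

theorem shift_apply {P : Type} (f : ℤ → P) (m : ℤ) : (shift P) f m = f (m + 1) := rfl

theorem shift_zpow {P : Type} (l : ℤ) : ∀ (f : ℤ → P) (m : ℤ),
    ((shift P) ^ l) f m = f (m + l) := by
  induction l using Int.induction_on with
  | zero => intro f m; simp
  | succ l ih =>
    intro f m
    rw [zpow_add_one, Equiv.Perm.mul_apply, ih, shift_apply, add_assoc]
  | pred l ih =>
    intro f m
    rw [zpow_sub_one, Equiv.Perm.mul_apply, ih]
    show f (m + -(l : ℤ) - 1) = f (m + (-(l : ℤ) - 1))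
    congr 1
    ring

theorem good_code {P : Type} {p : ℕ} (hp : p.Prime) {f : ℤ → P} {J : ℕ}
    (hJ : ∀ m : ℤ, f (m + (p ^ J : ℕ)) = f m) (h1 : f 1 ≠ f 0) :
    ∀ m : ℤ, ((shift P) ^ m) f = f → (p : ℤ) ∣ m := by
  intro m hm
  by_contra hnd
  have hm' : Function.Periodic f m := fun x => by
    have := congrFun hm x
    rwa [shift_zpow] at this
  have hJ' : Function.Periodic f ((p ^ J : ℕ) : ℤ) := hJ
  have hcop : IsCoprime m ((p ^ J : ℕ) : ℤ) := by
    push_cast
    refine IsCoprime.pow_right ?_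
    rw [isCoprime_comm]
    exact (Nat.prime_iff_prime_int.1 hp).coprime_iff_not_dvd.2 hnd
  obtain ⟨a, b, hab⟩ := hcop
  have h2 : Function.Periodic f 1 := by
    rw [← hab]
    exact (hm'.int_mul a).add_period (hJ'.int_mul b)
  exact h1 (by simpa using h2 0)

section
variable {Y D : Type} [MetricSpace Y] [CompactSpace Y] [Group D] [TopologicalSpace D]
  [IsTopologicalGroup D] [CompactSpace D] [MulAction D Y] [ContinuousSMul D Y]

/-- invariant extensions -/
theorem exists_inv_ext {T : Set Y} (hTc : IsClosed T)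
    {K' : Subgroup D} (hK' : IsClosed (K' : Set D)) {θ : Y → ℝ} (hθ : ContinuousOn θ T)
    (hθi : ∀ y ∈ T, ∀ q ∈ K', q • y ∈ T ∧ θ (q • y) = θ y) :
    ∃ θ' : Y → ℝ, Continuous θ' ∧ (∀ y, ∀ q ∈ K', θ' (q • y) = θ' y) ∧ ∀ y ∈ T, θ' y = θ y := by
  obtain ⟨θ1, hθ1⟩ := ContinuousMap.exists_restrict_eq (Y := ℝ) hTc
    ⟨T.domRestrict θ, continuousOn_iff_continuous_domRestrict.1 hθ⟩
  have hθ1' : ∀ y ∈ T, θ1 y = θ y := fun y hy => DFunLike.congr_fun hθ1 ⟨y, hy⟩
  have : CompactSpace K' := isCompact_iff_compactSpace.1 hK'.isCompact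
  let _ : MeasurableSpace K' := borel K'
  have _ : BorelSpace K' := ⟨rfl⟩
  let μ : Measure K' := Measure.haarMeasure ⊤
  have hμ1 : IsProbabilityMeasure μ := ⟨by
    have := Measure.haarMeasure_self (K₀ := (⊤ : TopologicalSpace.PositiveCompacts K'))
    simpa using this⟩
  refine ⟨fun y => ∫ q : K', θ1 (((q⁻¹ : K') : D) • y) ∂μ, ?_, ?_, ?_⟩
  · have h1 : Continuous (Function.uncurry fun (y : Y) (q : K') =>
        θ1 (((q⁻¹ : K') : D) • y)) := by
      have h2 : Continuous (fun z : Y × K' => ((z.2⁻¹ : K') : D) • z.1) := by fun_prop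
      exact θ1.continuous.comp h2
    have h2 := continuous_parametric_integral_of_continuous (μ := μ) h1 isCompact_univ
    simp only [Measure.restrict_univ] at h2
    exact h2
  · intro y q hq
    have h1 : ∀ k' : K', θ1 (((k'⁻¹ : K') : D) • q • y) =
        θ1 (((((⟨q, hq⟩ : K')⁻¹ * k')⁻¹ : K') : D) • y) := by
      intro k'
      rw [smul_smul]
      congr 2
      rw [mul_inv_rev, inv_inv, Subgroup.coe_mul]
    show ∫ k', θ1 (((k'⁻¹ : K') : D) • q • y) ∂μ = ∫ k', θ1 (((k'⁻¹ : K') : D) • y) ∂μ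
    simp_rw [h1]
    exact integral_mul_left_eq_self (fun k' => θ1 (((k'⁻¹ : K') : D) • y)) ((⟨q, hq⟩ : K')⁻¹)
  · intro y hy
    have h1 : ∀ k' : K', θ1 (((k'⁻¹ : K') : D) • y) = θ y := by
      intro k'
      obtain ⟨h2, h3⟩ := hθi y hy _ (k'⁻¹).2
      rw [hθ1' _ h2, h3]
    show ∫ k', θ1 (((k'⁻¹ : K') : D) • y) ∂μ = θ y
    simp_rw [h1]
    simp

end

end Pool.Agent.L0h31.HS
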