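import Pool.Agent.L0h31.HS.B1

/-!
# Eigenfunctions on compact spaces with an action of a procyclic group: the main lemma
-/

set_option autoImplicit false
set_option linter.unusedSectionVars false

open MeasureTheory Set Metric Filter Topology TopologicalSpace

namespace Pool.Agent.L0h31.HS

/-- the codes of the points, for a family of functions and levels -/
def Code {Y D α : Type} [Group D] [MulAction D Y] (k : D) (u : α → Y → ℝ) (t : α → ℝ) (y : Y) :
    ℤ → (α → Prop) := fun m a => u a (k ^ m • y) < t a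

section
variable {Y D : Type} [MetricSpace Y] [CompactSpace Y] [Group D] [TopologicalSpace D]
  [IsTopologicalGroup D] [CompactSpace D] [MulAction D Y] [ContinuousSMul D Y]

theorem code_smul {α : Type} (k : D) (u : α → Y → ℝ) (t : α → ℝ) (y : Y) :
    Code k u t (k • y) = shift (α → Prop) (Code k u t y) := by
  funext m a
  show (u a (k ^ m • k • y) < t a) = (u a (k ^ (m + 1) • y) < t a)
  rw [smul_smul, zpow_add_one]

theorem code_zpow {α : Type} (k : D) (u : α → Y → ℝ) (t : α → ℝ) (y : Y) (l m : ℤ) :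
    Code k u t (k ^ l • y) m = Code k u t y (m + l) := by
  funext a
  show (u a (k ^ m • k ^ l • y) < t a) = (u a (k ^ (m + l) • y) < t a)
  rw [smul_smul, zpow_add]

theorem code_ne {α : Type} {k : D} {u : α → Y → ℝ} {t : α → ℝ} {y : Y}
    (h : ∃ a, (u a y < t a ∧ t a < u a (k • y)) ∨ (u a (k • y) < t a ∧ t a < u a y)) :
    Code k u t y 1 ≠ Code k u t y 0 := by
  intro he
  obtain ⟨a, ha⟩ := h
  have h1 : (u a (k ^ (1 : ℤ) • y) < t a) = (u a (k ^ (0 : ℤ) • y) < t a) := congrFun he a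
  rw [zpow_one, zpow_zero, one_smul] at h1
  rcases ha with ⟨h2, h3⟩ | ⟨h2, h3⟩
  · have h4 : u a (k • y) < t a := h1 ▸ h2
    exact lt_asymm h3 h4
  · have h4 : u a y < t a := h1 ▸ h2
    exact lt_asymm h3 h4

/-- finitely many levels which separate all points from their translates -/
theorem exists_levels {β : Type} {k : D} {u : β → Y → ℝ} (hu : ∀ b, Continuous (u b))
    (huk : ∀ y, ∃ b, u b (k • y) ≠ u b y) {T : β → Set ℝ} (hT : ∀ b, Dense (T b)) :
    ∃ G : Finset {q : β × ℝ // q.2 ∈ T q.1}, ∀ y, ∃ g ∈ G,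
      (u g.1.1 y < g.1.2 ∧ g.1.2 < u g.1.1 (k • y)) ∨
        (u g.1.1 (k • y) < g.1.2 ∧ g.1.2 < u g.1.1 y) := by
  have huk' : ∀ b, Continuous (fun y => u b (k • y)) := fun b =>
    (hu b).comp (continuous_const_smul k)
  obtain ⟨G, hG⟩ := isCompact_univ.elim_finite_subcover
    (fun g : {q : β × ℝ // q.2 ∈ T q.1} => {y | (u g.1.1 y < g.1.2 ∧ g.1.2 < u g.1.1 (k • y)) ∨
        (u g.1.1 (k • y) < g.1.2 ∧ g.1.2 < u g.1.1 y)})
    (fun g => by
      refine IsOpen.union ?_ ?_
      · exact (isOpen_lt (hu _) continuous_const).inter (isOpen_lt continuous_const (huk' _))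
      · exact (isOpen_lt (huk' _) continuous_const).inter (isOpen_lt continuous_const (hu _)))
    (fun y _ => by
      obtain ⟨b, hb⟩ := huk y
      rcases lt_or_gt_of_ne hb with h1 | h1
      · obtain ⟨t, ht, h2, h3⟩ := (hT b).exists_between h1
        exact mem_iUnion.2 ⟨⟨(b, t), ht⟩, Or.inr ⟨h2, h3⟩⟩
      · obtain ⟨t, ht, h2, h3⟩ := (hT b).exists_between h1
        exact mem_iUnion.2 ⟨⟨(b, t), ht⟩, Or.inl ⟨h2, h3⟩⟩)
  refine ⟨G, fun y => ?_⟩
  obtain ⟨g, hg, h⟩ := mem_iUnion₂.1 (hG (mem_univ y))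
  exact ⟨g, hg, h⟩

theorem exists_eig {p : ℕ} (hp : p.Prime) {k : D} (hk : Tendsto (fun j : ℕ => k ^ p ^ j) atTop (𝓝 1))
    (hd : ∀ d : D, d ∈ closure (Subgroup.zpowers k : Set D)) {β : Type} {χ : β → Y → ℝ}
    (hχ : ∀ i, Continuous (χ i)) (hχk : ∀ y, ∃ i, χ i (k • y) ≠ χ i y) {T : β → Set ℝ}
    (hT : ∀ i, Dense (T i)) {ι : Type} {h : ι → Y → ℝ} (hh : ∀ c, Continuous (h c))
    (hhp : ∀ c y, h c (k ^ p • y) = h c y) (hhk : ∀ y, ∃ c, h c (k • y) ≠ h c y)
    (hnull : ∀ c i, ∀ t ∈ T i, ∀ j : ℕ, Dense {s : ℝ | ∀ y, χ i y = t → h c (k ^ j • y) ≠ s}) :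
    ∃ Ψ : Y → ℂ, Continuous Ψ ∧ (∀ y, Ψ y ≠ 0) ∧
      ∀ y, Ψ (k • y) = Complex.exp (2 * Real.pi * Complex.I / p) * Ψ y := by
  classical
  have hppos := hp.pos
  have : NeZero p := ⟨hppos.ne'⟩
  -- the grid
  obtain ⟨G, hG⟩ := exists_levels hχ hχk hT
  let W : Set Y := {y | ∃ d : D, ∃ g ∈ G, χ g.1.1 (d • y) = g.1.2}
  have hWD : ∀ y ∈ W, ∀ d : D, d • y ∈ W := by
    rintro y ⟨d', g, hg, h1⟩ d
    refine ⟨d' * d⁻¹, g, hg, ?_⟩
    rw [smul_smul, inv_mul_cancel_right]
    exact h1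
  have hWD' : ∀ y, y ∉ W → ∀ d : D, d • y ∉ W := by
    intro y hy d hdy
    apply hy
    have := hWD _ hdy d⁻¹
    rwa [inv_smul_smul] at this
  have hlocU : ∀ y, y ∉ W → ∀ᶠ y' in 𝓝 y, ∀ d : D, ∀ g ∈ G, χ g.1.1 (d • y') ≠ g.1.2 ∧
      (χ g.1.1 (d • y') < g.1.2 ↔ χ g.1.1 (d • y) < g.1.2) := by
    intro y hy
    have h1 : ∀ d0 ∈ (univ : Set D), ∀ᶠ q : Y × D in 𝓝 (y, d0), ∀ g ∈ G,
        χ g.1.1 (q.2 • q.1) ≠ g.1.2 ∧
          (χ g.1.1 (q.2 • q.1) < g.1.2 ↔ χ g.1.1 (q.2 • y) < g.1.2) := by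
      intro d0 _
      rw [Filter.eventually_all_finset]
      intro g hg
      have hne : χ g.1.1 (d0 • y) ≠ g.1.2 := fun h => hy ⟨d0, g, hg, h⟩
      have hc1 : Continuous (fun q : Y × D => χ g.1.1 (q.2 • q.1)) :=
        (hχ _).comp (by fun_prop)
      have hc2 : Continuous (fun q : Y × D => χ g.1.1 (q.2 • y)) :=
        (hχ _).comp (by fun_prop)
      rcases lt_or_gt_of_ne hne with h2 | h2
      · have e1 : ∀ᶠ q : Y × D in 𝓝 (y, d0), χ g.1.1 (q.2 • q.1) < g.1.2 :=
          (hc1.tendsto (y, d0)).eventually (gt_mem_nhds h2)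
        have e2 : ∀ᶠ q : Y × D in 𝓝 (y, d0), χ g.1.1 (q.2 • y) < g.1.2 :=
          (hc2.tendsto (y, d0)).eventually (gt_mem_nhds h2)
        filter_upwards [e1, e2] with q h3 h4
        exact ⟨h3.ne, by simp [h3, h4]⟩
      · have e1 : ∀ᶠ q : Y × D in 𝓝 (y, d0), g.1.2 < χ g.1.1 (q.2 • q.1) :=
          (hc1.tendsto (y, d0)).eventually (lt_mem_nhds h2)
        have e2 : ∀ᶠ q : Y × D in 𝓝 (y, d0), g.1.2 < χ g.1.1 (q.2 • y) :=
          (hc2.tendsto (y, d0)).eventually (lt_mem_nhds h2)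
        filter_upwards [e1, e2] with q h3 h4
        exact ⟨h3.ne', by simp [not_lt.2 h3.le, not_lt.2 h4.le]⟩
    have h2 := isCompact_univ.eventually_forall_of_forall_eventually
      (P := fun (y' : Y) (d : D) => ∀ g ∈ G, χ g.1.1 (d • y') ≠ g.1.2 ∧
          (χ g.1.1 (d • y') < g.1.2 ↔ χ g.1.1 (d • y) < g.1.2)) h1
    filter_upwards [h2] with y' hy' d using hy' d (mem_univ d)
  have hWc : IsClosed W := by
    rw [← isOpen_compl_iff, isOpen_iff_mem_nhds]
    intro y hy
    filter_upwards [hlocU y hy] with y' hy'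
    rintro ⟨d, g, hg, h1⟩
    exact (hy' d g hg).1 h1
  -- the labels off `W`
  let uU : {g // g ∈ G} → Y → ℝ := fun g => χ g.1.1.1
  let tU : {g // g ∈ G} → ℝ := fun g => g.1.1.2
  obtain ⟨κU, hκU⟩ := exists_label (shift ({g // g ∈ G} → Prop)) p
  have hcU : ∀ y, y ∉ W → ∀ᶠ y' in 𝓝 y, Code k uU tU y' = Code k uU tU y := by
    intro y hy
    filter_upwards [hlocU y hy] with y' hy'
    funext m g
    exact propext (hy' (k ^ m) g.1 g.2).2
  have hcUne : ∀ y, Code k uU tU y 1 ≠ Code k uU tU y 0 := by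
    intro y
    obtain ⟨g, hg, h1⟩ := hG y
    exact code_ne ⟨⟨g, hg⟩, h1⟩
  have hjU : ∀ y, y ∉ W → κU (Code k uU tU (k • y)) = κU (Code k uU tU y) + 1 := by
    intro y hy
    rw [code_smul]
    apply hκU
    have h1 : Tendsto (fun j : ℕ => k ^ p ^ j • y) atTop (𝓝 y) := by
      have h2 := hk.smul_const y
      rwa [one_smul] at h2
    obtain ⟨J, hJ⟩ := (h1.eventually (hcU y hy)).exists
    refine good_code hp (J := J) (fun m => ?_) (hcUne y)
    have h3 := congrFun hJ m
    have h4 := code_zpow k uU tU y ((p ^ J : ℕ) : ℤ) m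
    rw [zpow_natCast] at h4
    rw [← h4]
    exact h3
  -- powers of `k ^ p`
  have hhpz : ∀ c (l : ℤ) y, h c ((k ^ p) ^ l • y) = h c y := by
    intro c l
    induction l using Int.induction_on with
    | zero => intro y; simp
    | succ l ih => intro y; rw [zpow_add_one, mul_smul, ih, hhp]
    | pred l ih =>
      intro y
      have h1 := ih y
      have h2 : (k ^ p) ^ (-(l : ℤ)) • y = (k ^ p) • (k ^ p) ^ (-(l : ℤ) - 1) • y := by
        rw [smul_smul, ← zpow_one_add]
        congr 2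
        ring
      rw [h2, hhp] at h1
      exact h1
  have horb : ∀ c (z : Y) (d : D), ∃ j < p, h c (d • z) = h c (k ^ j • z) := by
    intro c z d
    have hcl : IsClosed (⋃ j ∈ Finset.range p, {d : D | h c (d • z) = h c (k ^ j • z)}) := by
      refine Set.Finite.isClosed_biUnion (Finset.finite_toSet _) fun j _ => ?_
      exact isClosed_eq ((hh c).comp (by fun_prop)) continuous_const
    have hsub : (Subgroup.zpowers k : Set D) ⊆
        ⋃ j ∈ Finset.range p, {d : D | h c (d • z) = h c (k ^ j • z)} := by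
      rintro _ ⟨m, rfl⟩
      have hp0 : (p : ℤ) ≠ 0 := by exact_mod_cast hppos.ne'
      have h1 : 0 ≤ m % p := Int.emod_nonneg _ hp0
      have h2 : m % p < p := Int.emod_lt_of_pos _ (by exact_mod_cast hppos)
      refine mem_biUnion (x := (m % p).toNat) ?_ ?_
      · rw [Finset.mem_coe, Finset.mem_range]
        omega
      · show h c (k ^ m • z) = h c (k ^ (m % p).toNat • z)
        have h3 : k ^ m = (k ^ p) ^ (m / p) * k ^ (m % p).toNat := by
          rw [← zpow_natCast k p, ← zpow_natCast k (m % p).toNat, ← zpow_mul, ← zpow_add,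
            Int.toNat_of_nonneg h1, Int.mul_ediv_add_emod]
        rw [h3, mul_smul, hhpz]
    have h1 := closure_minimal hsub hcl (hd d)
    simp only [mem_iUnion, Finset.mem_range] at h1
    obtain ⟨j, hj, h2⟩ := h1
    exact ⟨j, hj, h2⟩
  -- levels which are missed on `W`
  have hWd : ∀ c, Dense {s : ℝ | ∀ y ∈ W, h c y ≠ s} := by
    intro c
    have h1 : Dense (⋂ q ∈ (G ×ˢ Finset.range p : Finset _),
        {s : ℝ | ∀ y, χ q.1.1.1 y = q.1.1.2 → h c (k ^ q.2 • y) ≠ s}) := by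
      refine dense_biInter_of_isOpen (fun q _ => ?_) (Finset.countable_toSet _) (fun q _ => ?_)
      · have hcc : IsCompact {y | χ q.1.1.1 y = q.1.1.2} :=
          (isClosed_eq (hχ _) continuous_const).isCompact
        have h2 : {s : ℝ | ∀ y, χ q.1.1.1 y = q.1.1.2 → h c (k ^ q.2 • y) ≠ s} =
            ((fun y => h c (k ^ q.2 • y)) '' {y | χ q.1.1.1 y = q.1.1.2})ᶜ := by
          ext s
          simp only [mem_ofPred_eq, mem_compl_iff, mem_image, not_exists, not_and]
        rw [h2]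
        have hc1 : Continuous (fun y => h c (k ^ q.2 • y)) :=
          (hh c).comp (continuous_const_smul _)
        exact (hcc.image hc1).isClosed.isOpen_compl
      · exact hnull c _ _ q.1.2 q.2
    refine h1.mono ?_
    rintro s hs y ⟨d, g, hg, hy⟩ hys
    obtain ⟨j, hj, h2⟩ := horb c (d • y) d⁻¹
    rw [inv_smul_smul] at h2
    have h3 := mem_iInter₂.1 hs (g, j) (Finset.mem_product.2 ⟨hg, Finset.mem_range.2 hj⟩)
    exact h3 (d • y) hy (h2.symm.trans hys)
  obtain ⟨G', hG'⟩ := exists_levels hh hhk hWd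
  let uT : {g // g ∈ G'} → Y → ℝ := fun g => h g.1.1.1
  let tT : {g // g ∈ G'} → ℝ := fun g => g.1.1.2
  obtain ⟨κT, hκT⟩ := exists_label (shift ({g // g ∈ G'} → Prop)) p
  have hperT : ∀ y (m : ℤ), Code k uT tT y (m + p) = Code k uT tT y m := by
    intro y m
    funext g
    show (h g.1.1.1 (k ^ (m + (p : ℤ)) • y) < g.1.1.2) = (h g.1.1.1 (k ^ m • y) < g.1.1.2)
    rw [add_comm, zpow_add, zpow_natCast, mul_smul, hhp]
  have hperT' : ∀ y, Function.Periodic (Code k uT tT y) (p : ℤ) := fun y => hperT y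
  have hcTne : ∀ y, Code k uT tT y 1 ≠ Code k uT tT y 0 := by
    intro y
    obtain ⟨g, hg, h1⟩ := hG' y
    exact code_ne ⟨⟨g, hg⟩, h1⟩
  have hcT : ∀ y ∈ W, ∀ᶠ y' in 𝓝 y, Code k uT tT y' = Code k uT tT y := by
    intro y hy
    have h1 : ∀ᶠ y' in 𝓝 y, ∀ j ∈ Finset.range p, ∀ g ∈ G',
        (h g.1.1 (k ^ j • y') < g.1.2 ↔ h g.1.1 (k ^ j • y) < g.1.2) := by
      rw [Filter.eventually_all_finset]
      intro j _
      rw [Filter.eventually_all_finset]
      intro g hg
      have hne : h g.1.1 (k ^ j • y) ≠ g.1.2 := g.2 _ (hWD y hy _)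
      have hc1 : Continuous (fun y' : Y => h g.1.1 (k ^ j • y')) :=
        (hh _).comp (continuous_const_smul _)
      rcases lt_or_gt_of_ne hne with h2 | h2
      · filter_upwards [(hc1.tendsto y).eventually (gt_mem_nhds h2)] with y' h3
        have h4 : h g.1.1 (k ^ j • y') < g.1.2 := h3
        simp [h4, h2]
      · filter_upwards [(hc1.tendsto y).eventually (lt_mem_nhds h2)] with y' h3
        have h4 : g.1.2 < h g.1.1 (k ^ j • y') := h3
        simp [not_lt.2 h4.le, not_lt.2 (le_of_lt h2)]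
    filter_upwards [h1] with y' hy'
    funext m
    have hp0 : (p : ℤ) ≠ 0 := by exact_mod_cast hppos.ne'
    have h2 : 0 ≤ m % p := Int.emod_nonneg _ hp0
    have h3 : m % p < p := Int.emod_lt_of_pos _ (by exact_mod_cast hppos)
    have key : ∀ z, Code k uT tT z m = Code k uT tT z ((m % p).toNat : ℤ) := by
      intro z
      rw [Int.toNat_of_nonneg h2]
      have h5 := (hperT' z).int_mul (m / p) (m % p)
      rw [Int.cast_id] at h5
      rw [← h5]
      congr 1
      have := Int.emod_add_mul_ediv m p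
      linarith [mul_comm (p : ℤ) (m / p)]
    rw [key y', key y]
    funext g
    have h6 := hy' (m % p).toNat (Finset.mem_range.2 (by omega)) g.1 g.2
    show (h g.1.1.1 (k ^ (((m % p).toNat : ℕ) : ℤ) • y') < g.1.1.2) =
      (h g.1.1.1 (k ^ (((m % p).toNat : ℕ) : ℤ) • y) < g.1.1.2)
    rw [zpow_natCast]
    exact propext h6
  let jT : Y → ZMod p := fun y => κT (Code k uT tT y)
  let jU : Y → ZMod p := fun y => κU (Code k uU tU y)
  have hjT : ∀ y, jT (k • y) = jT y + 1 := by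
    intro y
    show κT (Code k uT tT (k • y)) = κT (Code k uT tT y) + 1
    rw [code_smul]
    apply hκT
    exact good_code hp (J := 1) (fun m => by rw [pow_one]; exact hperT y m) (hcTne y)
  have hjTz : ∀ (l : ℤ) y, jT (k ^ l • y) = jT y + l := by
    intro l
    induction l using Int.induction_on with
    | zero => intro y; simp
    | succ l ih =>
      intro y
      rw [zpow_add_one, mul_smul, ih, hjT]
      push_cast
      ring
    | pred l ih =>
      intro y
      have h1 := ih y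
      have h2 : k ^ (-(l : ℤ)) • y = k • k ^ (-(l : ℤ) - 1) • y := by
        rw [smul_smul, ← zpow_one_add]
        congr 2
        ring
      rw [h2, hjT] at h1
      push_cast at h1 ⊢
      linear_combination h1
  -- the real function
  let θ : Y → ℝ := fun y => 2 * Real.pi / p * ((jT y).val : ℝ)
  have hθc : ContinuousOn θ W := by
    intro y hy
    refine ContinuousAt.continuousWithinAt ?_
    have h1 : θ =ᶠ[𝓝 y] fun _ => θ y := by
      filter_upwards [hcT y hy] with y' hy'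
      show 2 * Real.pi / p * ((κT (Code k uT tT y')).val : ℝ) =
        2 * Real.pi / p * ((κT (Code k uT tT y)).val : ℝ)
      rw [hy']
    exact continuousAt_const.congr h1.symm
  obtain ⟨θ', hθ'c, hθ'i, hθ'W⟩ := exists_inv_ext (D := D) hWc
    (K' := (Subgroup.zpowers (k ^ p)).topologicalClosure)
    (Subgroup.isClosed_topologicalClosure _) hθc (by
      intro y hy q hq
      refine ⟨hWD y hy q, ?_⟩
      have hcl : IsClosed {q : D | θ (q • y) = θ y} := by
        have hc : Continuous (fun q : D => θ (q • y)) :=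
          hθc.comp_continuous (by fun_prop) fun q => hWD y hy q
        exact isClosed_eq hc continuous_const
      rw [← SetLike.mem_coe, Subgroup.topologicalClosure_coe] at hq
      refine closure_minimal ?_ hcl hq
      rintro _ ⟨l, rfl⟩
      show θ ((k ^ p) ^ l • y) = θ y
      have h1 : jT ((k ^ p) ^ l • y) = jT y := by
        rw [← zpow_natCast k p, ← zpow_mul, hjTz]
        simp
      show 2 * Real.pi / p * ((jT ((k ^ p) ^ l • y)).val : ℝ) = 2 * Real.pi / p * ((jT y).val : ℝ)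
      rw [h1])
  have hθ'p : ∀ y, θ' (k ^ p • y) = θ' y := fun y =>
    hθ'i y _ (Subgroup.le_topologicalClosure _ (Subgroup.mem_zpowers _))
  -- the eigenfunction
  set ζ : ℂ := Complex.exp (2 * Real.pi * Complex.I / p) with hζ
  have hp0 : (p : ℂ) ≠ 0 := by exact_mod_cast hppos.ne'
  have hζp : ζ ^ p = 1 := by
    rw [hζ, ← Complex.exp_nat_mul]
    have h1 : (p : ℂ) * (2 * Real.pi * Complex.I / p) = 2 * Real.pi * Complex.I := by
      field_simp
    rw [h1, Complex.exp_two_pi_mul_I]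
  have hζ0 : ζ ≠ 0 := Complex.exp_ne_zero _
  have hζmod : ∀ n : ℕ, ζ ^ (n % p) = ζ ^ n := by
    intro n
    conv_rhs => rw [← Nat.mod_add_div n p, pow_add, pow_mul, hζp, one_pow, mul_one]
  let e : ZMod p → ℂ := fun a => ζ ^ a.val
  have he : ∀ (a : ZMod p) (n : ℕ), e (a + (n : ZMod p)) = ζ ^ n * e a := by
    intro a n
    have h1 : a + (n : ZMod p) = ((a.val + n : ℕ) : ZMod p) := by
      push_cast
      rw [ZMod.natCast_zmod_val]
    show ζ ^ (a + (n : ZMod p)).val = ζ ^ n * ζ ^ a.val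
    rw [h1, ZMod.val_natCast, hζmod, pow_add, mul_comm]
  let Ψj : ℕ → Y → ℂ := fun j y => ζ ^ j * Complex.exp ((θ' ((k ^ j)⁻¹ • y) : ℂ) * Complex.I)
  have hΨjc : ∀ j, Continuous (Ψj j) := by
    intro j
    have h1 : Continuous (fun y => θ' ((k ^ j)⁻¹ • y)) :=
      hθ'c.comp (continuous_const_smul _)
    have h2 : Continuous (fun y => (θ' ((k ^ j)⁻¹ • y) : ℂ)) := Complex.continuous_ofReal.comp h1
    exact continuous_const.mul (Complex.continuous_exp.comp (h2.mul continuous_const))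
  have hΨj0 : ∀ j y, Ψj j y ≠ 0 := fun j y =>
    mul_ne_zero (pow_ne_zero _ hζ0) (Complex.exp_ne_zero _)
  have hΨjk : ∀ j y, Ψj (j + 1) (k • y) = ζ * Ψj j y := by
    intro j y
    show ζ ^ (j + 1) * Complex.exp ((θ' ((k ^ (j + 1))⁻¹ • k • y) : ℂ) * Complex.I) =
      ζ * (ζ ^ j * Complex.exp ((θ' ((k ^ j)⁻¹ • y) : ℂ) * Complex.I))
    have h1 : (k ^ (j + 1))⁻¹ • k • y = (k ^ j)⁻¹ • y := by
      rw [smul_smul, pow_succ', mul_inv_rev, inv_mul_cancel_right]
    rw [h1]
    ring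
  have hΨjp : ∀ j y, Ψj (j + p) y = Ψj j y := by
    intro j y
    show ζ ^ (j + p) * Complex.exp ((θ' ((k ^ (j + p))⁻¹ • y) : ℂ) * Complex.I) =
      ζ ^ j * Complex.exp ((θ' ((k ^ j)⁻¹ • y) : ℂ) * Complex.I)
    have h1 : θ' ((k ^ (j + p))⁻¹ • y) = θ' ((k ^ j)⁻¹ • y) := by
      rw [← hθ'p ((k ^ (j + p))⁻¹ • y)]
      congr 1
      rw [smul_smul]
      congr 1
      rw [pow_add, mul_inv_rev, mul_inv_cancel_left]
    rw [h1, pow_add, hζp, mul_one]
  have hΨjmod : ∀ j y, Ψj (j % p) y = Ψj j y := by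
    intro j y
    have h1 : ∀ l : ℕ, Ψj (j % p + p * l) y = Ψj (j % p) y := by
      intro l
      induction l with
      | zero => simp
      | succ l ih => rw [Nat.mul_succ, ← add_assoc, hΨjp, ih]
    rw [← h1 (j / p), Nat.mod_add_div]
  have hΨW : ∀ y ∈ W, ∀ j, Ψj j y = e (jT y) := by
    intro y hy j
    have h1 : θ' ((k ^ j)⁻¹ • y) = θ ((k ^ j)⁻¹ • y) := hθ'W _ (hWD y hy _)
    have h2 : jT ((k ^ j)⁻¹ • y) = jT y - (j : ZMod p) := by
      rw [← zpow_natCast, ← zpow_neg, hjTz]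
      push_cast
      ring
    have h3 : Complex.exp ((θ ((k ^ j)⁻¹ • y) : ℂ) * Complex.I) = e (jT ((k ^ j)⁻¹ • y)) := by
      show Complex.exp (((2 * Real.pi / p * ((jT ((k ^ j)⁻¹ • y)).val : ℝ) : ℝ) : ℂ) * Complex.I) =
        ζ ^ (jT ((k ^ j)⁻¹ • y)).val
      rw [hζ, ← Complex.exp_nat_mul]
      congr 1
      push_cast
      ring
    show ζ ^ j * Complex.exp ((θ' ((k ^ j)⁻¹ • y) : ℂ) * Complex.I) = e (jT y)
    rw [h1, h3, ← he, h2, sub_add_cancel]
  refine ⟨fun y => Ψj (jU y).val y, ?_, fun y => hΨj0 _ _, ?_⟩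
  · rw [continuous_iff_continuousAt]
    intro y
    by_cases hy : y ∈ W
    · rw [Metric.continuousAt_iff']
      intro ε hε
      have h1 : ∀ᶠ y' in 𝓝 y, ∀ j ∈ Finset.range p, dist (Ψj j y') (Ψj j y) < ε := by
        rw [Filter.eventually_all_finset]
        intro j _
        exact Metric.continuousAt_iff'.1 (hΨjc j).continuousAt ε hε
      filter_upwards [h1] with y' hy'
      have h2 := hy' (jU y').val (Finset.mem_range.2 (ZMod.val_lt _))
      rw [hΨW y hy] at h2
      show dist (Ψj (jU y').val y') (Ψj (jU y).val y) < ε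
      rw [hΨW y hy]
      exact h2
    · have h1 : (fun y' => Ψj (jU y').val y') =ᶠ[𝓝 y] fun y' => Ψj (jU y).val y' := by
        filter_upwards [hcU y hy] with y' hy'
        have h2 : jU y' = jU y := congrArg κU hy'
        rw [h2]
      exact (hΨjc _).continuousAt.congr h1.symm
  · intro y
    show Ψj (jU (k • y)).val (k • y) = ζ * Ψj (jU y).val y
    by_cases hy : y ∈ W
    · rw [hΨW y hy, hΨW _ (hWD y hy k), hjT]
      have := he (jT y) 1
      rw [Nat.cast_one, pow_one] at this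
      exact this
    · have h1 : jU (k • y) = jU y + 1 := hjU y hy
      have h2 : (jU y + 1).val = ((jU y).val + 1) % p := by
        have h3 : jU y + 1 = (((jU y).val + 1 : ℕ) : ZMod p) := by
          push_cast
          rw [ZMod.natCast_zmod_val]
        rw [h3, ZMod.val_natCast]
      rw [h1, h2, hΨjmod, hΨjk]

end

end Pool.Agent.L0h31.HS
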