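import Pool.Agent.R775.HS.Ener

/-!
# Energies with general exponents

Adaptation of `Pool/Agent/R775/HS/Ener.lean`.
-/

set_option autoImplicit false

open MeasureTheory Set Metric Filter Topology
open scoped ENNReal NNReal

namespace Pool.Agent.L0h31.HS

open Pool.Agent.Y485.HS Pool.Agent.R775.HS

/-- the sum of the `q`-th powers of the distances of the images of pairs of points of `Q` in balls
of radius `r` with `r`-separated centres in `Q` is at most `b` -/
def En {n : ℕ} {V : Type} [PseudoMetricSpace V] (q : ℕ) (Q : Set (E n)) (r b : ℝ)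
    (f : E n → V) : Prop :=
  ∀ (A : Finset (E n)) (x y : E n → E n),
    (∀ a ∈ A, a ∈ Q ∧ x a ∈ Q ∧ y a ∈ Q ∧ dist (x a) a ≤ r ∧ dist (y a) a ≤ r) →
    (∀ a ∈ A, ∀ a' ∈ A, a ≠ a' → r ≤ dist a a') → ∑ a ∈ A, dist (f (x a)) (f (y a)) ^ q ≤ b

theorem en_mono {n q : ℕ} {V : Type} [PseudoMetricSpace V] {Q Q' : Set (E n)} {r b b' : ℝ}
    {f : E n → V} (hQ : Q ⊆ Q') (hb : b' ≤ b) (h : En q Q' r b' f) : En q Q r b f := by
  intro A x y h1 h2
  refine (h A x y (fun a ha => ?_) h2).trans hb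
  obtain ⟨q1, q2, q3, q4⟩ := h1 a ha
  exact ⟨hQ q1, hQ q2, hQ q3, q4⟩

theorem en_prod {n q : ℕ} {V V' : Type} [PseudoMetricSpace V] [PseudoMetricSpace V']
    {Q : Set (E n)} {r b b' : ℝ} {f : E n → V} {g : E n → V'} (h1 : En q Q r b f)
    (h2 : En q Q r b' g) : En q Q r (b + b') (fun x => (f x, g x)) := by
  intro A x y k1 k2
  calc ∑ a ∈ A, dist (f (x a), g (x a)) (f (y a), g (y a)) ^ q
      ≤ ∑ a ∈ A, (dist (f (x a)) (f (y a)) ^ q + dist (g (x a)) (g (y a)) ^ q) := by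
        refine Finset.sum_le_sum fun a _ => ?_
        rw [Prod.dist_eq]
        have e1 : 0 ≤ dist (f (x a)) (f (y a)) ^ q := pow_nonneg dist_nonneg _
        have e2 : 0 ≤ dist (g (x a)) (g (y a)) ^ q := pow_nonneg dist_nonneg _
        rcases max_cases (dist (f (x a)) (f (y a))) (dist (g (x a)) (g (y a))) with h | h
        · simp only [h.1]
          linarith
        · simp only [h.1]
          linarith
    _ = _ := Finset.sum_add_distrib
    _ ≤ b + b' := add_le_add (h1 A x y k1 k2) (h2 A x y k1 k2)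

theorem vol_prod_le {n : ℕ} (S : Set (E n × ℝ)) (hS : Bornology.IsBounded S) :
    volume S ≤ ENNReal.ofReal (Metric.diam S ^ (n + 1)) * (2 * volume (ball (0 : E n) 1)) := by
  rcases S.eq_empty_or_nonempty with rfl | ⟨p, hp⟩
  · simp
  · have h1 : S ⊆ closedBall p (Metric.diam S) := fun x hx =>
      mem_closedBall.2 (dist_le_diam_of_mem hS hx hp)
    refine (measure_mono h1).trans (le_of_eq ?_)
    rw [← closedBall_prod_same, Measure.volume_eq_prod, Measure.prod_prod,
      Measure.addHaar_closedBall volume p.1 diam_nonneg, finrank_euclideanSpace_fin,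
      Real.volume_closedBall, pow_succ, ENNReal.ofReal_mul (pow_nonneg diam_nonneg n),
      ENNReal.ofReal_mul (by norm_num)]
    have h2 : ENNReal.ofReal 2 = 2 := by norm_num
    rw [h2]
    ring

theorem slice_null' {n : ℕ} {V : Type} [PseudoMetricSpace V] [MeasurableSpace V] (ν : Measure V)
    {κ : ℝ≥0∞} (hκt : κ ≠ ∞) {q : ℕ}
    (hν : ∀ S : Set V, Bornology.IsBounded S → ν S ≤ ENNReal.ofReal (Metric.diam S ^ q) * κ)
    {Q : Set (E n)} (hQ : IsCompact Q) {f : E n → V}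
    (hf : ContinuousOn f Q) {r b : ℕ → ℝ} (hr : ∀ j, 0 < r j)
    (hrb : Tendsto (fun j => r j * b j) atTop (𝓝 0)) (hE : ∀ j, En q Q (r j) (b j) f)
    (i : Fin n) : ∀ᵐ t : ℝ, ν (f '' {x | x ∈ Q ∧ x i = t}) = 0 := by
  classical
  choose A hA1 hA2 hA3 using fun j : ℕ => net' hQ (hr j)
  have hmax : ∀ j a, ∃ q : E n × E n, a ∈ Q → (q.1 ∈ closedBall a (r j) ∩ Q ∧
      q.2 ∈ closedBall a (r j) ∩ Q ∧ ∀ z ∈ closedBall a (r j) ∩ Q,
        ∀ z' ∈ closedBall a (r j) ∩ Q, dist (f z) (f z') ≤ dist (f q.1) (f q.2)) := by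
    intro j a
    by_cases ha : a ∈ Q
    · have hK : IsCompact (closedBall a (r j) ∩ Q) := (isCompact_closedBall a (r j)).inter hQ
      obtain ⟨x, hx, y, hy, h⟩ := Pool.Agent.Y566.SP.exists_far hK
        ⟨a, mem_closedBall_self (hr j).le, ha⟩ (hf.mono inter_subset_right)
      exact ⟨(x, y), fun _ => ⟨hx, hy, h⟩⟩
    · exact ⟨(a, a), fun h => (ha h).elim⟩
  choose z hz using hmax
  set D : ℕ → E n → ℝ := fun j a => dist (f (z j a).1) (f (z j a).2) ^ q with hD
  have hD0 : ∀ j a, 0 ≤ D j a := fun j a => pow_nonneg dist_nonneg _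
  have hDs : ∀ j, ∑ a ∈ A j, D j a ≤ b j := fun j =>
    hE j (A j) (fun a => (z j a).1) (fun a => (z j a).2) (fun a ha => by
      obtain ⟨h1, h2, -⟩ := hz j a (hA1 j a ha)
      exact ⟨hA1 j a ha, h1.2, h2.2, mem_closedBall.1 h1.1, mem_closedBall.1 h2.1⟩) (hA2 j)
  set g : ℕ → ℝ → ℝ≥0∞ := fun j t => ∑ a ∈ A j,
    (Icc (a i - r j) (a i + r j)).indicator (fun _ => ENNReal.ofReal (D j a) * κ) t with hg
  have hgm : ∀ j, Measurable (g j) := by
    intro j
    refine Finset.measurable_fun_sum _ fun a _ => ?_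
    exact measurable_const.indicator measurableSet_Icc
  have hint : ∀ j, ∫⁻ t, g j t ≤ ENNReal.ofReal (2 * (r j * b j)) * κ := by
    intro j
    have h1 : ∫⁻ t, g j t = ∑ a ∈ A j,
        ENNReal.ofReal (D j a) * κ * ENNReal.ofReal (2 * r j) := by
      simp only [hg]
      rw [lintegral_finsetSum _ fun a _ => measurable_const.indicator measurableSet_Icc]
      refine Finset.sum_congr rfl fun a _ => ?_
      rw [lintegral_indicator measurableSet_Icc, lintegral_const,
        Measure.restrict_apply MeasurableSet.univ, univ_inter, Real.volume_Icc]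
      congr 2
      ring
    have h2 : ∑ a ∈ A j, ENNReal.ofReal (D j a) * κ * ENNReal.ofReal (2 * r j)
        = ENNReal.ofReal ((∑ a ∈ A j, D j a) * (2 * r j)) * κ := by
      rw [ENNReal.ofReal_mul (Finset.sum_nonneg fun a _ => hD0 j a),
        ENNReal.ofReal_sum_of_nonneg fun a _ => hD0 j a, Finset.sum_mul, Finset.sum_mul]
      refine Finset.sum_congr rfl fun a _ => ?_
      ring
    rw [h1, h2]
    refine mul_le_mul' (ENNReal.ofReal_le_ofReal ?_) le_rfl
    have h3 := hDs j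
    have h4 := hr j
    nlinarith
  have hlim : ∫⁻ t, liminf (fun j => g j t) atTop = 0 := by
    refine le_antisymm ?_ bot_le
    refine (lintegral_liminf_le hgm).trans ?_
    have hz : Tendsto (fun j => ENNReal.ofReal (2 * (r j * b j)) * κ) atTop (𝓝 0) := by
      have h1 : Tendsto (fun j => 2 * (r j * b j)) atTop (𝓝 0) := by
        simpa using hrb.const_mul 2
      have h2 := ENNReal.tendsto_ofReal h1
      have h3 := ENNReal.Tendsto.mul_const h2 (b := κ) (Or.inr hκt)
      simpa using h3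
    calc liminf (fun j => ∫⁻ t, g j t) atTop
        ≤ liminf (fun j => ENNReal.ofReal (2 * (r j * b j)) * κ) atTop :=
          liminf_le_liminf (Eventually.of_forall hint)
      _ = 0 := hz.liminf_eq
  have hae := (lintegral_eq_zero_iff (Measurable.liminf hgm)).1 hlim
  filter_upwards [hae] with t ht
  have key : ∀ j, ν (f '' {x | x ∈ Q ∧ x i = t}) ≤ g j t := by
    intro j
    have hsub : f '' {x | x ∈ Q ∧ x i = t} ⊆
        ⋃ a ∈ (A j).filter (fun a => t ∈ Icc (a i - r j) (a i + r j)),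
          f '' (closedBall a (r j) ∩ Q) := by
      rintro y ⟨x, ⟨hx, hxt⟩, rfl⟩
      obtain ⟨a, haA, hxa⟩ := hA3 j x hx
      have h1 := Pool.Agent.Y401.SPN.coord x a i
      rw [hxt, abs_le] at h1
      refine mem_biUnion (x := a) ?_ ⟨x, ⟨mem_closedBall.2 hxa, hx⟩, rfl⟩
      rw [Finset.mem_coe, Finset.mem_filter]
      exact ⟨haA, by linarith [h1.1], by linarith [h1.2]⟩
    refine (measure_mono hsub).trans ((measure_biUnion_finset_le _ _).trans ?_)
    have hb : ∀ a ∈ A j, ν (f '' (closedBall a (r j) ∩ Q)) ≤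
        ENNReal.ofReal (D j a) * κ := by
      intro a ha
      have haQ := hA1 j a ha
      obtain ⟨-, -, hm⟩ := hz j a haQ
      have hbd : Bornology.IsBounded (f '' (closedBall a (r j) ∩ Q)) :=
        ((((isCompact_closedBall a (r j)).inter hQ)).image_of_continuousOn
          (hf.mono inter_subset_right)).isBounded
      refine (hν _ hbd).trans ?_
      gcongr
      simp only [hD]
      refine pow_le_pow_left₀ diam_nonneg ?_ q
      refine Metric.diam_le_of_forall_dist_le dist_nonneg ?_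
      rintro _ ⟨w, hw, rfl⟩ _ ⟨w', hw', rfl⟩
      exact hm w hw w' hw'
    calc ∑ a ∈ (A j).filter (fun a => t ∈ Icc (a i - r j) (a i + r j)),
          ν (f '' (closedBall a (r j) ∩ Q))
        ≤ ∑ a ∈ (A j).filter (fun a => t ∈ Icc (a i - r j) (a i + r j)),
          ENNReal.ofReal (D j a) * κ :=
          Finset.sum_le_sum fun a ha => hb a (Finset.mem_filter.1 ha).1
      _ = g j t := by
          rw [Finset.sum_filter]
          simp only [hg, Set.indicator_apply]
  refine le_antisymm ?_ bot_le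
  calc ν (f '' {x | x ∈ Q ∧ x i = t}) ≤ liminf (fun j => g j t) atTop :=
        le_liminf_of_le (by isBoundedDefault) (Eventually.of_forall key)
    _ = 0 := ht

/-- on the intersections of almost all fibres with hyperplanes the functions of a countable family
miss a dense set of values -/
theorem ae_levels {n : ℕ} {Q : Set (E n)} (hQ : IsCompact Q) {f : E n → E n}
    (hf : ContinuousOn f Q) {ι : Type} [Countable ι] {h : ι → E n → ℝ}
    (hh : ∀ c, ContinuousOn (h c) Q) {r b : ℕ → ℝ} (hr : ∀ j, 0 < r j)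
    (hrb : Tendsto (fun j => r j * b j) atTop (𝓝 0)) (hEf : ∀ j, En (n + 1) Q (r j) (b j) f)
    (hEh : ∀ c j, En (n + 1) Q (r j) (b j) (h c)) :
    ∃ T : Fin n → Set ℝ, (∀ i, Dense (T i)) ∧ ∀ᵐ y : E n, ∀ c i, ∀ t ∈ T i,
      Dense {s : ℝ | ∀ x ∈ Q, x i = t → f x = y → h c x ≠ s} := by
  have hκ : (2 * volume (ball (0 : E n) 1)) ≠ ∞ :=
    ENNReal.mul_ne_top (by norm_num) measure_ball_lt_top.ne
  have hrb' : Tendsto (fun j => r j * (b j + b j)) atTop (𝓝 0) := by
    have h1 := hrb.add hrb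
    rw [add_zero] at h1
    refine h1.congr fun j => ?_
    ring
  have h1 : ∀ i : Fin n, ∃ T : Set ℝ, T.Countable ∧ Dense T ∧ ∀ t ∈ T, ∀ c : ι,
      volume ((fun x => (f x, h c x)) '' {x | x ∈ Q ∧ x i = t}) = 0 := by
    intro i
    have h2 : ∀ᵐ t : ℝ, ∀ c : ι,
        volume ((fun x => (f x, h c x)) '' {x | x ∈ Q ∧ x i = t}) = 0 := by
      rw [ae_all_iff]
      intro c
      exact slice_null' volume hκ (q := n + 1) (fun S hS => vol_prod_le S hS) hQ
        (hf.prodMk (hh c)) hr hrb' (fun j => en_prod (hEf j) (hEh c j)) i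
    obtain ⟨T, hT1, hT2, hT3⟩ := (Measure.dense_of_ae h2).exists_countable_dense_subset
    exact ⟨T, hT2, hT3, fun t ht => hT1 ht⟩
  choose T hT1 hT2 hT3 using h1
  refine ⟨T, hT2, ?_⟩
  rw [ae_all_iff]
  intro c
  rw [ae_all_iff]
  intro i
  rw [ae_ball_iff (hT1 i)]
  intro t ht
  have h3 := hT3 i t ht c
  have h4 : ∀ᵐ z : E n × ℝ, z ∉ (fun x => (f x, h c x)) '' {x | x ∈ Q ∧ x i = t} :=
    measure_eq_zero_iff_ae_notMem.1 h3
  rw [Measure.volume_eq_prod] at h4
  filter_upwards [Measure.ae_ae_of_ae_prod h4] with y hy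
  refine (Measure.dense_of_ae hy).mono ?_
  intro s hs x hx hxt hfx hhx
  exact hs ⟨x, ⟨hx, hxt⟩, Prod.ext hfx hhx⟩

/-- averages have small energy -/
theorem en_avg {n q : ℕ} {V : Type} [NormedAddCommGroup V] [NormedSpace ℝ V] {Q : Set (E n)}
    {r b : ℝ} {Ω : Type} [TopologicalSpace Ω]
    [CompactSpace Ω] [MeasurableSpace Ω] [BorelSpace Ω] (μ : Measure Ω) [IsProbabilityMeasure μ]
    (S : Ω → E n → V) (hS : ∀ u ∈ Q, Continuous (fun ω => S ω u))
    (hSi : ∀ u ∈ Q, Integrable (fun ω => S ω u) μ)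
    (hE : ∀ ω, En q Q r b (S ω)) : En q Q r b (fun u => ∫ ω, S ω u ∂μ) := by
  intro A x y h1 h2
  have hci : ∀ f : Ω → ℝ, Continuous f → Integrable f μ := fun f hf =>
    hf.integrable_of_hasCompactSupport (HasCompactSupport.of_compactSpace _)
  have hdc : ∀ a ∈ A, Continuous (fun ω => dist (S ω (x a)) (S ω (y a))) := fun a ha =>
    (hS _ (h1 a ha).2.1).dist (hS _ (h1 a ha).2.2.1)
  have hterm : ∀ a ∈ A, dist (∫ ω, S ω (x a) ∂μ) (∫ ω, S ω (y a) ∂μ) ^ q ≤
      ∫ ω, dist (S ω (x a)) (S ω (y a)) ^ q ∂μ := by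
    intro a ha
    have e1 : dist (∫ ω, S ω (x a) ∂μ) (∫ ω, S ω (y a) ∂μ) ≤
        ∫ ω, dist (S ω (x a)) (S ω (y a)) ∂μ := by
      rw [dist_eq_norm, ← integral_sub (hSi _ (h1 a ha).2.1) (hSi _ (h1 a ha).2.2.1)]
      refine (norm_integral_le_integral_norm _).trans (le_of_eq ?_)
      simp only [dist_eq_norm]
    have e2 := (convexOn_pow (𝕜 := ℝ) q).map_integral_le (μ := μ)
      (f := fun ω => dist (S ω (x a)) (S ω (y a))) (continuous_pow q).continuousOn isClosed_Ici
      (Eventually.of_forall fun ω => dist_nonneg) (hci _ (hdc a ha))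
      (hci _ ((hdc a ha).pow q))
    exact (pow_le_pow_left₀ dist_nonneg e1 q).trans e2
  calc ∑ a ∈ A, dist (∫ ω, S ω (x a) ∂μ) (∫ ω, S ω (y a) ∂μ) ^ q
      ≤ ∑ a ∈ A, ∫ ω, dist (S ω (x a)) (S ω (y a)) ^ q ∂μ := Finset.sum_le_sum hterm
    _ = ∫ ω, ∑ a ∈ A, dist (S ω (x a)) (S ω (y a)) ^ q ∂μ := by
        rw [integral_finsetSum]
        intro a ha
        exact hci _ ((hdc a ha).pow q)
    _ ≤ ∫ _ω, b ∂μ := by
        refine integral_mono (hci _ (continuous_finsetSum _ fun a ha => (hdc a ha).pow q))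
          (integrable_const _) fun ω => ?_
        exact hE ω A x y h1 h2
    _ = b := by simp

theorem isClosed_en {n q : ℕ} {V : Type} [PseudoMetricSpace V] {S : Type} [TopologicalSpace S]
    {Q : Set (E n)} {r b : ℝ} {f : S → E n → V} (hf : ∀ v ∈ Q, Continuous (fun s => f s v)) :
    IsClosed {s | En q Q r b (f s)} := by
  have h1 : {s | En q Q r b (f s)} = ⋂ (A : Finset (E n)) (x : E n → E n) (y : E n → E n)
      (_ : ∀ a ∈ A, a ∈ Q ∧ x a ∈ Q ∧ y a ∈ Q ∧ dist (x a) a ≤ r ∧ dist (y a) a ≤ r)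
      (_ : ∀ a ∈ A, ∀ a' ∈ A, a ≠ a' → r ≤ dist a a'),
      {s | ∑ a ∈ A, dist (f s (x a)) (f s (y a)) ^ q ≤ b} := by
    ext s
    simp only [En, mem_ofPred_eq, mem_iInter]
  rw [h1]
  refine isClosed_iInter fun A => isClosed_iInter fun x => isClosed_iInter fun y =>
    isClosed_iInter fun h1 => isClosed_iInter fun _ => ?_
  refine isClosed_le (continuous_finsetSum _ fun a ha => ?_) continuous_const
  exact ((hf _ (h1 a ha).2.1).dist (hf _ (h1 a ha).2.2.1)).pow q

/-- energies of maps composed with a Lipschitz function -/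
theorem en_lip {n q : ℕ} {V V' : Type} [PseudoMetricSpace V] [PseudoMetricSpace V']
    {Q : Set (E n)} {r b L : ℝ} (hL : 0 ≤ L) {f : E n → V} {g : E n → V'}
    (hfg : ∀ x ∈ Q, ∀ y ∈ Q, dist (g x) (g y) ≤ L * dist (f x) (f y)) (h : En q Q r b f) :
    En q Q r (L ^ q * b) g := by
  intro A x y h1 h2
  have h3 := h A x y h1 h2
  calc ∑ a ∈ A, dist (g (x a)) (g (y a)) ^ q
      ≤ ∑ a ∈ A, L ^ q * dist (f (x a)) (f (y a)) ^ q := by
        refine Finset.sum_le_sum fun a ha => ?_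
        rw [← mul_pow]
        exact pow_le_pow_left₀ dist_nonneg (hfg _ (h1 a ha).2.1 _ (h1 a ha).2.2.1) q
    _ = L ^ q * ∑ a ∈ A, dist (f (x a)) (f (y a)) ^ q := by rw [Finset.mul_sum]
    _ ≤ L ^ q * b := mul_le_mul_of_nonneg_left h3 (pow_nonneg hL q)

end Pool.Agent.L0h31.HS
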