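import Pool.Agent.L0h31.HS.B3
import Pool.Agent.N512.CC.E3

/-!
# Averaging operators with estimates of energies
-/

set_option autoImplicit false
set_option linter.unusedSectionVars false

open MeasureTheory Set Metric Filter Topology TopologicalSpace
open scoped ENNReal NNReal

namespace Pool.Agent.L0h31.HS

open Pool.Agent.Y485.HS Pool.Agent.Y489.SP Pool.Agent.Y475.HS Pool.Agent.R775.HS
  Pool.Agent.R775.HC Pool.Agent.N512.HS Pool.Agent.N512.CC

/-- the averaging operator -/
theorem exists_avgV {n : ℕ} {V : Type} [NormedAddCommGroup V] [NormedSpace ℝ V] [CompleteSpace V]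
    [SecondCountableTopology V] {X : Type} [TopologicalSpace X] [T2Space X] {H : Type} [Group H]
    [TopologicalSpace H] [IsTopologicalGroup H] [T2Space H] [MulAction H X] [ContinuousSMul H X]
    {φ : OpenPartialHomeomorph X (E n)} {g : H}
    (hcomp : IsCompact ((Subgroup.zpowers g).topologicalClosure : Set H))
    (hs : Small φ ((Subgroup.zpowers g).topologicalClosure : Set H)) :
    ∃ A : C(E n, V) → E n → V,
      (∀ ψ, ContinuousOn (A ψ) (closedBall 0 4)) ∧
      (∀ ψ, ∀ v ∈ closedBall (0 : E n) 3, A ψ (φ (g • φ.symm v)) = A ψ v) ∧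
      (∀ ψ (w : V) (c : ℝ), ∀ v ∈ closedBall (0 : E n) 4,
        (∀ k ∈ (Subgroup.zpowers g).topologicalClosure, dist (ψ (φ (k • φ.symm v))) w ≤ c) →
          dist (ψ v) w < c → dist (A ψ v) w < c) ∧
      (∀ ψ (a : V), ∀ v ∈ closedBall (0 : E n) 4,
        (∀ k ∈ (Subgroup.zpowers g).topologicalClosure, ψ (φ (k • φ.symm v)) = a) →
          A ψ v = a) ∧
      (∀ ψ (q : ℕ) (Q : Set (E n)) (r b : ℝ) (σ : E n → E n),
        (∀ u ∈ Q, σ u ∈ closedBall (0 : E n) 4) →
        (∀ k ∈ (Subgroup.zpowers g).topologicalClosure,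
          En q Q r b (fun u => ψ (φ (k • φ.symm (σ u))))) →
        En q Q r b (fun u => A ψ (σ u))) := by
  set K : Subgroup H := (Subgroup.zpowers g).topologicalClosure with hKdef
  have hT := locAct_of_small K hs
  set T : K → E n → E n := fun h v => φ ((h : H) • φ.symm v) with hTdef
  have hgmem : g ∈ K := Subgroup.le_topologicalClosure _ (Subgroup.mem_zpowers g)
  have hKcomp : CompactSpace K := isCompact_iff_compactSpace.1 hcomp
  let _ : MeasurableSpace K := borel K
  have _ : BorelSpace K := ⟨rfl⟩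
  let μ : Measure K := Measure.haarMeasure ⊤
  have hμ1 : IsProbabilityMeasure μ := ⟨by
    have := Measure.haarMeasure_self (K₀ := (⊤ : TopologicalSpace.PositiveCompacts K))
    simpa using this⟩
  let S : C(E n, V) → K → E n → V := fun ψ k x => ψ (T k⁻¹ x)
  have hScont : ∀ ψ, ContinuousOn (fun q : K × E n => S ψ q.1 q.2) (univ ×ˢ BB n) := by
    intro ψ
    have hc : Continuous (fun q : K × E n => (q.1⁻¹, q.2)) := by fun_prop
    refine ψ.continuous.comp_continuousOn (hT.cont.comp hc.continuousOn ?_)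
    rintro ⟨k, x⟩ ⟨-, hx⟩
    exact ⟨mem_univ _, hx⟩
  have hSc1 : ∀ ψ, ∀ x ∈ BB n, Continuous (fun k => S ψ k x) := by
    intro ψ x hx
    have hc : Continuous (fun k : K => (k, x)) := by fun_prop
    exact (hScont ψ).comp_continuous hc (fun k => ⟨mem_univ _, hx⟩)
  have hSint : ∀ ψ, ∀ x ∈ BB n, Integrable (fun k => S ψ k x) μ := fun ψ x hx =>
    (hSc1 ψ x hx).integrable_of_hasCompactSupport (HasCompactSupport.of_compactSpace _)
  have hinvm : ∀ k : K, ((k⁻¹ : K) : H) ∈ K := fun k => (k⁻¹).2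
  refine ⟨fun ψ x => ∫ k, S ψ k x ∂μ, ?_, ?_, ?_, ?_, ?_⟩
  · intro ψ
    rw [continuousOn_iff_continuous_domRestrict]
    have h1 : Continuous (Function.uncurry fun (x : closedBall (0 : E n) 4) (k : K) =>
        S ψ k x) := by
      have hc : Continuous (fun q : (closedBall (0 : E n) 4) × K => (q.2, (q.1 : E n))) := by
        fun_prop
      exact (hScont ψ).comp_continuous hc fun q => ⟨mem_univ _, q.1.2⟩
    have h2 := continuous_parametric_integral_of_continuous (μ := μ) h1 isCompact_univ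
    simp only [Measure.restrict_univ] at h2
    exact h2
  · intro ψ v hv
    have hvn : ‖v‖ ≤ 3 := by simpa using hv
    have hv4 : v ∈ BB n := closedBall_subset_closedBall (by norm_num) hv
    have h2 := norm_T_le hT ⟨g, hgmem⟩ hv4
    have hgv : T ⟨g, hgmem⟩ v ∈ BB n := mem_BB.2 (by linarith)
    have h1 : ∀ k' : K, S ψ k' (T ⟨g, hgmem⟩ v) = S ψ (⟨g, hgmem⟩⁻¹ * k') v := by
      intro k'
      show ψ (T k'⁻¹ (T ⟨g, hgmem⟩ v)) = ψ (T (⟨g, hgmem⟩⁻¹ * k')⁻¹ v)
      rw [← hT.mul _ _ v hv4 hgv]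
      congr 2
      simp
    show ∫ k', S ψ k' (T ⟨g, hgmem⟩ v) ∂μ = ∫ k', S ψ k' v ∂μ
    simp_rw [h1]
    exact integral_mul_left_eq_self (fun k' => S ψ k' v) (⟨g, hgmem⟩⁻¹ : K)
  · intro ψ w c v hv hle0 hlt
    have h1 : (∫ k, S ψ k v ∂μ) - w = ∫ k, (S ψ k v - w) ∂μ := by
      rw [integral_sub (hSint _ v hv) (integrable_const _)]
      simp
    rw [dist_eq_norm, h1]
    have hc : Continuous (fun k : K => ‖S ψ k v - w‖) :=
      ((hSc1 _ v hv).sub continuous_const).norm
    have hle : ∀ k : K, ‖S ψ k v - w‖ ≤ c := by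
      intro k
      have := hle0 _ (hinvm k)
      rwa [dist_eq_norm] at this
    refine lt_of_le_of_lt (norm_integral_le_integral_norm _) ?_
    have hci : ∀ f : K → ℝ, Continuous f → Integrable f μ := fun f hf =>
      hf.integrable_of_hasCompactSupport (HasCompactSupport.of_compactSpace _)
    have hpos : 0 < ∫ k : K, (c - ‖S ψ k v - w‖) ∂μ := by
      refine (continuous_const.sub hc).integral_pos_of_hasCompactSupport_nonneg_nonzero (x := 1)
        (HasCompactSupport.of_compactSpace _) (fun k => sub_nonneg.2 (hle k)) ?_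
      have h3 : S ψ (1 : K) v = ψ v := by
        show ψ (T (1 : K)⁻¹ v) = ψ v
        rw [inv_one, hT.one v hv]
      rw [h3]
      rw [dist_eq_norm] at hlt
      exact (sub_pos.2 hlt).ne'
    rw [integral_sub (integrable_const _) (hci _ hc)] at hpos
    simp only [integral_const, probReal_univ, one_smul] at hpos
    linarith
  · intro ψ a v hv ha
    have h1 : ∀ k : K, S ψ k v = a := fun k => ha _ (hinvm k)
    show ∫ k, S ψ k v ∂μ = a
    simp_rw [h1]
    simp
  · intro ψ q Q r b σ hσ hE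
    exact en_avg μ (fun k u => S ψ k (σ u)) (fun u hu => hSc1 ψ _ (hσ u hu))
      (fun u hu => hSint ψ _ (hσ u hu)) (fun k => hE _ (hinvm k))

/-- the real tents -/
noncomputable def rtent {n : ℕ} (c : E n) (r : ℝ) : C(E n, ℝ) :=
  ⟨fun u => max 0 (r - dist u c), by fun_prop⟩

theorem rtent_apply {n : ℕ} (c : E n) (r : ℝ) (u : E n) :
    rtent c r u = max 0 (r - dist u c) := rfl

theorem rtent_lip {n : ℕ} (c : E n) (r : ℝ) (u w : E n) :
    dist (rtent c r u) (rtent c r w) ≤ 1 * dist u w := by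
  rw [rtent_apply, rtent_apply, Real.dist_eq, one_mul]
  have h1 : |max 0 (r - dist u c) - max 0 (r - dist w c)| ≤ |(r - dist u c) - (r - dist w c)| := by
    have := abs_max_sub_max_le_max 0 (r - dist u c) 0 (r - dist w c)
    rw [sub_self, abs_zero] at this
    exact this.trans (max_le (abs_nonneg _) le_rfl)
  refine h1.trans ?_
  have h2 : (r - dist u c) - (r - dist w c) = dist w c - dist u c := by ring
  rw [h2, dist_comm u w]
  have h3 := dist_dist_dist_le_left w u c
  rwa [Real.dist_eq] at h3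

end Pool.Agent.L0h31.HS
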