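import Pool.Agent.L0h31.HS.B2
import Pool.Agent.L0h31.HS.B4

/-!
# Eigenfunctions on almost all fibres from small energies
-/

set_option autoImplicit false
set_option linter.unusedSectionVars false

open MeasureTheory Set Metric Filter Topology TopologicalSpace
open scoped ENNReal NNReal

namespace Pool.Agent.L0h31.HS

open Pool.Agent.Y485.HS Pool.Agent.Y489.SP Pool.Agent.Y475.HS Pool.Agent.R775.HS
  Pool.Agent.R775.HC Pool.Agent.N512.HS Pool.Agent.N512.CC

section
variable {n : ℕ} {X : Type} [TopologicalSpace X] [T2Space X]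

/-- the circle condition from small energies of the exponent `n + 1` -/
theorem good_of_en (hn : 1 ≤ n) {H : Type} [Group H] [TopologicalSpace H]
    [IsTopologicalGroup H] [CompactSpace H] [T2Space H] [TotallyDisconnectedSpace H]
    [MulAction H X] [ContinuousSMul H X] {φ : OpenPartialHomeomorph X (E n)} {g : H} {p : ℕ}
    (hp : p.Prime) (hg : Tendsto (fun j : ℕ => g ^ p ^ j) atTop (𝓝 1))
    (hs : Small φ ((Subgroup.zpowers g).topologicalClosure : Set H))
    {τ σ : E n → E n} (hτc : ContinuousOn τ (closedBall 0 3))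
    (hσc : ContinuousOn σ (τ '' closedBall 0 3)) (hστ : ∀ v ∈ closedBall (0 : E n) 3, σ (τ v) = v)
    {P : Set (E n)} (hPc : IsClosed P)
    (hP : {v | v ∈ closedBall (0 : E n) 3 ∧ φ.symm v ∈ closure {x : X | InfOrbit g x} ∧
      τ v ∉ P}.Countable) {r b : ℕ → ℝ} (hr : ∀ j, 0 < r j)
    (hrb : Tendsto (fun j => r j * b j) atTop (𝓝 0))
    (hE : ∀ k ∈ (Subgroup.zpowers g).topologicalClosure, ∀ j,
      En (n + 1) (τ '' closedBall 0 3 ∩ P) (r j) (b j) (fun u => φ (k • φ.symm (σ u)))) :
    GoodCirc φ g p := by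
  classical
  have hcomp : IsCompact ((Subgroup.zpowers g).topologicalClosure : Set H) :=
    (Subgroup.isClosed_topologicalClosure _).isCompact
  have hs0 := hs
  obtain ⟨ht, hsm⟩ := hs
  set D : Subgroup H := (Subgroup.zpowers g).topologicalClosure with hD
  have hDc : IsClosed (D : Set H) := Subgroup.isClosed_topologicalClosure _
  have hgD : g ∈ D := Subgroup.le_topologicalClosure _ (Subgroup.mem_zpowers g)
  have h34 : closedBall (0 : E n) 3 ⊆ closedBall 0 4 := closedBall_subset_closedBall (by norm_num)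
  have hn3 : ∀ v : E n, ‖v‖ ≤ 3 → v ∈ closedBall (0 : E n) 3 := fun v hv => by simpa using hv
  have hn4 : ∀ v : E n, ‖v‖ ≤ 4 → v ∈ closedBall (0 : E n) 4 := fun v hv => by simpa using hv
  -- the power
  have hgpD : g ^ p ∈ D := D.pow_mem hgD p
  have hD'D : (Subgroup.zpowers (g ^ p)).topologicalClosure ≤ D :=
    Subgroup.topologicalClosure_minimal _ ((Subgroup.zpowers_le).2 hgpD) hDc
  have hs' : Small φ ((Subgroup.zpowers (g ^ p)).topologicalClosure : Set H) :=
    ⟨ht, fun h hh => hsm h (hD'D hh)⟩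
  have hcomp' : IsCompact ((Subgroup.zpowers (g ^ p)).topologicalClosure : Set H) :=
    (Subgroup.isClosed_topologicalClosure _).isCompact
  obtain ⟨A, hA1, hA2, hA3, hA4, hA5⟩ := exists_avgV (V := E n) hcomp hs0
  obtain ⟨A', hB1, hB2, hB3, hB4, hB5⟩ := exists_avgV (V := ℝ) hcomp' hs'
  obtain ⟨F, hFdef⟩ : ∃ F : E n → E n, F = A (ContinuousMap.id _) := ⟨_, rfl⟩
  have hF0 : ContinuousOn F (closedBall 0 4) := by rw [hFdef]; exact hA1 _
  have hF1 : ∀ v ∈ closedBall (0 : E n) 4, dist (F v) v < 1 / 4 := by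
    intro v hv
    rw [hFdef]
    refine hA3 _ v (1 / 4) v hv (fun k hk => (hsm k hk v hv).2) ?_
    show dist v v < 1 / 4
    rw [dist_self]
    norm_num
  have hF2 : ∀ v ∈ closedBall (0 : E n) 3, F (φ (g • φ.symm v)) = F v := by
    intro v hv
    rw [hFdef]
    exact hA2 _ v hv
  have hF3 : ∀ v ∈ closedBall (0 : E n) 3, g • φ.symm v = φ.symm v → F v = v := by
    intro v hv hgv
    rw [hFdef]
    refine hA4 _ v v (h34 hv) fun k hk => ?_
    show φ (k • φ.symm v) = v
    rw [fix_closure hk hgv, φ.right_inv (ht (h34 hv))]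
  -- the maps
  have hTn : ∀ k ∈ D, ∀ v : E n, ‖v‖ ≤ 3 → ‖φ (k • φ.symm v)‖ ≤ ‖v‖ + 1 / 4 := by
    intro k hk v hv
    have h1 := (hsm k hk v (hn4 v (by linarith))).2
    rw [dist_eq_norm] at h1
    calc ‖φ (k • φ.symm v)‖ = ‖(φ (k • φ.symm v) - v) + v‖ := by congr 1; abel
      _ ≤ ‖φ (k • φ.symm v) - v‖ + ‖v‖ := norm_add_le _ _
      _ ≤ ‖v‖ + 1 / 4 := by linarith
  have hTs : ∀ k ∈ D, ∀ v : E n, ‖v‖ ≤ 4 → φ.symm (φ (k • φ.symm v)) = k • φ.symm v :=
    fun k hk v hv => φ.left_inv (hsm k hk v (hn4 v hv)).1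
  have hTc : ∀ v : E n, ‖v‖ ≤ 3 → ContinuousOn (fun k : H => φ (k • φ.symm v)) D := by
    intro v hv
    refine φ.continuousOn.comp ?_ fun k hk => (hsm k hk v (hn4 v (by linarith))).1
    have hc : Continuous (fun k : H => k • φ.symm v) := by fun_prop
    exact hc.continuousOn
  -- invariance
  have hFnat : ∀ (m : ℕ) (v : E n), ‖v‖ ≤ 2 → F (φ (g ^ m • φ.symm v)) = F v := by
    intro m v hv
    induction m with
    | zero => rw [pow_zero, one_smul, φ.right_inv (ht (hn4 v (by linarith)))]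
    | succ m ih =>
      have h1 := hTn (g ^ m) (D.pow_mem hgD m) v (by linarith)
      rw [← ih, pow_succ', mul_smul, ← hTs (g ^ m) (D.pow_mem hgD m) v (by linarith)]
      rw [hF2 _ (hn3 _ (by linarith)), hTs (g ^ m) (D.pow_mem hgD m) v (by linarith)]
  have hFint : ∀ (m : ℤ) (v : E n), ‖v‖ ≤ 3 / 2 → F (φ (g ^ m • φ.symm v)) = F v := by
    intro m v hv
    obtain ⟨l, hl | hl⟩ := m.eq_nat_or_neg
    · rw [hl, zpow_natCast]
      exact hFnat l v (by linarith)
    · have hmem : g ^ m ∈ D := D.zpow_mem hgD m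
      have h1 := hTn (g ^ m) hmem v (by linarith)
      have h2 := hFnat l (φ (g ^ m • φ.symm v)) (by linarith)
      rw [hTs (g ^ m) hmem v (by linarith), smul_smul, ← zpow_natCast, ← zpow_add, hl,
        add_neg_cancel, zpow_zero, one_smul, φ.right_inv (ht (hn4 v (by linarith)))] at h2
      rw [hl]
      exact h2.symm
  -- the energies
  set Q : Set (E n) := τ '' closedBall 0 3 ∩ P with hQ
  have hQc : IsCompact Q := ((isCompact_closedBall 0 3).image_of_continuousOn hτc).inter_right hPc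
  have hσQ : ∀ u ∈ Q, σ u ∈ closedBall (0 : E n) 3 := by
    rintro _ ⟨⟨v, hv, rfl⟩, -⟩
    rw [hστ v hv]
    exact hv
  have hσQn : ∀ u ∈ Q, ‖σ u‖ ≤ 3 := fun u hu => by simpa using hσQ u hu
  have hσcQ : ContinuousOn σ Q := hσc.mono inter_subset_left
  let ψ : ℕ × ℚ → C(E n, ℝ) := fun c => rtent (denseSeq (E n) c.1) (c.2 : ℝ)
  let hc : ℕ × ℚ → E n → ℝ := fun c => A' (ψ c)
  let hj : (ℕ × ℚ) × ℕ → E n → ℝ := fun c v => hc c.1 (φ (g ^ c.2 • φ.symm v))
  have htr : ∀ j : ℕ, ∀ u ∈ Q, φ (g ^ j • φ.symm (σ u)) ∈ closedBall (0 : E n) 4 := by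
    intro j u hu
    have h1 := hTn (g ^ j) (D.pow_mem hgD j) (σ u) (hσQn u hu)
    have h2 := hσQn u hu
    exact hn4 _ (by linarith)
  have hEF : ∀ j, En (n + 1) Q (r j) (b j) (fun u => F (σ u)) := by
    intro j
    rw [hFdef]
    exact hA5 _ (n + 1) Q (r j) (b j) σ (fun u hu => h34 (hσQ u hu)) fun k hk => hE k hk j
  have hEh : ∀ (c : (ℕ × ℚ) × ℕ) (j : ℕ), En (n + 1) Q (r j) (b j) (fun u => hj c (σ u)) := by
    rintro ⟨c, l⟩ j
    refine hB5 (ψ c) (n + 1) Q (r j) (b j) (fun u => φ (g ^ l • φ.symm (σ u))) (htr l) ?_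
    intro k hk
    have h1 := hE (k * g ^ l) (D.mul_mem (hD'D hk) (D.pow_mem hgD l)) j
    have h2 : En (n + 1) Q (r j) (1 ^ (n + 1) * b j)
        (fun u => ψ c (φ (k • φ.symm (φ (g ^ l • φ.symm (σ u)))))) := by
      refine en_lip zero_le_one (fun u hu w hw => ?_) h1
      rw [hTs _ (D.pow_mem hgD l) _ (by have := hσQn u hu; linarith),
        hTs _ (D.pow_mem hgD l) _ (by have := hσQn w hw; linarith), smul_smul, smul_smul]
      exact rtent_lip _ _ _ _
    rw [one_pow, one_mul] at h2
    exact h2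
  have hcF : ContinuousOn (fun u => F (σ u)) Q := hF0.comp hσcQ fun u hu => h34 (hσQ u hu)
  have hcj : ∀ c : (ℕ × ℚ) × ℕ, ContinuousOn (fun u => hj c (σ u)) Q := by
    rintro ⟨c, l⟩
    refine (hB1 (ψ c)).comp ?_ (htr l)
    refine φ.continuousOn.comp ?_ fun u hu =>
      (hsm _ (D.pow_mem hgD l) _ (h34 (hσQ u hu))).1
    exact ((φ.continuousOn_symm.mono ht).comp hσcQ fun u hu => h34 (hσQ u hu)).const_smul _
  obtain ⟨T, hT, hTae⟩ := ae_levels hQc hcF hcj hr hrb hEF hEh
  have hne : Nonempty (Fin n) := ⟨⟨0, hn⟩⟩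
  have hnt : Nontrivial (E n) := inferInstance
  set N' : Set (E n) := {v | v ∈ closedBall (0 : E n) 3 ∧
    φ.symm v ∈ closure {x : X | InfOrbit g x} ∧ τ v ∉ P} with hN'
  have hN'ae : ∀ᵐ y : E n, y ∉ F '' N' :=
    measure_eq_zero_iff_ae_notMem.1 ((hP.image F).measure_zero _)
  refine ⟨F, hF0, hF1, hF2, hF3, ?_⟩
  intro y0 hy0
  rw [mem_closure_iff_nhds]
  intro U hU
  have hd := Measure.dense_of_ae (hTae.and hN'ae)
  obtain ⟨y, ⟨hyU, hyb⟩, hy1, hy2⟩ := mem_closure_iff_nhds.1 (hd y0) _
    (inter_mem hU (isOpen_ball.mem_nhds hy0))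
  refine ⟨y, hyU, hyb, ?_⟩
  by_cases hfy : g • φ.symm y = φ.symm y
  · exact Or.inl hfy
  refine Or.inr ?_
  have hyn : ‖y‖ < 1 := by simpa using hyb
  set Φ : Set (E n) := {v | v ∈ closedBall (0 : E n) 3 ∧ F v = y ∧
      φ.symm v ∈ closure {x : X | InfOrbit g x}} with hΦ
  have hΦn : ∀ v ∈ Φ, ‖v‖ < 5 / 4 := by
    rintro v ⟨h1, h2, -⟩
    have h3 := hF1 v (h34 h1)
    rw [h2, dist_eq_norm] at h3
    calc ‖v‖ = ‖y - (y - v)‖ := by congr 1; abel
      _ ≤ ‖y‖ + ‖y - v‖ := norm_sub_le _ _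
      _ < 5 / 4 := by linarith
  have hΦc : IsCompact Φ := by
    have h1 : Φ = (closedBall (0 : E n) 3 ∩ φ.symm ⁻¹' closure {x : X | InfOrbit g x}) ∩
        (closedBall (0 : E n) 3 ∩ F ⁻¹' {y}) := by
      ext v
      simp only [hΦ, mem_ofPred_eq, mem_inter_iff, mem_preimage, mem_singleton_iff]
      tauto
    rw [h1]
    refine IsCompact.of_isClosed_subset (isCompact_closedBall _ _) ?_
      (inter_subset_left.trans inter_subset_left)
    refine IsClosed.inter ?_ ?_
    · exact (φ.continuousOn_symm.mono (h34.trans ht)).preimage_isClosed_of_isClosed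
        isClosed_closedBall isClosed_closure
    · exact (hF0.mono h34).preimage_isClosed_of_isClosed isClosed_closedBall
        isClosed_singleton
  have hΦD : ∀ k ∈ D, ∀ v ∈ Φ, φ (k • φ.symm v) ∈ Φ := by
    intro k hk v hv
    have h0 := hΦn v hv
    have h1 := hTn k hk v (by linarith)
    refine ⟨hn3 _ (by linarith), ?_, ?_⟩
    · have hcl : IsClosed ((D : Set H) ∩ (fun k : H => F (φ (k • φ.symm v))) ⁻¹' {y}) := by
        refine ContinuousOn.preimage_isClosed_of_isClosed ?_ hDc isClosed_singleton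
        refine (hF0.mono h34).comp (hTc v (by linarith)) fun k hk => ?_
        have := hTn k hk v (by linarith)
        exact hn3 _ (by linarith)
      have hsub : (Subgroup.zpowers g : Set H) ⊆
          (D : Set H) ∩ (fun k : H => F (φ (k • φ.symm v))) ⁻¹' {y} := by
        rintro _ ⟨m, rfl⟩
        refine ⟨D.zpow_mem hgD m, ?_⟩
        show F (φ (g ^ m • φ.symm v)) = y
        rw [hFint m v (by linarith)]
        exact hv.2.1
      have hk' : k ∈ closure (Subgroup.zpowers g : Set H) := by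
        rw [← Subgroup.topologicalClosure_coe]
        exact hk
      exact (closure_minimal hsub hcl hk').2
    · rw [hTs k hk v (by linarith)]
      exact clI_closure hk hv.2.2
  have hΦfix : ∀ v ∈ Φ, g • φ.symm v ≠ φ.symm v := by
    intro v hv hgv
    have h1 := hF3 v hv.1 hgv
    rw [hv.2.1] at h1
    rw [← h1] at hgv
    exact hfy hgv
  -- the action on the fibre
  have hΦcs : CompactSpace Φ := isCompact_iff_compactSpace.1 hΦc
  have hDcs : CompactSpace D := isCompact_iff_compactSpace.1 hDc.isCompact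
  let _ : MulAction D Φ :=
    { smul := fun d v => ⟨φ ((d : H) • φ.symm (v : E n)), hΦD d d.2 v v.2⟩
      one_smul := by
        intro v
        apply Subtype.ext
        show φ (((1 : D) : H) • φ.symm (v : E n)) = v
        rw [Subgroup.coe_one, one_smul, φ.right_inv (ht (h34 v.2.1))]
      mul_smul := by
        intro d d' v
        apply Subtype.ext
        show φ (((d * d' : D) : H) • φ.symm (v : E n)) =
          φ ((d : H) • φ.symm (φ ((d' : H) • φ.symm (v : E n))))
        rw [hTs d' d'.2 v (by have := hΦn v v.2; linarith), smul_smul, Subgroup.coe_mul] }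
  have hact : ∀ (d : D) (v : Φ), ((d • v : Φ) : E n) = φ ((d : H) • φ.symm (v : E n)) :=
    fun _ _ => rfl
  have _ : ContinuousSMul D Φ := ⟨by
    refine Continuous.subtype_mk ?_ _
    refine φ.continuousOn.comp_continuous (f := fun q : D × Φ => (q.1 : H) • φ.symm (q.2 : E n))
      ?_ fun q => (hsm q.1 q.1.2 q.2 (h34 q.2.2.1)).1
    refine Continuous.smul (continuous_subtype_val.comp continuous_fst) ?_
    exact (φ.continuousOn_symm.mono (h34.trans ht)).comp_continuous
      (continuous_subtype_val.comp continuous_snd) fun q => q.2.2.1⟩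
  set k : D := ⟨g, hgD⟩ with hkdef
  have hk : Tendsto (fun j : ℕ => k ^ p ^ j) atTop (𝓝 1) := by
    rw [tendsto_subtype_rng]
    simpa using hg
  have hkcl : ∀ d : D, d ∈ closure (Subgroup.zpowers k : Set D) := by
    intro d
    rw [closure_subtype]
    have h1 : (d : H) ∈ closure (Subgroup.zpowers g : Set H) := by
      rw [← Subgroup.topologicalClosure_coe]
      exact d.2
    refine closure_mono ?_ h1
    rintro _ ⟨m, rfl⟩
    exact ⟨k ^ m, ⟨m, rfl⟩, by simp [hkdef]⟩
  have hkpow : ∀ j : ℕ, ((k ^ j : D) : H) = g ^ j := fun j => by simp [hkdef]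
  obtain ⟨Ψ0, hΨc, hΨ0, hΨe⟩ := exists_eig (Y := Φ) (D := D) hp hk hkcl
    (χ := fun (i : Fin n) (v : Φ) => τ (v : E n) i) (fun i => by
      have h1 : Continuous (fun v : Φ => τ (v : E n)) :=
        hτc.comp_continuous continuous_subtype_val fun v => v.2.1
      exact (by fun_prop : Continuous (fun z : E n => z i)).comp h1) (by
      intro v
      by_contra hall
      push Not at hall
      have h1 : τ (φ (g • φ.symm (v : E n))) = τ (v : E n) := PiLp.ext hall
      have h2 := congrArg σ h1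
      rw [hστ _ (hΦD g hgD v v.2).1, hστ _ v.2.1] at h2
      apply hΦfix v v.2
      have h3 := hTs g hgD (v : E n) (by have := hΦn v v.2; linarith)
      rw [← h3, h2]) hT (h := fun (c : ℕ × ℚ) (v : Φ) => hc c (v : E n)) (fun c =>
      (hB1 (ψ c)).comp_continuous continuous_subtype_val fun v => h34 v.2.1) (by
      intro c v
      show hc c ((k ^ p • v : Φ) : E n) = hc c v
      rw [hact, hkpow]
      exact hB2 (ψ c) v v.2.1) (by
      -- separation
      intro v
      have hv4 : (v : E n) ∈ closedBall (0 : E n) 4 := h34 v.2.1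
      have hvn : ‖(v : E n)‖ ≤ 4 := by have := hΦn v v.2; linarith
      set M : Set (E n) := (fun q : H => φ ((q * g) • φ.symm (v : E n))) ''
        ((Subgroup.zpowers (g ^ p)).topologicalClosure : Set H) with hM
      have hmem : ∀ q ∈ (Subgroup.zpowers (g ^ p)).topologicalClosure, q * g ∈ D := fun q hq =>
        D.mul_mem (hD'D hq) hgD
      have hMc : IsCompact M := by
        refine hcomp'.image_of_continuousOn ?_
        refine φ.continuousOn.comp ?_ fun q hq => (hsm _ (hmem q hq) v hv4).1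
        have hc : Continuous (fun q : H => (q * g) • φ.symm (v : E n)) := by fun_prop
        exact hc.continuousOn
      have hvM : (v : E n) ∉ M := by
        rintro ⟨q, hq, hqv⟩
        apply hΦfix v v.2
        have h1 := congrArg φ.symm hqv
        simp only at h1
        rw [φ.left_inv (hsm _ (hmem q hq) v hv4).1] at h1
        have h2 : Commute q g := comm_closure (hD'D hq) hgD
        refine stab_gen hp hg (i := 1) one_pos hp.one_lt hq ?_
        rw [pow_one, ← h2.eq]
        exact h1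
      obtain ⟨ρ, hρ, hρM⟩ := Metric.isOpen_iff.1 hMc.isClosed.isOpen_compl v hvM
      obtain ⟨c0, hc0, a, rfl⟩ := (denseRange_denseSeq (E n)).inter_open_nonempty
        (ball (v : E n) (ρ / 4)) isOpen_ball ⟨v, mem_ball_self (by positivity)⟩
      rw [mem_ball, dist_comm] at hc0
      obtain ⟨t, ht1, ht2⟩ := exists_rat_btwn (show ρ / 4 < ρ / 2 by linarith)
      have ht0 : (0 : ℝ) < t := by linarith
      refine ⟨(a, t), ?_⟩
      have hpos : 0 < hc (a, t) (v : E n) := by
        have h1 := hB3 (ψ (a, t)) (t : ℝ) (t : ℝ) v hv4 (by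
          intro q _
          show dist (rtent (denseSeq (E n) a) (t : ℝ) (φ (q • φ.symm (v : E n)))) (t : ℝ) ≤ t
          rw [rtent_apply, Real.dist_eq, abs_le]
          have e1 : (0 : ℝ) ≤ dist (φ (q • φ.symm (v : E n))) (denseSeq (E n) a) := dist_nonneg
          constructor
          · have := le_max_left 0 ((t : ℝ) - dist (φ (q • φ.symm (v : E n))) (denseSeq (E n) a))
            linarith
          · have : max 0 ((t : ℝ) - dist (φ (q • φ.symm (v : E n))) (denseSeq (E n) a)) ≤ t :=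
              max_le ht0.le (by linarith)
            linarith) (by
          show dist (rtent (denseSeq (E n) a) (t : ℝ) (v : E n)) (t : ℝ) < t
          rw [rtent_apply, Real.dist_eq, abs_lt]
          have e1 : (0 : ℝ) ≤ dist (v : E n) (denseSeq (E n) a) := dist_nonneg
          have e2 : 0 < (t : ℝ) - dist (v : E n) (denseSeq (E n) a) := by linarith
          rw [max_eq_right e2.le]
          constructor <;> linarith)
        rw [Real.dist_eq, abs_lt] at h1
        show 0 < A' (ψ (a, t)) (v : E n)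
        linarith [h1.1]
      have hzero : hc (a, t) ((k • v : Φ) : E n) = 0 := by
        rw [hact]
        have hv'n := hTn g hgD (v : E n) (by have := hΦn v v.2; linarith)
        refine hB4 (ψ (a, t)) 0 _ (hn4 _ (by have := hΦn v v.2; linarith)) fun q hq => ?_
        show rtent (denseSeq (E n) a) (t : ℝ)
          (φ (q • φ.symm (φ ((k : H) • φ.symm (v : E n))))) = 0
        rw [hTs g hgD (v : E n) hvn, smul_smul, rtent_apply]
        have hw : φ ((q * g) • φ.symm (v : E n)) ∈ M := ⟨q, hq, rfl⟩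
        have h1 : ρ ≤ dist (φ ((q * g) • φ.symm (v : E n))) (v : E n) := by
          by_contra hcon
          push Not at hcon
          exact hρM (mem_ball.2 hcon) hw
        have h2 := dist_triangle_right (φ ((q * g) • φ.symm (v : E n))) (v : E n)
          (denseSeq (E n) a)
        rw [max_eq_left (by linarith)]
      show hc (a, t) ((k • v : Φ) : E n) ≠ hc (a, t) (v : E n)
      rw [hzero]
      exact hpos.ne) (by
      -- the levels
      intro c i t ht j
      refine (hy1 (c, j) i t ht).mono ?_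
      intro s hs v hvt
      have hvP : τ (v : E n) ∈ P := by
        by_contra hno
        exact hy2 ⟨v, ⟨v.2.1, v.2.2.2, hno⟩, v.2.2.1⟩
      have h1 := hs (τ (v : E n)) ⟨mem_image_of_mem _ v.2.1, hvP⟩ hvt (by
        rw [hστ _ v.2.1]
        exact v.2.2.1)
      show hc c ((k ^ j • v : Φ) : E n) ≠ s
      rw [hact, hkpow]
      rw [hστ _ v.2.1] at h1
      exact h1)
  refine ⟨fun v => if hv : v ∈ Φ then Ψ0 ⟨v, hv⟩ else 0, ?_, ?_⟩
  · rw [continuousOn_iff_continuous_domRestrict]
    refine hΨc.congr fun v => ?_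
    show Ψ0 v = if hv : (v : E n) ∈ Φ then Ψ0 ⟨v, hv⟩ else 0
    rw [dif_pos v.2]
  · intro v hv
    simp only [dif_pos hv, dif_pos (hΦD g hgD v hv)]
    exact ⟨hΨ0 _, hΨe ⟨v, hv⟩⟩

end

end Pool.Agent.L0h31.HS
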