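import Pool.Agent.L0h31.HS.B5
import Pool.Agent.N512.CC.Circ2
import Pool.Agent.N512.CC.Deg
import Pool.Agent.N512.CC.Miss
import Pool.Agent.N512.CC.Cone
import Pool.Agent.N512.CC.Comb

/-!
# Cosets with small energies on a closed set

Adaptation of `Pool/Agent/N512/HS/A6.lean`.
-/

set_option autoImplicit false
set_option linter.unusedSectionVars false

open MeasureTheory Set Metric Filter Topology TopologicalSpace
open scoped ENNReal NNReal

namespace Pool.Agent.L0h31.HS

open Pool.Agent.Y485.HS Pool.Agent.Y489.SP Pool.Agent.Y475.HS Pool.Agent.R775.HS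
  Pool.Agent.R775.HC Pool.Agent.N512.HS Pool.Agent.N512.CC

theorem circ : S_CIRC := Pool.Agent.N512.CC.Circ.t_CIRC t_DEG Miss.t_MISS Cone.t_CONE
  Cone.t_GEN t_COMB

section
variable {n : ℕ} {X : Type} [TopologicalSpace X]

/-- a coset with small energies on a closed set which contains all but countably many points of the
closure of the set of the points of infinite orbit -/
theorem coset3 (hn : 1 ≤ n) [T2Space X] {S : Type} [Group S] [TopologicalSpace S]
    [IsTopologicalGroup S] [CompactSpace S] [T2Space S] [TotallyDisconnectedSpace S]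
    [MulAction S X] [ContinuousSMul S X] {φ : OpenPartialHomeomorph X (E n)} {g s1 : S}
    {B P : Set (E n)} (hBo : IsOpen B) (hBt : B ⊆ φ.target) (hPc : IsClosed P)
    (hP : {v | v ∈ B ∧ φ.symm v ∈ closure {x : X | InfOrbit g x} ∧ v ∉ P}.Countable)
    (hs1 : ∀ v ∈ B, s1 • φ.symm v ∈ φ.source) {r b : ℕ → ℝ} (hr : ∀ j, 0 < r j)
    (hrb : Tendsto (fun j => r j * b j) atTop (𝓝 0)) {m : ℕ} {K : Subgroup S}
    (hKc : IsClosed (K : Set S)) (hKg : ∀ k ∈ K, k ∈ (Subgroup.zpowers g).topologicalClosure)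
    (hK : ∀ k ∈ K, ∀ j, m ≤ j →
      En (n + 1) (B ∩ P) (r j) (b j) (fun v => φ ((s1 * k) • φ.symm v))) {v1 : E n}
    (hv1 : v1 ∈ B) :
    ∃ K1 : Subgroup K, IsOpen (K1 : Set K) ∧
      ∀ᶠ x in 𝓝 (φ.symm v1), ∀ k ∈ K1, k • x = x := by
  have : CompactSpace K := isCompact_iff_compactSpace.1 hKc.isCompact
  let A : Set (OpenPartialHomeomorph X (E n)) := {φ' | φ'.source ⊆ φ.source ∩ φ ⁻¹' B ∧
    ∃ L : ℝ, 0 ≤ L ∧ ∀ a ∈ φ'.source, ∀ a' ∈ φ'.source,
      dist (φ' a) (φ' a') ≤ L * dist (φ (s1 • a)) (φ (s1 • a'))}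
  have hA : Stable n A := by
    rintro φ' ⟨h1, L, hL0, hL⟩ e ⟨L', hL'⟩
    have hsub : (φ'.trans e).source ⊆ φ'.source := by
      rw [OpenPartialHomeomorph.trans_source]
      exact inter_subset_left
    refine ⟨hsub.trans h1, |L'| * L, by positivity, fun a ha a' ha' => ?_⟩
    have ha2 := ha
    have ha2' := ha'
    rw [OpenPartialHomeomorph.trans_source] at ha2 ha2'
    have e1 := (hL' (φ' a) ha2.2 (φ' a') ha2'.2).1
    have e2 := hL a (hsub ha) a' (hsub ha')
    calc dist ((φ'.trans e) a) ((φ'.trans e) a') ≤ L' * dist (φ' a) (φ' a') := e1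
      _ ≤ |L'| * dist (φ' a) (φ' a') := mul_le_mul_of_nonneg_right (le_abs_self _) dist_nonneg
      _ ≤ |L'| * (L * dist (φ (s1 • a)) (φ (s1 • a'))) := by gcongr
      _ = _ := by ring
  have hO : IsOpen (φ.source ∩ φ ⁻¹' B) := φ.isOpen_inter_preimage hBo
  have hx1 : φ.symm v1 ∈ RegA A := by
    refine ⟨((Homeomorph.smul s1).toOpenPartialHomeomorph.trans φ).restrOpen _ hO, ⟨?_, 1,
      zero_le_one, ?_⟩, ?_⟩
    · rw [OpenPartialHomeomorph.restrOpen_source]
      exact inter_subset_right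
    · intro a _ a' _
      rw [one_mul]
      exact le_of_eq rfl
    · rw [OpenPartialHomeomorph.restrOpen_source, OpenPartialHomeomorph.trans_source]
      refine ⟨⟨mem_univ _, ?_⟩, φ.map_target (hBt hv1), ?_⟩
      · show s1 • φ.symm v1 ∈ φ.source
        exact hs1 v1 hv1
      · show φ (φ.symm v1) ∈ B
        rw [φ.right_inv (hBt hv1)]
        exact hv1
  have hcrit : ∀ k : K, CritK A k := by
    intro k p' hp' hkp hcomp φ' hφ' hsm
    obtain ⟨hφs, L, hL0, hL⟩ := hφ'
    refine triv_of_good circ hn hp' hkp hcomp hsm ?_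
    have h34 : closedBall (0 : E n) 3 ⊆ closedBall 0 4 :=
      closedBall_subset_closedBall (by norm_num)
    have ht3 : closedBall (0 : E n) 3 ⊆ φ'.target := h34.trans hsm.1
    have hτs : ∀ v ∈ closedBall (0 : E n) 3, φ'.symm v ∈ φ'.source := fun v hv =>
      φ'.map_target (ht3 hv)
    have hτφ : ∀ v ∈ closedBall (0 : E n) 3, φ.symm (φ (φ'.symm v)) = φ'.symm v := fun v hv =>
      φ.left_inv (hφs (hτs v hv)).1
    -- the coordinates
    obtain ⟨τ, hτ⟩ : ∃ τ : E n → E n, τ = fun v => φ (φ'.symm v) := ⟨_, rfl⟩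
    obtain ⟨σ, hσ⟩ : ∃ σ : E n → E n, σ = fun u => φ' (φ.symm u) := ⟨_, rfl⟩
    have hτa : ∀ v, τ v = φ (φ'.symm v) := fun v => by rw [hτ]
    have hσa : ∀ v, σ v = φ' (φ.symm v) := fun v => by rw [hσ]
    have hτc : ContinuousOn τ (closedBall 0 3) := by
      rw [hτ]
      exact φ.continuousOn.comp (φ'.continuousOn_symm.mono ht3) fun v hv => (hφs (hτs v hv)).1
    have hστ : ∀ v ∈ closedBall (0 : E n) 3, σ (τ v) = v := by
      intro v hv
      rw [hσa, hτa, hτφ v hv, φ'.right_inv (ht3 hv)]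
    have hσc : ContinuousOn σ (τ '' closedBall 0 3) := by
      rw [hσ]
      refine φ'.continuousOn.comp (φ.continuousOn_symm.mono ?_) ?_
      · rintro _ ⟨v, hv, rfl⟩
        rw [hτa]
        exact φ.map_source (hφs (hτs v hv)).1
      · rintro _ ⟨v, hv, rfl⟩
        show φ.symm (τ v) ∈ φ'.source
        rw [hτa, hτφ v hv]
        exact hτs v hv
    have hval : ∀ u ∈ τ '' closedBall 0 3 ∩ P, u ∈ B ∩ P ∧ φ'.symm (σ u) = φ.symm u ∧
        ∀ q : K, q ∈ (Subgroup.zpowers k).topologicalClosure →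
          (q : S) • φ.symm u ∈ φ'.source := by
      rintro _ ⟨⟨v, hv, rfl⟩, hvP⟩
      have e1 := hτφ v hv
      rw [hτa] at hvP ⊢
      refine ⟨⟨(hφs (hτs v hv)).2, hvP⟩, ?_, fun q hq => ?_⟩
      · rw [hσa, e1, φ'.left_inv (hτs v hv)]
      · rw [e1]
        exact (hsm.2 q hq v (h34 hv)).1
    have hrb' : Tendsto (fun j => r (j + m) * (L ^ (n + 1) * b (j + m))) atTop (𝓝 0) := by
      have h1 := (tendsto_add_atTop_iff_nat m).2 hrb
      have h2 := h1.const_mul (L ^ (n + 1))
      rw [mul_zero] at h2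
      refine h2.congr fun j => ?_
      ring
    refine good_of_en (H := K) hn hp' hkp hsm hτc hσc hστ hPc ?_
      (r := fun j => r (j + m)) (b := fun j => L ^ (n + 1) * b (j + m))
      (fun j => hr (j + m)) hrb' ?_
    · -- countability
      have hinj : InjOn τ (closedBall (0 : E n) 3) := fun a ha a' ha' h => by
        rw [← hστ a ha, h, hστ a' ha']
      refine countable_of_injective_of_countable_image (f := τ) (fun a ha a' ha' h =>
        hinj ha.1 ha'.1 h) (hP.mono ?_)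
      rintro _ ⟨v, ⟨hv, hvZ, hvP⟩, rfl⟩
      refine ⟨?_, ?_, hvP⟩
      · rw [hτa]
        exact (hφs (hτs v hv)).2
      · rw [hτa, hτφ v hv]
        refine closure_mono ?_ hvZ
        intro x hx
        have hx' : InfOrbit (k : S) x := hx
        exact inf_of_mem (hKg _ k.2) hx'
    · intro q hq j
      refine en_lip hL0 (f := fun v => φ ((s1 * (q : S)) • φ.symm v)) ?_
        (en_mono (fun u hu => (hval u hu).1) le_rfl (hK (q : S) q.2 (j + m) (by omega)))
      intro u hu w hw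
      obtain ⟨-, hu2, hu3⟩ := hval u hu
      obtain ⟨-, hw2, hw3⟩ := hval w hw
      show dist (φ' (q • φ'.symm (σ u))) (φ' (q • φ'.symm (σ w))) ≤ _
      rw [hu2, hw2, mul_smul, mul_smul]
      exact hL _ (hu3 q hq) _ (hw3 q hq)
  exact locTriv3 hA (H := K) hcrit hx1

end

end Pool.Agent.L0h31.HS
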