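import Pool.Agent.L0h31.HS.B6

/-!
# One element: small energies near a point

Adaptation of `Pool/Agent/N512/HS/A7.lean`.
-/

set_option autoImplicit false
set_option linter.unusedSectionVars false

open MeasureTheory Set Metric Filter Topology TopologicalSpace
open scoped ENNReal NNReal

namespace Pool.Agent.L0h31.HS

open Pool.Agent.Y485.HS Pool.Agent.Y489.SP Pool.Agent.Y475.HS Pool.Agent.R775.HS
  Pool.Agent.R775.HC Pool.Agent.N512.HS Pool.Agent.N512.CC

theorem en_hol {n : ℕ} (hn : 1 ≤ n) {Q : Set (E n)} {f : E n → E n} {z : E n}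
    (hQ : Q ⊆ closedBall z 1) {α C : ℝ} (hα : ((n : ℝ) - 1) / (n + 1) < α) (hC : 0 ≤ C)
    (hH : ∀ x ∈ Q, ∀ a ∈ Q, dist (f x) (f a) ≤ C * dist x a ^ α) :
    ∃ m : ℕ, ∀ j, m ≤ j → En (n + 1) Q ((1 / 2) ^ j) (2 ^ j / (j + 1)) f := by
  have hn0 : (0 : ℝ) < n := by exact_mod_cast (by omega : 0 < n)
  have hn1 : (1 : ℝ) ≤ n := by exact_mod_cast hn
  have hα0 : 0 < α := lt_of_le_of_lt (div_nonneg (by linarith) (by linarith)) hα
  have hδ : 0 < (n + 1) * α - (n - 1) := by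
    rw [div_lt_iff₀ (by linarith)] at hα
    linarith
  obtain ⟨m, hm⟩ := seq_bound (3 ^ n * (2 * C) ^ (n + 1)) ((n + 1) * α - (n - 1)) hδ
  refine ⟨m, fun j hj => ?_⟩
  set r : ℝ := (1 / 2) ^ j with hr
  have hr0 : 0 < r := by positivity
  have hr1 : r ≤ 1 := pow_le_one₀ (by norm_num) (by norm_num)
  intro A x y h1 h2
  have hcard : (A.card : ℝ) ≤ 3 ^ n / r ^ n := by
    have h3 := Pool.Agent.Y662.SP.SOB.pack z hr0 (R := 1) one_pos.le A (fun a ha => by
      have := hQ (h1 a ha).1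
      rwa [mem_closedBall] at this) h2
    refine h3.trans ?_
    rw [← div_pow]
    refine pow_le_pow_left₀ (by positivity) ?_ n
    rw [le_div_iff₀ hr0, add_mul, div_mul_cancel₀ _ hr0.ne']
    linarith
  have hterm : ∀ a ∈ A, dist (f (x a)) (f (y a)) ^ (n + 1) ≤
      (2 * C) ^ (n + 1) * (r ^ α) ^ (n + 1) := by
    intro a ha
    obtain ⟨k1, k2, k3, k4, k5⟩ := h1 a ha
    rw [← mul_pow]
    refine pow_le_pow_left₀ dist_nonneg ?_ (n + 1)
    have e1 := hH _ k2 _ k1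
    have e2 := hH _ k3 _ k1
    have e3 : dist (x a) a ^ α ≤ r ^ α := Real.rpow_le_rpow dist_nonneg k4 hα0.le
    have e4 : dist (y a) a ^ α ≤ r ^ α := Real.rpow_le_rpow dist_nonneg k5 hα0.le
    calc dist (f (x a)) (f (y a)) ≤ dist (f (x a)) (f a) + dist (f (y a)) (f a) :=
          dist_triangle_right _ _ _
      _ ≤ C * dist (x a) a ^ α + C * dist (y a) a ^ α := add_le_add e1 e2
      _ ≤ C * r ^ α + C * r ^ α := by gcongr
      _ = 2 * C * r ^ α := by ring
  calc ∑ a ∈ A, dist (f (x a)) (f (y a)) ^ (n + 1)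
      ≤ ∑ a ∈ A, (2 * C) ^ (n + 1) * (r ^ α) ^ (n + 1) := Finset.sum_le_sum hterm
    _ = A.card * ((2 * C) ^ (n + 1) * (r ^ α) ^ (n + 1)) := by
        rw [Finset.sum_const, nsmul_eq_mul]
    _ ≤ 3 ^ n / r ^ n * ((2 * C) ^ (n + 1) * (r ^ α) ^ (n + 1)) := by gcongr
    _ = 3 ^ n * (2 * C) ^ (n + 1) * r ^ (((n + 1) * α - (n - 1)) - 1) := by
        have e1 : (r ^ α) ^ (n + 1) = r ^ ((n + 1) * α) := by
          rw [← Real.rpow_natCast, ← Real.rpow_mul hr0.le, mul_comm]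
          push_cast
          rfl
        have e2 : r ^ n = r ^ (n : ℝ) := (Real.rpow_natCast r n).symm
        have e3 : r ^ (((n + 1) * α - (n - 1)) - 1) = r ^ ((n + 1) * α) / r ^ (n : ℝ) := by
          rw [← Real.rpow_sub hr0]
          congr 1
          ring
        rw [e1, e2, e3]
        ring
    _ ≤ 2 ^ j / (j + 1) := hm j hj

/-- small energies in the charts near the point -/
def EnAt (n : ℕ) {X : Type} [MetricSpace X] {S : Type} [Monoid S] [MulAction S X] (s : S)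
    (x : X) : Prop :=
  ∀ φ ∈ BL n X, x ∈ φ.source → s • x ∈ φ.source → ∃ ρ : ℝ, 0 < ρ ∧ ∃ m N : ℕ, ∀ j, m ≤ j →
    En (n + 1) (closedBall (φ x) ρ) ((1 / 2) ^ j) (N * (2 ^ j / (j + 1)))
      (fun v => φ (s • φ.symm v))

/-- pointwise Hölder condition along the infinite orbits -/
def HolAt (n : ℕ) {X : Type} [MetricSpace X] {S : Type} [Monoid S] [MulAction S X] (s : S)
    (x : X) : Prop :=
  ∃ α C δ : ℝ, ((n : ℝ) - 1) / (n + 1) < α ∧ 0 < δ ∧
    ∀ y, InfOrbit s y → dist y x < δ → dist (s • y) (s • x) ≤ C * dist y x ^ α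

/-- regularity at the points of infinite orbit off countably many closed totally disconnected
sets -/
def RegI (n : ℕ) (X : Type) [MetricSpace X] [MeasurableSpace X] [BorelSpace X] {S : Type}
    [Group S] [MulAction S X] (s : S) : Prop :=
  ∃ T : ℕ → Set X, (∀ i, IsClosed (T i)) ∧ (∀ i, IsTotallyDisconnected (T i)) ∧
    ∀ x ∈ RegA (BL n X), InfOrbit s x → (∀ i, x ∉ T i) →
      EnAt n s x ∨ HolAt n s x

section
variable {n : ℕ} {X : Type} [MetricSpace X]

/-- a pointwise Hölder condition in a chart -/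
theorem hol_chart {S : Type} [Group S] [MulAction S X] {φ : OpenPartialHomeomorph X (E n)}
    {L : ℝ} (hL : ∀ a ∈ φ.source, ∀ b ∈ φ.source,
      dist (φ a) (φ b) ≤ L * dist a b ∧ dist a b ≤ L * dist (φ a) (φ b))
    {γ : S} {U : Set (E n)} (hUt : U ⊆ φ.target) (hγ : ∀ v ∈ U, γ • φ.symm v ∈ φ.source)
    {v : E n} (hv : v ∈ U) (hn : 1 ≤ n) (hH : HolAt n γ (φ.symm v)) :
    ∃ j : ℕ, ∀ w ∈ U, InfOrbit γ (φ.symm w) → dist w v < 1 / ((j : ℝ) + 1) →
      dist (φ (γ • φ.symm w)) (φ (γ • φ.symm v)) ≤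
        (j + 1) * dist w v ^ (((n : ℝ) - 1) / (n + 1) + 1 / ((j : ℝ) + 1)) := by
  obtain ⟨α, C, δ, hα, hδ, h⟩ := hH
  have hn0 : (0 : ℝ) < n := by exact_mod_cast (by omega : 0 < n)
  have hn1 : (1 : ℝ) ≤ n := by exact_mod_cast hn
  have hβ : 0 ≤ ((n : ℝ) - 1) / (n + 1) := div_nonneg (by linarith) (by linarith)
  have hα0 : 0 < α := lt_of_le_of_lt hβ hα
  set L' : ℝ := max L 1 with hL'
  have hL1 : 1 ≤ L' := le_max_right _ _
  have hL0 : 0 < L' := by linarith
  have hLL : ∀ t : ℝ, 0 ≤ t → L * t ≤ L' * t := fun t ht =>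
    mul_le_mul_of_nonneg_right (le_max_left _ _) ht
  obtain ⟨j, hj⟩ := exists_nat_gt (max (L' / δ) (max (1 / (α - ((n : ℝ) - 1) / (n + 1)))
    (L' * |C| * L' ^ α)))
  have hj0 : (0 : ℝ) < (j : ℝ) + 1 := by positivity
  have hj1 : L' / δ < j := lt_of_le_of_lt (le_max_left _ _) hj
  have hj2 : 1 / (α - ((n : ℝ) - 1) / (n + 1)) < j :=
    lt_of_le_of_lt ((le_max_left _ _).trans (le_max_right _ _)) hj
  have hj3 : L' * |C| * L' ^ α < j :=
    lt_of_le_of_lt ((le_max_right _ _).trans (le_max_right _ _)) hj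
  refine ⟨j, fun w hw hwI hwv => ?_⟩
  have hvs : φ.symm v ∈ φ.source := φ.map_target (hUt hv)
  have hws : φ.symm w ∈ φ.source := φ.map_target (hUt hw)
  have h1 : dist (φ.symm w) (φ.symm v) ≤ L' * dist w v := by
    have h2 := (hL _ hws _ hvs).2
    rw [φ.right_inv (hUt hw), φ.right_inv (hUt hv)] at h2
    exact h2.trans (hLL _ dist_nonneg)
  have h2 : dist (φ.symm w) (φ.symm v) < δ := by
    rw [lt_div_iff₀ hj0] at hwv
    rw [div_lt_iff₀ hδ] at hj1
    have h3 : L' * (dist w v * (j + 1)) ≤ L' := by nlinarith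
    have h4 : L' * dist w v * (j + 1) < δ * (j + 1) := by nlinarith
    have h5 : L' * dist w v < δ := lt_of_mul_lt_mul_right h4 hj0.le
    linarith
  have h3 := h _ hwI h2
  have hd1 : dist w v ≤ 1 := by
    refine hwv.le.trans ?_
    rw [div_le_one hj0]
    have : (0 : ℝ) ≤ j := Nat.cast_nonneg j
    linarith
  have hexp : ((n : ℝ) - 1) / (n + 1) + 1 / ((j : ℝ) + 1) ≤ α := by
    have h4 : 0 < α - ((n : ℝ) - 1) / (n + 1) := by linarith
    rw [div_lt_iff₀ h4] at hj2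
    have h5 : 1 / ((j : ℝ) + 1) ≤ α - ((n : ℝ) - 1) / (n + 1) := by
      rw [div_le_iff₀ hj0]
      nlinarith
    linarith
  calc dist (φ (γ • φ.symm w)) (φ (γ • φ.symm v))
      ≤ L' * dist (γ • φ.symm w) (γ • φ.symm v) :=
        ((hL _ (hγ w hw) _ (hγ v hv)).1).trans (hLL _ dist_nonneg)
    _ ≤ L' * (C * dist (φ.symm w) (φ.symm v) ^ α) := by gcongr
    _ ≤ L' * (|C| * (L' * dist w v) ^ α) := by
        gcongr
        exact le_abs_self _
    _ = L' * |C| * L' ^ α * dist w v ^ α := by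
        rw [Real.mul_rpow hL0.le dist_nonneg]
        ring
    _ ≤ (j + 1) * dist w v ^ (((n : ℝ) - 1) / (n + 1) + 1 / ((j : ℝ) + 1)) := by
        have h5 : dist w v ^ α ≤ dist w v ^ (((n : ℝ) - 1) / (n + 1) + 1 / ((j : ℝ) + 1)) :=
          Real.rpow_le_rpow_of_exponent_ge' dist_nonneg hd1 (by positivity) hexp
        have h6 : 0 ≤ dist w v ^ α := Real.rpow_nonneg dist_nonneg _
        have h7 : L' * |C| * L' ^ α ≤ j + 1 := by linarith
        exact mul_le_mul h7 h5 h6 hj0.le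

end

section
variable {n : ℕ} {X : Type} [MetricSpace X] [MeasurableSpace X] [BorelSpace X]

/-- one element: small energies near a point -/
theorem one_ener (hn : 2 ≤ n) {S : Type} [Group S] [TopologicalSpace S] [IsTopologicalGroup S]
    [CompactSpace S] [T2Space S] [TotallyDisconnectedSpace S] [MulAction S X]
    [ContinuousSMul S X] {p : ℕ} (hp : p.Prime) {g : S}
    (hg : Tendsto (fun j : ℕ => g ^ p ^ j) atTop (𝓝 1)) {φ : OpenPartialHomeomorph X (E n)}
    (hφ : φ ∈ BL n X) {γ : S} (hreg : RegI n X γ) (ht4 : closedBall (0 : E n) 4 ⊆ φ.target)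
    (hγs : ∀ v ∈ closedBall (0 : E n) 4, γ • φ.symm v ∈ φ.source)
    (hγI : ∀ x : X, InfOrbit γ x ↔ InfOrbit g x) {P : Set (E n)} (hPc : IsClosed P)
    (hPZ : ∀ v ∈ ball (0 : E n) 1 ∩ P, φ.symm v ∈ closure {x : X | InfOrbit g x})
    (hP : ∀ C ⊆ ball (0 : E n) 1, IsPreconnected C →
      (∀ v ∈ C, φ.symm v ∈ closure {x : X | InfOrbit g x}) → ¬ C.Subsingleton → C ⊆ P)
    (hPn : (ball (0 : E n) 1 ∩ P).Nonempty) :
    ∃ B ∈ countableBasis (E n), B ⊆ ball 0 1 ∧ (B ∩ P).Nonempty ∧ ∃ m N : ℕ, ∀ j, m ≤ j →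
      En (n + 1) (B ∩ P) ((1 / 2) ^ j) (N * (2 ^ j / (j + 1)))
        (fun v => φ (γ • φ.symm v)) := by
  classical
  have hn1 : 1 ≤ n := by omega
  have hb4 : ball (0 : E n) 1 ⊆ closedBall 0 4 :=
    ball_subset_closedBall.trans (closedBall_subset_closedBall (by norm_num))
  have hbt : ball (0 : E n) 1 ⊆ φ.target := hb4.trans ht4
  have hinj : ∀ a ∈ ball (0 : E n) 1, ∀ b ∈ ball (0 : E n) 1, φ.symm a = φ.symm b → a = b := by
    intro a ha b hb hab
    rw [← φ.right_inv (hbt ha), hab, φ.right_inv (hbt hb)]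
  obtain ⟨T, hTc, hTd, hT⟩ := hreg
  have hfc : ContinuousOn (fun v => φ (γ • φ.symm v)) (closedBall 0 4) :=
    φ.continuousOn.comp ((φ.continuousOn_symm.mono ht4).const_smul γ) hγs
  by_cases hSob : ∃ v ∈ ball (0 : E n) 1 ∩ P, EnAt n γ (φ.symm v)
  · obtain ⟨v, ⟨hv1, hvP⟩, hS⟩ := hSob
    have hvt := hbt hv1
    obtain ⟨ρ, hρ, m, N, hm⟩ := hS φ hφ (φ.map_target hvt) (hγs v (hb4 hv1))
    rw [φ.right_inv hvt] at hm
    obtain ⟨B, hB, hvB, hBs⟩ := (isBasis_countableBasis (E n)).mem_nhds_iff.1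
      (inter_mem (isOpen_ball.mem_nhds hv1) (ball_mem_nhds v hρ))
    refine ⟨B, hB, hBs.trans inter_subset_left, ⟨v, hvB, hvP⟩, m, N, fun j hj => ?_⟩
    refine en_mono ?_ le_rfl (hm j hj)
    exact inter_subset_left.trans ((hBs.trans inter_subset_right).trans ball_subset_closedBall)
  push Not at hSob
  obtain ⟨v0, hv01, hv0P⟩ := hPn
  obtain ⟨ρ0, hρ0, hρ0s⟩ := (nhds_basis_closedBall.mem_iff).1 (isOpen_ball.mem_nhds hv01)
  set Q : Set (E n) := closure (ball v0 ρ0 ∩ P) with hQ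
  have hQb : Q ⊆ closedBall v0 ρ0 ∩ P :=
    closure_minimal (inter_subset_inter_left _ ball_subset_closedBall)
      (isClosed_closedBall.inter hPc)
  have hQ1 : ∀ v ∈ Q, v ∈ ball (0 : E n) 1 ∩ P := fun v hv => ⟨hρ0s (hQb hv).1, (hQb hv).2⟩
  have hQcl : IsClosed Q := isClosed_closure
  have hQcs : CompleteSpace Q := hQcl.completeSpace_coe
  have hQne : Nonempty Q := ⟨⟨v0, subset_closure ⟨mem_ball_self hρ0, hv0P⟩⟩⟩
  have hsc : Continuous (fun v : Q => φ.symm (v : E n)) :=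
    φ.continuousOn_symm.comp_continuous continuous_subtype_val fun v => hbt (hQ1 v v.2).1
  have hn0 : (0 : ℝ) < n := by exact_mod_cast (by omega : 0 < n)
  have hn1' : (1 : ℝ) ≤ n := by exact_mod_cast hn1
  have hβ : 0 ≤ ((n : ℝ) - 1) / (n + 1) := div_nonneg (by linarith) (by linarith)
  -- the pieces
  let f : ℕ ⊕ ℕ ⊕ ℕ → Set Q := fun q => match q with
    | Sum.inl M => {v | g ^ (M + 1) • φ.symm (v : E n) = φ.symm v}
    | Sum.inr (Sum.inl i) => {v | φ.symm (v : E n) ∈ T i}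
    | Sum.inr (Sum.inr j) => {v | ∀ w ∈ ball (0 : E n) 1, InfOrbit γ (φ.symm w) →
        dist w v < 1 / ((j : ℝ) + 1) → dist (φ (γ • φ.symm w)) (φ (γ • φ.symm (v : E n))) ≤
          (j + 1) * dist w v ^ (((n : ℝ) - 1) / (n + 1) + 1 / ((j : ℝ) + 1))}
  have hfcl : ∀ q, IsClosed (f q) := by
    rintro (M | i | j)
    · exact isClosed_eq (hsc.const_smul _) hsc
    · exact (hTc i).preimage hsc
    · have h1 : f (Sum.inr (Sum.inr j)) = ⋂ (w : E n) (_ : w ∈ ball (0 : E n) 1)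
          (_ : InfOrbit γ (φ.symm w)), {v : Q | dist w v < 1 / ((j : ℝ) + 1) →
            dist (φ (γ • φ.symm w)) (φ (γ • φ.symm (v : E n))) ≤
            (j + 1) * dist w v ^ (((n : ℝ) - 1) / (n + 1) + 1 / ((j : ℝ) + 1))} := by
        ext v
        simp only [f, mem_ofPred_eq, mem_iInter]
      rw [h1]
      refine isClosed_iInter fun w => isClosed_iInter fun _ => isClosed_iInter fun _ => ?_
      have hd : Continuous (fun v : Q => dist w (v : E n)) := by fun_prop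
      refine isClosed_imp ?_ ?_
      · exact isOpen_lt hd continuous_const
      · refine isClosed_le ?_ ?_
        · refine continuous_const.dist ?_
          exact hfc.comp_continuous continuous_subtype_val fun v => hb4 (hQ1 v v.2).1
        · exact continuous_const.mul (hd.rpow_const fun _ => Or.inr (by positivity))
  have hfU : ⋃ q, f q = univ := by
    ext v
    simp only [mem_iUnion, mem_univ, iff_true]
    have hv1 := hQ1 v v.2
    by_cases hI : InfOrbit g (φ.symm (v : E n))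
    swap
    · simp only [InfOrbit, not_forall, not_not] at hI
      obtain ⟨M, hM, h⟩ := hI
      refine ⟨Sum.inl (M - 1), ?_⟩
      show g ^ (M - 1 + 1) • φ.symm (v : E n) = φ.symm v
      rw [Nat.sub_add_cancel hM]
      exact h
    by_cases hTi : ∃ i, φ.symm (v : E n) ∈ T i
    · obtain ⟨i, hi⟩ := hTi
      exact ⟨Sum.inr (Sum.inl i), hi⟩
    push Not at hTi
    rcases hT _ ⟨φ, hφ, φ.map_target (hbt hv1.1)⟩ ((hγI _).2 hI) hTi with h | h
    · exact absurd h (hSob v hv1)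
    · obtain ⟨L, hL⟩ := hφ
      obtain ⟨j, hj⟩ := hol_chart hL hbt (fun u hu => hγs u (hb4 hu)) hv1.1 hn1 h
      exact ⟨Sum.inr (Sum.inr j), hj⟩
  obtain ⟨q, v, hv⟩ := nonempty_interior_of_iUnion_of_closed hfcl hfU
  obtain ⟨U, hUo, hUf⟩ := isOpen_induced_iff.1 (isOpen_interior (s := f q))
  have hvU : (v : E n) ∈ U := by
    rw [← hUf] at hv
    exact hv
  obtain ⟨v2, hv2U, hv2b, hv2P⟩ := mem_closure_iff_nhds.1 v.2 U (hUo.mem_nhds hvU)
  set U' : Set (E n) := U ∩ ball v0 ρ0 with hU'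
  have hU'o : IsOpen U' := hUo.inter isOpen_ball
  have hU'1 : U' ⊆ ball 0 1 := (inter_subset_right.trans ball_subset_closedBall).trans hρ0s
  have hv2U' : v2 ∈ U' := ⟨hv2U, hv2b⟩
  have hpiece : ∀ w, w ∈ U' → w ∈ P → ∃ hw : w ∈ Q, (⟨w, hw⟩ : Q) ∈ f q := by
    intro w hw hwP
    have hwQ : w ∈ Q := subset_closure ⟨hw.2, hwP⟩
    refine ⟨hwQ, interior_subset (s := f q) ?_⟩
    rw [← hUf]
    exact hw.1
  have hv2Z := hPZ v2 ⟨hU'1 hv2U', hv2P⟩
  rcases q with M | i | j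
  · -- a power acts trivially
    exfalso
    refine no_fix hn1 hp hg hU'o (hU'1.trans hbt) (Nat.succ_pos M) ?_ hv2U' hv2Z
    intro C hC hCp hCZ hns w hw
    have hwP := hP C (hC.trans hU'1) hCp hCZ hns hw
    obtain ⟨_, h⟩ := hpiece w (hC hw) hwP
    exact h
  · -- totally disconnected
    exfalso
    refine no_fix hn1 hp hg hU'o (hU'1.trans hbt) one_pos ?_ hv2U' hv2Z
    intro C hC hCp hCZ hns
    exfalso
    apply hns
    have hCP := hP C (hC.trans hU'1) hCp hCZ hns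
    have h1 : (φ.symm '' C).Subsingleton := by
      refine hTd i _ ?_ (hCp.image _ (φ.continuousOn_symm.mono (hC.trans (hU'1.trans hbt))))
      rintro _ ⟨w, hw, rfl⟩
      obtain ⟨_, h⟩ := hpiece w (hC hw) (hCP hw)
      exact h
    intro a ha b hb
    exact hinj a (hU'1 (hC ha)) b (hU'1 (hC hb)) (h1 (mem_image_of_mem _ ha)
      (mem_image_of_mem _ hb))
  · -- Hölder
    have hj0 : (0 : ℝ) < (j : ℝ) + 1 := by positivity
    have hj1 : (1 : ℝ) / ((j : ℝ) + 1) ≤ 1 := by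
      rw [div_le_one hj0]
      have : (0 : ℝ) ≤ j := Nat.cast_nonneg j
      linarith
    obtain ⟨B, hB, hv2B, hBs⟩ := (isBasis_countableBasis (E n)).mem_nhds_iff.1
      (inter_mem (hU'o.mem_nhds hv2U')
        (ball_mem_nhds v2 (show (0 : ℝ) < 1 / ((j : ℝ) + 1) / 2 by positivity)))
    have hBo : IsOpen B := (isBasis_countableBasis (E n)).isOpen hB
    have hB1 : B ⊆ ball 0 1 := (hBs.trans inter_subset_left).trans hU'1
    refine ⟨B, hB, hB1, ⟨v2, hv2B, hv2P⟩, ?_⟩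
    have hfin : ∃ m : ℕ, ∀ j, m ≤ j → En (n + 1) (B ∩ P) ((1 / 2) ^ j) (2 ^ j / (j + 1))
        (fun v => φ (γ • φ.symm v)) := ?_
    · obtain ⟨m, hm⟩ := hfin
      exact ⟨m, 1, fun j hj => by rw [Nat.cast_one, one_mul]; exact hm j hj⟩
    refine en_hol hn1 (z := v2) (α := ((n : ℝ) - 1) / (n + 1) + 1 / ((j : ℝ) + 1)) (C := j + 1)
      ?_ ?_ hj0.le ?_
    · refine inter_subset_left.trans ((hBs.trans inter_subset_right).trans ?_)
      refine ball_subset_closedBall.trans (closedBall_subset_closedBall ?_)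
      linarith
    · have : 0 < 1 / ((j : ℝ) + 1) := by positivity
      linarith
    · intro w hw a ha
      obtain ⟨haQ, ha'⟩ := hpiece a (hBs ha.1).1 ha.2
      -- approximation by points of infinite orbit
      have hwZ := hPZ w ⟨hB1 hw.1, hw.2⟩
      have hwcl : w ∈ closure {w' | w' ∈ B ∧ InfOrbit γ (φ.symm w')} := by
        rw [mem_closure_iff_nhds]
        intro W hW
        have hwt := hbt (hB1 hw.1)
        have h1 : φ.source ∩ φ ⁻¹' (interior W ∩ B) ∈ 𝓝 (φ.symm w) := by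
          refine (φ.isOpen_inter_preimage (isOpen_interior.inter hBo)).mem_nhds ?_
          refine ⟨φ.map_target hwt, ?_⟩
          rw [mem_preimage, φ.right_inv hwt]
          exact ⟨mem_interior_iff_mem_nhds.2 hW, hw.1⟩
        obtain ⟨x, ⟨hx1, hx2⟩, hxI⟩ := mem_closure_iff_nhds.1 hwZ _ h1
        refine ⟨φ x, interior_subset hx2.1, hx2.2, ?_⟩
        rw [φ.left_inv hx1]
        exact (hγI _).2 hxI
      have hw4 : closedBall (0 : E n) 4 ∈ 𝓝 w :=
        mem_of_superset (isOpen_ball.mem_nhds (hB1 hw.1)) hb4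
      refine ContinuousWithinAt.closure_le
        (f := fun w : E n => dist (φ (γ • φ.symm w)) (φ (γ • φ.symm a)))
        (g := fun w : E n => (j + 1 : ℝ) * dist w a ^ (((n : ℝ) - 1) / (n + 1) + 1 / ((j : ℝ) + 1)))
        hwcl ?_ ?_ ?_
      · have hca : ContinuousAt (fun w : E n => dist (φ (γ • φ.symm w)) (φ (γ • φ.symm a))) w :=
          (hfc.continuousAt hw4).dist continuousAt_const
        exact hca.continuousWithinAt
      · have hd : Continuous (fun w : E n => (j + 1 : ℝ) * dist w a ^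
            (((n : ℝ) - 1) / (n + 1) + 1 / ((j : ℝ) + 1))) :=
          continuous_const.mul ((continuous_id.dist continuous_const).rpow_const
            fun _ => Or.inr (by positivity))
        exact hd.continuousAt.continuousWithinAt
      · rintro w' ⟨hw'B, hw'I⟩
        refine ha' w' (hB1 hw'B) hw'I ?_
        have e1 := (hBs hw'B).2
        have e2 := (hBs ha.1).2
        rw [mem_ball] at e1 e2
        calc dist w' a ≤ dist w' v2 + dist a v2 := dist_triangle_right _ _ _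
          _ < 1 / ((j : ℝ) + 1) := by linarith

end

end Pool.Agent.L0h31.HS
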