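import Pool.Agent.L0h31.HS.B7

/-!
# Locally compact groups of homeomorphisms which are regular along the infinite orbits

Adaptation of `Pool/Agent/N512/HS/A8.lean`.
-/

set_option autoImplicit false
set_option linter.unusedSectionVars false

open MeasureTheory Set Metric Filter Topology TopologicalSpace
open scoped ENNReal NNReal

namespace Pool.Agent.L0h31.HS

open Pool.Agent.Y485.HS Pool.Agent.Y489.SP Pool.Agent.Y475.HS Pool.Agent.R775.HS
  Pool.Agent.R775.HC Pool.Agent.N512.HS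
open Pool.Agent.W660.GY (NSS GY3)

section
variable {n : ℕ} {X : Type} [MetricSpace X] [MeasurableSpace X] [BorelSpace X]

/-- there are no regular points of infinite orbit -/
theorem no_inf (hn : 2 ≤ n) {S : Type} [Group S] [TopologicalSpace S] [IsTopologicalGroup S]
    [CompactSpace S] [T2Space S] [TotallyDisconnectedSpace S] [MulAction S X]
    [ContinuousSMul S X] (hreg : ∀ s : S, ∃ M : ℤ, M ≠ 0 ∧ RegI n X (s ^ M)) {p : ℕ}
    (hp : p.Prime) {g : S} (hg : Tendsto (fun j : ℕ => g ^ p ^ j) atTop (𝓝 1)) {x0 : X} (hx0 : x0 ∈ RegA (BL n X)) :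
    x0 ∉ closure {x : X | InfOrbit g x} := by
  classical
  intro hx0Z
  have hn1 : 1 ≤ n := by omega
  obtain ⟨φ, hφ, hxφ, hφ0, H0, hH0o, ht4, hs4⟩ := start' (stable_BL n X) (H := S) hx0
  have hH0c : IsClosed (H0 : Set S) := Subgroup.isClosed_of_isOpen H0 hH0o
  have hb4 : ball (0 : E n) 1 ⊆ closedBall 0 4 :=
    ball_subset_closedBall.trans (closedBall_subset_closedBall (by norm_num))
  have hbt : ball (0 : E n) 1 ⊆ φ.target := hb4.trans ht4
  -- a power in `H0`
  obtain ⟨J, hJ⟩ : ∃ J : ℕ, g ^ p ^ J ∈ H0 :=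
    (hg.eventually (hH0o.mem_nhds H0.one_mem)).exists
  obtain ⟨g1, hg1⟩ : ∃ g1, g1 = g ^ p ^ J := ⟨_, rfl⟩
  rw [← hg1] at hJ
  have hpow : ∀ j, g1 ^ p ^ j = g ^ p ^ (J + j) := fun j => by
    rw [hg1, ← pow_mul, ← pow_add]
  have hg1t : Tendsto (fun j : ℕ => g1 ^ p ^ j) atTop (𝓝 1) := by
    have h1 := (tendsto_add_atTop_iff_nat J).2 hg
    refine h1.congr fun j => ?_
    rw [hpow, add_comm]
  set D1 : Subgroup S := (Subgroup.zpowers (g1 ^ p)).topologicalClosure with hD1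
  have hD1c : IsClosed (D1 : Set S) := Subgroup.isClosed_topologicalClosure _
  have hcD1 : CompactSpace D1 := isCompact_iff_compactSpace.1 hD1c.isCompact
  have hD1H : D1 ≤ H0 := Subgroup.topologicalClosure_minimal _
    ((Subgroup.zpowers_le).2 (H0.pow_mem hJ p)) hH0c
  have hg1g : g1 ∈ (Subgroup.zpowers g).topologicalClosure := by
    rw [hg1]
    exact Subgroup.le_topologicalClosure _ (Subgroup.npow_mem_zpowers g _)
  have hD1g : D1 ≤ (Subgroup.zpowers g).topologicalClosure :=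
    Subgroup.topologicalClosure_minimal _
      ((Subgroup.zpowers_le).2 (Subgroup.pow_mem _ hg1g p))
      (Subgroup.isClosed_topologicalClosure _)
  have hgd4 : ∀ d ∈ D1, ∀ M : ℤ, ∀ v ∈ closedBall (0 : E n) 4,
      (g1 * d) ^ M • φ.symm v ∈ φ.source :=
    fun d hd M v hv => (hs4 _ (H0.zpow_mem (H0.mul_mem hJ (hD1H hd)) M) v hv).1
  -- the continua of `Z`
  set N : Set (E n) := {v | v ∈ ball (0 : E n) 1 ∧
    φ.symm v ∈ closure {x : X | InfOrbit g x}} with hN
  set P : Set (E n) := Cond N with hPdef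
  have hPc : IsClosed P := isClosed_Cond N
  have hP : ∀ C ⊆ ball (0 : E n) 1, IsPreconnected C →
      (∀ v ∈ C, φ.symm v ∈ closure {x : X | InfOrbit g x}) → ¬ C.Subsingleton → C ⊆ P :=
    fun C hC hCp hCZ hns => subset_Cond hCp (fun v hv => ⟨hC hv, hCZ v hv⟩) hns
  have hPZ : ∀ v ∈ ball (0 : E n) 1 ∩ P, φ.symm v ∈ closure {x : X | InfOrbit g x} := by
    rintro v ⟨hv, hvP⟩
    by_contra hno
    have h1 : ∀ᶠ w in 𝓝 v, φ.symm w ∉ closure {x : X | InfOrbit g x} :=
      (φ.continuousAt_symm (hbt hv)).eventually_mem (isClosed_closure.isOpen_compl.mem_nhds hno)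
    apply hvP _ h1
    have h2 : {w | φ.symm w ∉ closure {x : X | InfOrbit g x}} ∩ N = ∅ := by
      ext w
      simp only [mem_inter_iff, mem_ofPred_eq, mem_empty_iff_false, iff_false, not_and]
      intro h3 h4
      exact h3 h4.2
    rw [h2]
    exact countable_empty
  have hPn : (ball (0 : E n) 1 ∩ P).Nonempty := by
    by_contra hemp
    have h1 := no_fix hn1 hp hg (isOpen_ball (x := (0 : E n)) (ε := 1)) hbt one_pos (by
      intro C hC hCp hCZ hns v hv
      exact absurd ⟨v, hC hv, hP C hC hCp hCZ hns hv⟩ hemp) (mem_ball_self one_pos)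
    apply h1
    rw [← hφ0, φ.left_inv hxφ]
    exact hx0Z
  -- the elements of the coset have the same points of infinite orbit
  have hγI : ∀ d ∈ D1, ∀ M : ℤ, M ≠ 0 → ∀ x : X, InfOrbit ((g1 * d) ^ M) x ↔ InfOrbit g x := by
    intro d hd M hM x
    rw [inf_zpow' hM]
    constructor
    · exact fun h => inf_of_mem (Subgroup.mul_mem _ hg1g (hD1g hd)) h
    · intro h
      have h1 : InfOrbit g1 x := by
        rw [hg1]
        exact inf_pow (pow_pos hp.pos J) h
      exact inf_of_mem (gen_mem hg1t hd) h1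
  -- Baire
  have hcount : (countableBasis (E n)).Countable := countable_countableBasis (E n)
  have : Countable (countableBasis (E n)) := hcount.to_subtype
  let f : (countableBasis (E n)) × (ℕ × ℕ) × ℤ → Set D1 := fun q =>
    {d | (q.1.1 ⊆ ball 0 1 ∧ (q.1.1 ∩ P).Nonempty ∧ q.2.2 ≠ 0) ∧ ∀ j, q.2.1.1 ≤ j →
      En (n + 1) (q.1.1 ∩ P) ((1 / 2) ^ j) (q.2.1.2 * (2 ^ j / (j + 1)))
        (fun v => φ ((g1 * (d : S)) ^ q.2.2 • φ.symm v))}
  have hfc : ∀ q, IsClosed (f q) := by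
    rintro ⟨⟨B, hB⟩, ⟨m, N⟩, M⟩
    by_cases hq : B ⊆ ball 0 1 ∧ (B ∩ P).Nonempty ∧ M ≠ 0
    · have h1 : f (⟨B, hB⟩, (m, N), M) = ⋂ (j : ℕ) (_ : m ≤ j), {d : D1 |
          En (n + 1) (B ∩ P) ((1 / 2) ^ j) (N * (2 ^ j / (j + 1)))
            (fun v => φ ((g1 * (d : S)) ^ M • φ.symm v))} := by
        ext d
        simp only [f, mem_ofPred_eq, mem_iInter]
        exact ⟨fun h => h.2, fun h => ⟨hq, h⟩⟩
      rw [h1]
      refine isClosed_iInter fun j => isClosed_iInter fun _ => isClosed_en ?_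
      intro v hv
      have hc : Continuous (fun d : D1 => (g1 * (d : S)) ^ M • φ.symm v) := by fun_prop
      exact φ.continuousOn.comp_continuous hc fun d => hgd4 d d.2 M v (hb4 (hq.1 hv.1))
    · have h1 : f (⟨B, hB⟩, (m, N), M) = ∅ := by
        ext d
        simp only [f, mem_ofPred_eq, mem_empty_iff_false, iff_false, not_and]
        exact fun h => (hq h).elim
      rw [h1]
      exact isClosed_empty
  have hfU : ⋃ q, f q = univ := by
    ext d
    simp only [mem_iUnion, mem_univ, iff_true]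
    obtain ⟨M, hM, hregM⟩ := hreg (g1 * (d : S))
    obtain ⟨B, hB, hB1, hBP, m, N, hm⟩ := one_ener hn hp hg hφ hregM ht4 (hgd4 d d.2 M)
      (hγI d d.2 M hM) hPc hPZ hP hPn
    exact ⟨(⟨B, hB⟩, (m, N), M), ⟨hB1, hBP, hM⟩, hm⟩
  obtain ⟨⟨⟨B, hB⟩, ⟨m, N0⟩, M⟩, s0, hs0⟩ := nonempty_interior_of_iUnion_of_closed (f := f) hfc hfU
  have hopen : IsOpen ((fun k : D1 => s0 * k) ⁻¹' (interior (f (⟨B, hB⟩, (m, N0), M)))) :=
    isOpen_interior.preimage (continuous_const.mul continuous_id)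
  obtain ⟨U, hU⟩ := ProfiniteGrp.exist_openNormalSubgroup_sub_open_nhds_of_one hopen (by
    rw [mem_preimage, mul_one]; exact hs0)
  have hD : ∀ k ∈ U.toSubgroup, s0 * k ∈ f (⟨B, hB⟩, (m, N0), M) := fun k hk =>
    interior_subset (hU hk)
  obtain ⟨⟨hB1, ⟨v1, hv1B, hv1P⟩, hM⟩, -⟩ := hD 1 U.toSubgroup.one_mem
  have hBo : IsOpen B := (isBasis_countableBasis (E n)).isOpen hB
  have hUo : IsOpen (U.toSubgroup : Set D1) := U.isOpen'
  have hUc : IsClosed (U.toSubgroup : Set D1) := Subgroup.isClosed_of_isOpen _ hUo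
  have hcomm : ∀ a ∈ D1, ∀ b ∈ D1, Commute a b := fun a ha b hb =>
    comm_closure (hD1g ha) (hD1g hb)
  -- the subgroup of the powers
  let K : Subgroup S :=
    { carrier := {x | ∃ k : D1, k ∈ U.toSubgroup ∧ (k : S) ^ M = x}
      mul_mem' := by
        rintro _ _ ⟨a, ha, rfl⟩ ⟨b, hb, rfl⟩
        exact ⟨a * b, U.toSubgroup.mul_mem ha hb, (hcomm a a.2 b b.2).mul_zpow M⟩
      one_mem' := ⟨1, U.toSubgroup.one_mem, by simp⟩
      inv_mem' := by
        rintro _ ⟨a, ha, rfl⟩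
        exact ⟨a⁻¹, U.toSubgroup.inv_mem ha, by simp⟩ }
  have hKc : IsClosed (K : Set S) := by
    have h1 : (K : Set S) = (fun k : D1 => (k : S) ^ M) '' (U.toSubgroup : Set D1) := rfl
    rw [h1]
    have hc : Continuous (fun k : D1 => (k : S) ^ M) := by fun_prop
    exact (hUc.isCompact.image hc).isClosed
  have hKD : ∀ k ∈ K, k ∈ D1 := by
    rintro _ ⟨k, -, rfl⟩
    exact D1.zpow_mem k.2 M
  obtain ⟨K1, hK1o, hK1t⟩ := coset3 hn1 (φ := φ) (g := g) (s1 := (g1 * (s0 : S)) ^ M) hBo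
    (hB1.trans hbt) hPc ((countable_diff_Cond N).mono (by
      rintro v ⟨hv1, hv2, hv3⟩
      exact ⟨⟨hB1 hv1, hv2⟩, hv3⟩))
    (fun v hv => hgd4 _ s0.2 M v (hb4 (hB1 hv))) (r := fun j => (1 / 2) ^ j)
    (b := fun j => N0 * (2 ^ j / (j + 1))) (fun j => by positivity) (by
      have h1 : Tendsto (fun j : ℕ => (N0 : ℝ) * (1 / ((j : ℝ) + 1))) atTop (𝓝 0) := by
        have := tendsto_one_div_add_atTop_nhds_zero_nat (𝕜 := ℝ)
        simpa using this.const_mul (N0 : ℝ)
      refine h1.congr fun j => ?_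
      have h2 : ((1 : ℝ) / 2) ^ j * 2 ^ j = 1 := by
        rw [← mul_pow]
        norm_num
      calc (N0 : ℝ) * (1 / ((j : ℝ) + 1)) = N0 * ((((1 : ℝ) / 2) ^ j * 2 ^ j) / (j + 1)) := by
            rw [h2]
        _ = (1 / 2) ^ j * (N0 * (2 ^ j / (j + 1))) := by ring) (m := m) hKc (fun k hk => hD1g (hKD k hk)) (by
      rintro _ ⟨k, hk, rfl⟩ j hj
      have h1 := (hD k hk).2 j hj
      have h2 : (g1 * ((s0 * k : D1) : S)) ^ M = (g1 * (s0 : S)) ^ M * (k : S) ^ M := by
        rw [Subgroup.coe_mul, ← mul_assoc]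
        exact (comm_closure (Subgroup.mul_mem _ hg1g (hD1g s0.2)) (hD1g k.2)).mul_zpow M
      simp only [h2] at h1
      exact h1) hv1B
  -- a power in `K1`
  have hg1p : ∀ j : ℕ, g1 ^ p ^ (j + 1) ∈ D1 := by
    intro j
    rw [pow_succ', pow_mul]
    exact Subgroup.pow_mem _ (Subgroup.le_topologicalClosure _ (Subgroup.mem_zpowers _)) _
  have ht1 : Tendsto (fun j : ℕ => (⟨g1 ^ p ^ (j + 1), hg1p j⟩ : D1)) atTop (𝓝 1) := by
    rw [tendsto_subtype_rng]
    exact (tendsto_add_atTop_iff_nat 1).2 hg1t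
  obtain ⟨j0, hj0⟩ := (ht1.eventually (hUo.mem_nhds U.toSubgroup.one_mem)).exists
  have heK : (g1 ^ p ^ (j0 + 1)) ^ M ∈ K := ⟨_, hj0, rfl⟩
  have ht2 : Tendsto (fun j : ℕ => (⟨(g1 ^ p ^ (j0 + 1)) ^ M, heK⟩ : K) ^ p ^ j) atTop (𝓝 1) := by
    rw [tendsto_subtype_rng]
    have h1 := ((tendsto_add_atTop_iff_nat (j0 + 1)).2 hg1t).zpow M
    rw [one_zpow] at h1
    refine h1.congr fun j => ?_
    simp only [SubmonoidClass.coe_pow]
    rw [add_comm, pow_add, pow_mul]
    exact zpow_comm_aux _ _ _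
  obtain ⟨j1, hj1⟩ := (ht2.eventually (hK1o.mem_nhds K1.one_mem)).exists
  have hv1Z := hPZ v1 ⟨hB1 hv1B, hv1P⟩
  obtain ⟨x, hxt, hx⟩ := mem_closure_iff_nhds.1 hv1Z _ hK1t
  have h1 : ((g1 ^ p ^ (j0 + 1)) ^ M) ^ p ^ j1 • x = x := hxt _ hj1
  rw [hpow] at h1
  have h3 : InfOrbit ((g ^ p ^ (J + (j0 + 1))) ^ M) x :=
    (inf_zpow' hM).2 (inf_pow (pow_pos hp.pos _) hx)
  exact h3 _ (pow_pos hp.pos _) h1

theorem crit_regI (hn : 2 ≤ n) {S : Type} [Group S] [TopologicalSpace S] [IsTopologicalGroup S]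
    [CompactSpace S] [T2Space S] [TotallyDisconnectedSpace S] [MulAction S X]
    [ContinuousSMul S X] (hreg : ∀ s : S, ∃ M : ℤ, M ≠ 0 ∧ RegI n X (s ^ M)) (s : S) :
    Crit (BL n X) s := by
  intro p hp hgp hcomp φ hφ hs
  obtain ⟨F0, -, -, -, h4⟩ := exists_good_inf hcomp hs
  apply h4
  intro y hy ε hε
  refine ⟨y, hy, by rwa [dist_self], ?_⟩
  intro C hC3 _ hCZ _ v hv
  have hvt : v ∈ φ.target := hs.1 (closedBall_subset_closedBall (by norm_num) (hC3 hv))
  exact absurd (hCZ v hv) (no_inf hn hreg hp hgp ⟨φ, hφ, φ.map_target hvt⟩)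

/-- The Hilbert-Smith conjecture for homeomorphisms which are regular along the infinite orbits,
off countable unions of closed totally disconnected sets. -/
theorem lie_inf (hn : 2 ≤ n) (hdense : Dense (RegA (BL n X)))
    (hconn : IsPreconnected (RegA (BL n X))) {G : Type} [Group G] [TopologicalSpace G]
    [IsTopologicalGroup G] [LocallyCompactSpace G] [MulAction G X] [ContinuousSMul G X]
    [FaithfulSMul G X] {V : Set G} (hV : V ∈ 𝓝 (1 : G))
    (hreg : ∀ g, SmallPow V g → ∃ M : ℤ, M ≠ 0 ∧ RegI n X (g ^ M)) : IsLie G := by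
  have hT2 : T2Space G := by
    refine ⟨fun g h hgh => ?_⟩
    obtain ⟨x, hx⟩ : ∃ x : X, g • x ≠ h • x := by
      by_contra hall
      push Not at hall
      exact hgh (eq_of_smul_eq_smul hall)
    obtain ⟨u, v, hu, hv, hgu, hhv, huv⟩ := t2_separation hx
    have hc : Continuous (fun g : G => g • x) := by fun_prop
    exact ⟨_, _, hu.preimage hc, hv.preimage hc, hgu, hhv, huv.preimage _⟩
  have hN : NSS G := by
    refine nss_of_Z V hV ?_
    intro S _ _ _ _ _ _ i hi hinj hiV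
    let _ : MulAction S X := MulAction.compHom X i
    have _ : ContinuousSMul S X := ⟨by
      have h : Continuous (fun q : S × X => i q.1 • q.2) := by fun_prop
      exact h⟩
    have hInf : ∀ (s : S) (x : X), InfOrbit s x ↔ InfOrbit (i s) x := by
      intro s x
      have h1 : ∀ m : ℕ, s ^ m • x = (i s) ^ m • x := by
        intro m
        rw [← map_pow]
        rfl
      simp only [InfOrbit, h1]
    have hregS : ∀ s : S, ∃ M : ℤ, M ≠ 0 ∧ RegI n X (s ^ M) := by
      intro s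
      obtain ⟨M, hM, T, hT1, hT2, hT3⟩ := hreg (i s) (smallPow_of_hom i hi hiV s)
      rw [← map_zpow] at hT3
      refine ⟨M, hM, T, hT1, hT2, fun x hx hxI hxT => ?_⟩
      rcases hT3 x hx ((hInf _ x).1 hxI) hxT with h | ⟨α, C, δ, h1, h2, h3⟩
      · exact Or.inl h
      · exact Or.inr ⟨α, C, δ, h1, h2, fun y hy hyx => h3 y ((hInf _ y).1 hy) hyx⟩
    obtain ⟨K, hKo, hKt⟩ := profinite' (by omega : 1 ≤ n) (stable_BL n X) hdense hconn
      (fun s => crit_regI hn hregS s) (fun K P _ q hq =>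
        crit_of_hom (K.subtype.comp P.subtype)
          (continuous_subtype_val.comp continuous_subtype_val) (fun _ _ => rfl) q hq)
    have hbot : K = ⊥ := by
      rw [eq_bot_iff]
      intro k hk
      rw [Subgroup.mem_bot]
      apply hinj
      refine eq_of_smul_eq_smul (α := X) fun x => ?_
      rw [map_one, one_smul]
      exact hKt k hk x
    rw [hbot] at hKo
    refine discreteTopology_of_isOpen_singleton_one ?_
    convert hKo using 1
    ext x
    simp
  obtain ⟨E, i1, i2, i3, ⟨C⟩⟩ := Pool.Agent.Y328.HS.lga G hN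
  let _ := i1
  let _ := i2
  have _ := i3
  exact Pool.Agent.Y286.HS.lgb G E C

end

end Pool.Agent.L0h31.HS
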