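import Pool.Agent.R775.HS.Sob2

/-!
# Oscillation on spheres and the double integral of Slobodeckij
-/

set_option autoImplicit false

open MeasureTheory Set Metric Filter Topology
open scoped ENNReal NNReal

namespace Pool.Agent.L0h31.HS

open Pool.Agent.Y485.HS

theorem jensen {α : Type} [MeasurableSpace α] (μ : Measure α) [IsProbabilityMeasure μ]
    {f : α → ℝ≥0∞} (hf : Measurable f) {q : ℝ} (hq : 1 ≤ q) :
    (∫⁻ a, f a ∂μ) ^ q ≤ ∫⁻ a, f a ^ q ∂μ := by
  have h := eLpNorm'_le_eLpNorm'_of_exponent_le (p := 1) (q := q) one_pos hq μ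
    hf.aestronglyMeasurable
  simp only [eLpNorm', enorm_eq_self, ENNReal.rpow_one, ne_eq, one_ne_zero, not_false_eq_true,
    div_self, one_div] at h
  calc (∫⁻ a, f a ∂μ) ^ q ≤ ((∫⁻ a, f a ^ q ∂μ) ^ q⁻¹) ^ q := by gcongr
    _ = _ := by rw [← ENNReal.rpow_mul, inv_mul_cancel₀ (by positivity), ENNReal.rpow_one]

theorem avg_diff {n : ℕ} {u : E n → E n} (hu : Measurable u) {B B' : Set (E n)}
    (hB0 : volume B ≠ 0) (hBt : volume B ≠ ∞) (hB'0 : volume B' ≠ 0) (hB't : volume B' ≠ ∞)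
    (hi : IntegrableOn u B) (hi' : IntegrableOn u B') {q : ℝ} (hq : 1 ≤ q) :
    edist (⨍ y in B, u y) (⨍ y in B', u y) ^ q ≤
      (volume B)⁻¹ * ((volume B')⁻¹ * ∫⁻ y in B, ∫⁻ z in B', edist (u y) (u z) ^ q) := by
  have hq0 : 0 ≤ q := by linarith
  set P : Measure (E n) := (volume B)⁻¹ • volume.restrict B with hP
  set P' : Measure (E n) := (volume B')⁻¹ • volume.restrict B' with hP'
  have hP1 : IsProbabilityMeasure P := ⟨by
    rw [hP, Measure.smul_apply, Measure.restrict_apply_univ, smul_eq_mul,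
      ENNReal.inv_mul_cancel hB0 hBt]⟩
  have hP1' : IsProbabilityMeasure P' := ⟨by
    rw [hP', Measure.smul_apply, Measure.restrict_apply_univ, smul_eq_mul,
      ENNReal.inv_mul_cancel hB'0 hB't]⟩
  have e1 : ⨍ y in B, u y = ∫ y, u y ∂P := by
    rw [average, Measure.restrict_apply_univ]
  have e2 : ⨍ y in B', u y = ∫ y, u y ∂P' := by
    rw [average, Measure.restrict_apply_univ]
  have hiP : Integrable u P := hi.smul_measure (ENNReal.inv_ne_top.2 hB0)
  have hiP' : Integrable u P' := hi'.smul_measure (ENNReal.inv_ne_top.2 hB'0)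
  have hmm : Measurable (Function.uncurry fun y z : E n => edist (u y) (u z)) :=
    (hu.comp measurable_fst).edist (hu.comp measurable_snd)
  rw [e1, e2]
  have e3 : edist (∫ y, u y ∂P) (∫ y, u y ∂P') ≤ ∫⁻ y, ∫⁻ z, edist (u y) (u z) ∂P' ∂P := by
    have h1 : (∫ y, u y ∂P) - (∫ y, u y ∂P') = ∫ y, (u y - ∫ z, u z ∂P') ∂P := by
      rw [integral_sub hiP (integrable_const _)]
      simp
    rw [edist_eq_enorm_sub, h1]
    refine (enorm_integral_le_lintegral_enorm _).trans (lintegral_mono fun y => ?_)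
    have h2 : u y - ∫ z, u z ∂P' = ∫ z, (u y - u z) ∂P' := by
      rw [integral_sub (integrable_const _) hiP']
      simp
    show ‖u y - ∫ z, u z ∂P'‖ₑ ≤ ∫⁻ z, edist (u y) (u z) ∂P'
    rw [h2]
    refine (enorm_integral_le_lintegral_enorm _).trans (le_of_eq ?_)
    simp only [edist_eq_enorm_sub]
  calc edist (∫ y, u y ∂P) (∫ y, u y ∂P') ^ q
      ≤ (∫⁻ y, ∫⁻ z, edist (u y) (u z) ∂P' ∂P) ^ q := ENNReal.rpow_le_rpow e3 hq0
    _ ≤ ∫⁻ y, (∫⁻ z, edist (u y) (u z) ∂P') ^ q ∂P :=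
        jensen P hmm.lintegral_prod_right' hq
    _ ≤ ∫⁻ y, ∫⁻ z, edist (u y) (u z) ^ q ∂P' ∂P := by
        refine lintegral_mono fun y => ?_
        exact jensen P' (hmm.comp (measurable_const.prodMk measurable_id)) hq
    _ = (volume B)⁻¹ * ((volume B')⁻¹ * ∫⁻ y in B, ∫⁻ z in B', edist (u y) (u z) ^ q) := by
        have hmq : Measurable (Function.uncurry fun y z : E n => edist (u y) (u z) ^ q) :=
          hmm.pow_const q
        rw [hP, lintegral_smul_measure, smul_eq_mul]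
        congr 1
        simp only [hP', lintegral_smul_measure, smul_eq_mul]
        exact lintegral_const_mul' _ _ (ENNReal.inv_ne_top.2 hB'0)

/-- the averages over small balls converge at the points of continuity -/
theorem tendsto_avg {n : ℕ} {u : E n → E n} {z : E n} (hz : ContinuousAt u z) {ρ : ℕ → ℝ}
    (hρ : ∀ j, 0 < ρ j) (hρ0 : Tendsto ρ atTop (𝓝 0))
    (hi : ∀ j, IntegrableOn u (ball z (ρ j))) :
    Tendsto (fun j => ⨍ y in ball z (ρ j), u y) atTop (𝓝 (u z)) := by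
  rw [Metric.tendsto_atTop]
  intro ε hε
  obtain ⟨δ, hδ, h⟩ := Metric.continuousAt_iff.1 hz (ε / 2) (half_pos hε)
  obtain ⟨J, hJ⟩ := eventually_atTop.1 (hρ0.eventually (gt_mem_nhds hδ))
  refine ⟨J, fun j hj => ?_⟩
  have hB0 : volume (ball z (ρ j)) ≠ 0 := (measure_ball_pos _ _ (hρ j)).ne'
  have hBt : volume (ball z (ρ j)) ≠ ∞ := measure_ball_lt_top.ne
  set P : Measure (E n) := (volume (ball z (ρ j)))⁻¹ • volume.restrict (ball z (ρ j)) with hP
  have hP1 : IsProbabilityMeasure P := ⟨by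
    rw [hP, Measure.smul_apply, Measure.restrict_apply_univ, smul_eq_mul,
      ENNReal.inv_mul_cancel hB0 hBt]⟩
  have e1 : ⨍ y in ball z (ρ j), u y = ∫ y, u y ∂P := by
    rw [average, Measure.restrict_apply_univ]
  have hiP : Integrable u P := (hi j).smul_measure (ENNReal.inv_ne_top.2 hB0)
  have h1 : (∫ y, u y ∂P) - u z = ∫ y, (u y - u z) ∂P := by
    rw [integral_sub hiP (integrable_const _)]
    simp
  rw [e1, dist_eq_norm, h1]
  have h2 : ∀ᵐ y ∂P, ‖u y - u z‖ ≤ ε / 2 := by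
    have h3 : ∀ᵐ y ∂(volume.restrict (ball z (ρ j))), ‖u y - u z‖ ≤ ε / 2 := by
      refine (ae_restrict_iff' measurableSet_ball).2 (Eventually.of_forall fun y hy => ?_)
      have h4 := h (lt_trans (mem_ball.1 hy) (hJ j hj))
      rw [dist_eq_norm] at h4
      exact h4.le
    exact Measure.ae_smul_measure h3 _
  have h5 := norm_integral_le_of_norm_le_const h2
  simp only [probReal_univ, mul_one] at h5
  linarith

end Pool.Agent.L0h31.HS
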