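import Pool.Agent.L0h31.HS.F1

/-!
# Oscillation on spheres and the double integral of Slobodeckij, II
-/

set_option autoImplicit false

open MeasureTheory Set Metric Filter Topology
open scoped ENNReal NNReal

namespace Pool.Agent.L0h31.HS

open Pool.Agent.Y485.HS

/-- the kernel of Slobodeckij -/
noncomputable def Ker {n : ℕ} (q c : ℝ) (u : E n → E n) (y y' : E n) : ℝ≥0∞ :=
  edist (u y) (u y') ^ q / edist y y' ^ c

theorem ker_bound {n : ℕ} {q c : ℝ} (hq : 0 < q) (hc : 0 < c) (u : E n → E n) {y y' : E n}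
    {ρ : ℝ} (h : dist y y' ≤ ρ) :
    edist (u y) (u y') ^ q ≤ ENNReal.ofReal ρ ^ c * Ker q c u y y' := by
  rcases eq_or_ne y y' with rfl | hne
  · rw [edist_self, ENNReal.zero_rpow_of_pos hq]
    exact bot_le
  · have h0 : edist y y' ≠ 0 := by
      rw [Ne, edist_eq_zero]
      exact hne
    have h1 : edist y y' ^ c ≠ 0 := by
      intro h2
      rcases ENNReal.rpow_eq_zero_iff.1 h2 with ⟨h3, -⟩ | ⟨h3, -⟩
      · exact h0 h3
      · exact edist_ne_top _ _ h3
    have h2 : edist y y' ^ c ≠ ∞ := ENNReal.rpow_ne_top_of_nonneg hc.le (edist_ne_top _ _)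
    have h3 : edist y y' ≤ ENNReal.ofReal ρ := by
      rw [edist_dist]
      exact ENNReal.ofReal_le_ofReal h
    calc edist (u y) (u y') ^ q = edist y y' ^ c * Ker q c u y y' := by
          rw [Ker, ENNReal.mul_div_cancel h1 h2]
      _ ≤ _ := by gcongr

theorem osc_frac {n : ℕ} (hn : 1 ≤ n) {q s : ℝ} (hq : 1 ≤ q) (hs : (n : ℝ) - 1 < s * q) :
    ∃ C : ℝ≥0∞, C ≠ ∞ ∧ ∀ (r : ℝ), 0 < r → ∀ (a : E n) (u : E n → E n), Measurable u →
      ContinuousOn u (closedBall a (3 * r)) → ∃ t ∈ Ioo r (2 * r), ∀ z z', dist z a = t →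
        dist z' a = t → edist (u z) (u z') ^ q ≤ C * (ENNReal.ofReal (r ^ (s * q - n)) *
          ∫⁻ y in ball a (3 * r), ∫⁻ y' in ball a (3 * r), Ker q ((n : ℝ) + s * q) u y y') := by
  classical
  have hq0 : 0 < q := by linarith
  set c : ℝ := (n : ℝ) + s * q with hc
  set η : ℝ := s * q - n + 1 with hη
  have hη0 : 0 < η := by linarith
  have hn0 : (0 : ℝ) ≤ n := Nat.cast_nonneg n
  have hcpos : 0 < c := by
    have h1 : (1 : ℝ) ≤ n := by exact_mod_cast hn
    linarith
  set κ : ℝ≥0∞ := volume (ball (0 : E n) 1) with hκ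
  have hκ0 : κ ≠ 0 := (measure_ball_pos volume (0 : E n) one_pos).ne'
  have hκt : κ ≠ ∞ := measure_ball_lt_top.ne
  set k : ℝ := κ.toReal with hk
  have hk0 : 0 < k := ENNReal.toReal_pos hκ0 hκt
  have hkκ : ENNReal.ofReal k = κ := ENNReal.ofReal_toReal hκt
  have hvol : ∀ (z : E n) (ρ : ℝ), 0 < ρ → volume (ball z ρ) = ENNReal.ofReal (ρ ^ n * k) := by
    intro z ρ hρ
    have := Measure.addHaar_ball_of_pos (volume : Measure (E n)) z hρ
    rw [finrank_euclideanSpace_fin] at this
    rw [this, ENNReal.ofReal_mul (by positivity), hkκ]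
  -- the constants
  set x : ℝ := (1 / 2) ^ (η / 2) with hx
  have hx0 : 0 < x := by positivity
  have hx1 : x < 1 := Real.rpow_lt_one (by norm_num) (by norm_num) (by linarith)
  set w : ℝ := x ^ (1 / q) with hw
  have hw0 : 0 < w := by positivity
  have hw1 : w < 1 := Real.rpow_lt_one hx0.le hx1 (by positivity)
  set c1 : ℝ := 2 ^ n * 2 ^ (1 + c) / k ^ 2 with hc1
  set c4 : ℝ := 6 ^ c / k ^ 2 with hc4
  have hc10 : 0 < c1 := by positivity
  have hc40 : 0 < c4 := by positivity
  have hgx : (1 - ENNReal.ofReal x)⁻¹ ≠ ∞ := by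
    rw [ENNReal.inv_ne_top]
    exact (tsub_pos_of_lt (by rw [ENNReal.ofReal_lt_one]; exact hx1)).ne'
  have hgw : (1 - ENNReal.ofReal w)⁻¹ ≠ ∞ := by
    rw [ENNReal.inv_ne_top]
    exact (tsub_pos_of_lt (by rw [ENNReal.ofReal_lt_one]; exact hw1)).ne'
  set C1 : ℝ≥0∞ := (1 - ENNReal.ofReal x)⁻¹ * ENNReal.ofReal c1 with hC1
  have hC1t : C1 ≠ ∞ := ENNReal.mul_ne_top hgx ENNReal.ofReal_ne_top
  set C5 : ℝ≥0∞ := 2 * ((1 - ENNReal.ofReal w)⁻¹ * C1 ^ (1 / q)) + ENNReal.ofReal c4 ^ (1 / q)
    with hC5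
  have hC5t : C5 ≠ ∞ := by
    refine ENNReal.add_ne_top.2 ⟨ENNReal.mul_ne_top (by norm_num) (ENNReal.mul_ne_top hgw ?_), ?_⟩
    · exact ENNReal.rpow_ne_top_of_nonneg (by positivity) hC1t
    · exact ENNReal.rpow_ne_top_of_nonneg (by positivity) ENNReal.ofReal_ne_top
  refine ⟨C5 ^ q, ENNReal.rpow_ne_top_of_nonneg hq0.le hC5t, ?_⟩
  intro r hr a u hu huc
  set B : Set (E n) := ball a (3 * r) with hB
  have hBm : MeasurableSet B := measurableSet_ball
  have hGm0 : Measurable (Function.uncurry fun y y' : E n => edist (u y) (u y') ^ q) :=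
    ((hu.comp measurable_fst).edist (hu.comp measurable_snd)).pow_const q
  have hKm0 : Measurable (Function.uncurry (Ker q c u)) :=
    hGm0.div ((measurable_fst.edist measurable_snd).pow_const c)
  have hGK0 : ∀ {y y' : E n} {ρ : ℝ}, dist y y' ≤ ρ →
      edist (u y) (u y') ^ q ≤ ENNReal.ofReal ρ ^ c * Ker q c u y y' :=
    fun h => ker_bound hq0 hcpos u h
  obtain ⟨K, hK⟩ : ∃ K : E n → E n → ℝ≥0∞, K = Ker q c u := ⟨_, rfl⟩
  rw [← hK] at hKm0 hGK0 ⊢
  obtain ⟨G, hG⟩ : ∃ G : E n → E n → ℝ≥0∞, G = fun y y' => edist (u y) (u y') ^ q := ⟨_, rfl⟩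
  have hGa : ∀ y y', edist (u y) (u y') ^ q = G y y' := fun y y' => by rw [hG]
  have hGm : Measurable (Function.uncurry G) := by rw [hG]; exact hGm0
  have hKm : Measurable (Function.uncurry K) := hKm0
  have hGK : ∀ {y y' : E n} {ρ : ℝ}, dist y y' ≤ ρ → G y y' ≤ ENNReal.ofReal ρ ^ c * K y y' := by
    intro y y' ρ h
    rw [← hGa]
    exact hGK0 h
  obtain ⟨J, hJ⟩ : ∃ J : ℝ≥0∞, J = ∫⁻ y in B, ∫⁻ y' in B, K y y' := ⟨_, rfl⟩
  rw [← hJ]
  obtain ⟨X, hX⟩ : ∃ X : ℝ≥0∞, X = ENNReal.ofReal (r ^ (s * q - n)) * J := ⟨_, rfl⟩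
  rw [← hX]
  obtain ⟨ρ, hρ⟩ : ∃ ρ : ℕ → ℝ, ρ = fun j => (1 / 2) ^ j * r := ⟨_, rfl⟩
  have hρ0 : ∀ j, 0 < ρ j := fun j => by simp only [hρ]; positivity
  have hρr : ∀ j, ρ j ≤ r := fun j => by
    simp only [hρ]
    have : ((1 : ℝ) / 2) ^ j ≤ 1 := pow_le_one₀ (by norm_num) (by norm_num)
    nlinarith
  have hρs : ∀ j, ρ (j + 1) = ρ j / 2 := fun j => by
    simp only [hρ, pow_succ]
    ring
  have hρlim : Tendsto ρ atTop (𝓝 0) := by
    rw [hρ]
    have h1 : Tendsto (fun j : ℕ => ((1 : ℝ) / 2) ^ j * r) atTop (𝓝 (0 * r)) :=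
      (tendsto_pow_atTop_nhds_zero_of_lt_one (by norm_num) (by norm_num)).mul_const r
    rwa [zero_mul] at h1
  -- the inner integrals
  obtain ⟨H, hH⟩ : ∃ H : ℕ → E n → ℝ≥0∞,
    H = fun j y => ∫⁻ y' in B, if dist y y' ≤ 2 * ρ j then G y y' else 0 := ⟨_, rfl⟩
  have hHm : ∀ j, Measurable (H j) := by
    intro j
    rw [hH]
    have h1 : Measurable (Function.uncurry fun y y' : E n =>
        if dist y y' ≤ 2 * ρ j then G y y' else 0) := by
      refine Measurable.ite ?_ hGm measurable_const
      exact measurableSet_le (measurable_fst.dist measurable_snd) measurable_const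
    exact h1.lintegral_prod_right'
  have hHK : ∀ j y, H j y ≤ ENNReal.ofReal (2 * ρ j) ^ c * ∫⁻ y' in B, K y y' := by
    intro j y
    have h1 : Measurable (fun y' => K y y') := hKm.of_uncurry_left
    rw [hH, ← lintegral_const_mul _ h1]
    refine lintegral_mono fun y' => ?_
    show (if dist y y' ≤ 2 * ρ j then G y y' else 0) ≤ _
    split_ifs with h2
    · exact hGK h2
    · exact bot_le
  obtain ⟨I, hI⟩ : ∃ I : ℕ → ℝ → ℝ≥0∞,
    I = fun j t => ∫⁻ y in B, if |dist y a - t| ≤ ρ j then H j y else 0 := ⟨_, rfl⟩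
  have hIm2 : ∀ j, Measurable (Function.uncurry fun (t : ℝ) (y : E n) =>
      if |dist y a - t| ≤ ρ j then H j y else 0) := by
    intro j
    refine Measurable.ite ?_ ((hHm j).comp measurable_snd) measurable_const
    have h2 : Measurable (fun q : ℝ × E n => |dist q.2 a - q.1|) := by fun_prop
    exact measurableSet_le h2 measurable_const
  have hIm : ∀ j, Measurable (I j) := fun j => by
    rw [hI]
    exact (hIm2 j).lintegral_prod_right'
  have hIint : ∀ j, ∫⁻ t in Ioo r (2 * r), I j t ≤
      ENNReal.ofReal (2 * ρ j) * (ENNReal.ofReal (2 * ρ j) ^ c * J) := by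
    intro j
    have h1 : ∫⁻ t in Ioo r (2 * r), I j t =
        ∫⁻ y in B, ∫⁻ t in Ioo r (2 * r), if |dist y a - t| ≤ ρ j then H j y else 0 := by
      simp only [hI]
      exact lintegral_lintegral_swap (hIm2 j).aemeasurable
    rw [h1]
    have h2 : ∀ y : E n, ∫⁻ t in Ioo r (2 * r), (if |dist y a - t| ≤ ρ j then H j y else 0) ≤
        ENNReal.ofReal (2 * ρ j) * H j y := by
      intro y
      calc ∫⁻ t in Ioo r (2 * r), (if |dist y a - t| ≤ ρ j then H j y else 0)
          ≤ ∫⁻ t : ℝ, (if |dist y a - t| ≤ ρ j then H j y else 0) := setLIntegral_le_lintegral _ _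
        _ = ∫⁻ t : ℝ, (Icc (dist y a - ρ j) (dist y a + ρ j)).indicator (fun _ => H j y) t := by
            refine lintegral_congr fun t => ?_
            rw [Set.indicator_apply]
            congr 1
            rw [mem_Icc, abs_le, eq_iff_iff]
            constructor
            · rintro ⟨h3, h4⟩
              constructor <;> linarith
            · rintro ⟨h3, h4⟩
              constructor <;> linarith
        _ = H j y * ENNReal.ofReal (2 * ρ j) := by
            rw [lintegral_indicator measurableSet_Icc, lintegral_const,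
              Measure.restrict_apply MeasurableSet.univ, univ_inter, Real.volume_Icc]
            congr 2
            ring
        _ = _ := mul_comm _ _
    calc ∫⁻ y in B, ∫⁻ t in Ioo r (2 * r), (if |dist y a - t| ≤ ρ j then H j y else 0)
        ≤ ∫⁻ y in B, ENNReal.ofReal (2 * ρ j) * H j y := lintegral_mono h2
      _ = ENNReal.ofReal (2 * ρ j) * ∫⁻ y in B, H j y := lintegral_const_mul _ (hHm j)
      _ ≤ ENNReal.ofReal (2 * ρ j) *
          ∫⁻ y in B, ENNReal.ofReal (2 * ρ j) ^ c * ∫⁻ y' in B, K y y' := by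
          gcongr with y
          exact hHK j y
      _ = _ := by
          have h7 : ENNReal.ofReal (2 * ρ j) ^ c ≠ ∞ :=
            ENNReal.rpow_ne_top_of_nonneg hcpos.le ENNReal.ofReal_ne_top
          rw [lintegral_const_mul' _ _ h7, ← hJ]
  -- the weighted sum
  obtain ⟨b, hb⟩ : ∃ b : ℕ → ℝ, b = fun j => (ρ j ^ n * k)⁻¹ * (ρ (j + 1) ^ n * k)⁻¹ := ⟨_, rfl⟩
  have hb0 : ∀ j, 0 < b j := fun j => by
    have h1 := hρ0 j
    have h2 := hρ0 (j + 1)
    simp only [hb]
    positivity
  obtain ⟨T, hT⟩ : ∃ T : ℕ → ℝ → ℝ≥0∞, T = fun j t => ENNReal.ofReal (b j) * I j t := ⟨_, rfl⟩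
  have hbid : ∀ j, b j * ((2 * ρ j) * (2 * ρ j) ^ c) = c1 * ((x ^ j) ^ 2 * r ^ η) := by
    intro j
    have h1 := hρ0 j
    have e1 : b j = 2 ^ n / k ^ 2 * (ρ j) ^ (-(2 * n) : ℝ) := by
      simp only [hb]
      rw [hρs, Real.rpow_neg h1.le, div_pow]
      have e2 : (ρ j) ^ (2 * n : ℝ) = (ρ j ^ n) * (ρ j ^ n) := by
        rw [← pow_add, ← Real.rpow_natCast]
        congr 1
        push_cast
        ring
      rw [e2]
      have h3 : ρ j ^ n ≠ 0 := (pow_pos h1 n).ne'
      field_simp
    have e3 : (2 * ρ j) * (2 * ρ j) ^ c = 2 ^ (1 + c) * (ρ j) ^ (1 + c) := by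
      have e6 : (2 * ρ j) ^ (1 + c) = (2 * ρ j) * (2 * ρ j) ^ c := by
        have e7 := Real.rpow_add (show 0 < 2 * ρ j by positivity) 1 c
        rwa [Real.rpow_one] at e7
      rw [← e6, Real.mul_rpow (by norm_num) h1.le]
    have e4 : (ρ j) ^ (-(2 * n) : ℝ) * (ρ j) ^ (1 + c) = (ρ j) ^ η := by
      rw [← Real.rpow_add h1]
      congr 1
      rw [hc, hη]
      ring
    have e5 : (ρ j) ^ η = (x ^ j) ^ 2 * r ^ η := by
      simp only [hρ]
      rw [Real.mul_rpow (by positivity) hr.le]
      congr 1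
      rw [hx, ← pow_mul, ← Real.rpow_natCast (((1 : ℝ) / 2) ^ (η / 2)), ← Real.rpow_mul (by norm_num),
        ← Real.rpow_natCast ((1 : ℝ) / 2), ← Real.rpow_mul (by norm_num)]
      congr 1
      push_cast
      ring
    rw [e1, e3, hc1, ← e5, ← e4]
    ring
  obtain ⟨S, hS⟩ : ∃ S : ℝ → ℝ≥0∞, S = fun t => ∑' j, ENNReal.ofReal ((x⁻¹) ^ j) * T j t := ⟨_, rfl⟩
  have hTm : ∀ j, Measurable (T j) := fun j => by rw [hT]; exact (hIm j).const_mul _
  have hSm : Measurable S := by
    rw [hS]
    exact Measurable.ennreal_tsum fun j => (hTm j).const_mul _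
  have hSint : ∫⁻ t in Ioo r (2 * r), S t ≤
      (1 - ENNReal.ofReal x)⁻¹ * (ENNReal.ofReal (c1 * r ^ η) * J) := by
    simp only [hS]
    rw [lintegral_tsum fun j => ((hTm j).const_mul _).aemeasurable]
    calc ∑' j, ∫⁻ t in Ioo r (2 * r), ENNReal.ofReal ((x⁻¹) ^ j) * T j t
        ≤ ∑' j, ENNReal.ofReal x ^ j * (ENNReal.ofReal (c1 * r ^ η) * J) := by
          refine ENNReal.tsum_le_tsum fun j => ?_
          rw [lintegral_const_mul _ (hTm j)]
          simp only [hT]
          rw [lintegral_const_mul _ (hIm j)]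
          calc ENNReal.ofReal ((x⁻¹) ^ j) * (ENNReal.ofReal (b j) * ∫⁻ t in Ioo r (2 * r), I j t)
              ≤ ENNReal.ofReal ((x⁻¹) ^ j) * (ENNReal.ofReal (b j) *
                (ENNReal.ofReal (2 * ρ j) * (ENNReal.ofReal (2 * ρ j) ^ c * J))) := by
                gcongr
                exact hIint j
            _ = ENNReal.ofReal ((x⁻¹) ^ j * (b j * ((2 * ρ j) * (2 * ρ j) ^ c))) * J := by
                have h1 := hρ0 j
                have h2 := (hb0 j).le
                have h8 : ENNReal.ofReal ((x⁻¹) ^ j * (b j * ((2 * ρ j) * (2 * ρ j) ^ c))) =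
                    ENNReal.ofReal ((x⁻¹) ^ j) * (ENNReal.ofReal (b j) *
                      (ENNReal.ofReal (2 * ρ j) * ENNReal.ofReal (2 * ρ j) ^ c)) := by
                  rw [ENNReal.ofReal_mul (p := (x⁻¹) ^ j) (by positivity),
                    ENNReal.ofReal_mul (p := b j) h2,
                    ENNReal.ofReal_mul (p := 2 * ρ j) (by positivity),
                    ENNReal.ofReal_rpow_of_pos (by positivity)]
                rw [h8]
                ring
            _ = _ := by
                rw [hbid j]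
                have h3 : (x⁻¹) ^ j * (c1 * ((x ^ j) ^ 2 * r ^ η)) = x ^ j * (c1 * r ^ η) := by
                  rw [inv_pow]
                  have h4 : x ^ j ≠ 0 := (pow_pos hx0 j).ne'
                  field_simp
                rw [h3, ENNReal.ofReal_mul (by positivity), ENNReal.ofReal_pow hx0.le]
                ring
      _ = _ := by rw [ENNReal.tsum_mul_right, ENNReal.tsum_geometric]
  -- a good radius
  obtain ⟨t, ht, htS⟩ := exists_le_setLAverage (μ := volume) (s := Ioo r (2 * r)) (f := S)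
    (by rw [Real.volume_Ioo]; simp; linarith) (by rw [Real.volume_Ioo]; exact ENNReal.ofReal_ne_top)
    hSm.aemeasurable
  have hSt : S t ≤ C1 * X := by
    refine htS.trans ?_
    rw [setLAverage_eq, Real.volume_Ioo, show 2 * r - r = r by ring]
    refine ENNReal.div_le_of_le_mul (hSint.trans (le_of_eq ?_))
    have h1 : c1 * r ^ η = c1 * (r ^ (s * q - n) * r) := by
      rw [hη, Real.rpow_add hr, Real.rpow_one]
    rw [h1, ENNReal.ofReal_mul hc10.le, ENNReal.ofReal_mul (by positivity), hC1, hX]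
    ring
  refine ⟨t, ht, ?_⟩
  have hint : ∀ z ρ', closedBall z ρ' ⊆ closedBall a (3 * r) → IntegrableOn u (ball z ρ') := by
    intro z ρ' h
    exact (huc.integrableOn_compact (isCompact_closedBall _ _)).mono_set
      (ball_subset_closedBall.trans h)
  -- one point of the sphere
  have hone : ∀ z, dist z a = t → edist (⨍ y in ball z r, u y) (u z) ≤
      (1 - ENNReal.ofReal w)⁻¹ * (C1 * X) ^ (1 / q) := by
    intro z hz
    have hsub : ∀ j, closedBall z (ρ j) ⊆ closedBall a (3 * r) := by
      intro j y hy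
      rw [mem_closedBall] at hy ⊢
      have h1 := dist_triangle y z a
      have h2 := hρr j
      linarith [ht.2]
    have hsubB : ∀ j, ball z (ρ j) ⊆ B := by
      intro j y hy
      rw [hB, mem_ball]
      rw [mem_ball] at hy
      have h1 := dist_triangle y z a
      have h2 := hρr j
      linarith [ht.2]
    have hcz : ContinuousAt u z := by
      refine huc.continuousAt (closedBall_mem_nhds_of_mem ?_)
      rw [mem_ball, hz]
      linarith [ht.2]
    have hlim := tendsto_avg hcz hρ0 hρlim fun j => hint z (ρ j) (hsub j)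
    have hstep : ∀ j, edist (⨍ y in ball z (ρ j), u y) (⨍ y in ball z (ρ (j + 1)), u y) ≤
        ENNReal.ofReal w ^ j * (C1 * X) ^ (1 / q) := by
      intro j
      have h1 := avg_diff hu (B := ball z (ρ j)) (B' := ball z (ρ (j + 1)))
        (measure_ball_pos _ _ (hρ0 j)).ne' measure_ball_lt_top.ne
        (measure_ball_pos _ _ (hρ0 (j + 1))).ne' measure_ball_lt_top.ne
        (hint z _ (hsub j)) (hint z _ (hsub (j + 1))) hq
      have h2 : ∫⁻ y in ball z (ρ j), ∫⁻ y' in ball z (ρ (j + 1)), edist (u y) (u y') ^ q ≤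
          I j t := by
        have h3 : ∀ y ∈ ball z (ρ j), ∫⁻ y' in ball z (ρ (j + 1)), edist (u y) (u y') ^ q ≤
            if |dist y a - t| ≤ ρ j then H j y else 0 := by
          intro y hy
          have h4 : |dist y a - t| ≤ ρ j := by
            rw [← hz]
            exact (abs_dist_sub_le y z a).trans (mem_ball.1 hy).le
          rw [if_pos h4]
          simp only [hH]
          calc ∫⁻ y' in ball z (ρ (j + 1)), edist (u y) (u y') ^ q
              = ∫⁻ y' in ball z (ρ (j + 1)), (if dist y y' ≤ 2 * ρ j then G y y' else 0) := by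
                refine setLIntegral_congr_fun measurableSet_ball fun y' hy' => ?_
                have h5 : dist y y' ≤ 2 * ρ j := by
                  have h6 := dist_triangle_right y y' z
                  rw [mem_ball] at hy hy'
                  have h7 := hρs j
                  have h8 := hρ0 j
                  linarith
                show edist (u y) (u y') ^ q = if dist y y' ≤ 2 * ρ j then G y y' else 0
                rw [if_pos h5, hGa]
            _ ≤ _ := lintegral_mono_set (hsubB (j + 1))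
        calc ∫⁻ y in ball z (ρ j), ∫⁻ y' in ball z (ρ (j + 1)), edist (u y) (u y') ^ q
            ≤ ∫⁻ y in ball z (ρ j), (if |dist y a - t| ≤ ρ j then H j y else 0) :=
              setLIntegral_mono' measurableSet_ball h3
          _ ≤ I j t := by
              rw [hI]
              exact lintegral_mono_set (hsubB j)
      have h3 : edist (⨍ y in ball z (ρ j), u y) (⨍ y in ball z (ρ (j + 1)), u y) ^ q ≤ T j t := by
        refine h1.trans ?_
        rw [← mul_assoc, hvol _ _ (hρ0 j), hvol _ _ (hρ0 (j + 1))]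
        have e1 := hρ0 j
        have e2 := hρ0 (j + 1)
        rw [← ENNReal.ofReal_inv_of_pos (by positivity), ← ENNReal.ofReal_inv_of_pos (by positivity),
          ← ENNReal.ofReal_mul (by positivity)]
        simp only [hT, hb]
        gcongr
      have h4 : T j t ≤ ENNReal.ofReal (x ^ j) * (C1 * X) := by
        have h5 : ENNReal.ofReal ((x⁻¹) ^ j) * T j t ≤ C1 * X := by
          refine le_trans ?_ hSt
          rw [hS]
          exact ENNReal.le_tsum (f := fun j => ENNReal.ofReal ((x⁻¹) ^ j) * T j t) j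
        calc T j t = ENNReal.ofReal (x ^ j) * (ENNReal.ofReal ((x⁻¹) ^ j) * T j t) := by
              rw [← mul_assoc, ← ENNReal.ofReal_mul (by positivity), inv_pow,
                mul_inv_cancel₀ (pow_pos hx0 j).ne', ENNReal.ofReal_one, one_mul]
          _ ≤ _ := by gcongr
      calc edist (⨍ y in ball z (ρ j), u y) (⨍ y in ball z (ρ (j + 1)), u y)
          = (edist (⨍ y in ball z (ρ j), u y) (⨍ y in ball z (ρ (j + 1)), u y) ^ q) ^ (1 / q) := by
            rw [← ENNReal.rpow_mul, mul_one_div_cancel hq0.ne', ENNReal.rpow_one]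
        _ ≤ (ENNReal.ofReal (x ^ j) * (C1 * X)) ^ (1 / q) :=
            ENNReal.rpow_le_rpow (h3.trans h4) (by positivity)
        _ = _ := by
            rw [ENNReal.mul_rpow_of_nonneg _ _ (by positivity)]
            congr 1
            rw [ENNReal.ofReal_rpow_of_pos (by positivity), hw, ← ENNReal.ofReal_pow (by positivity)]
            congr 1
            rw [← Real.rpow_natCast, ← Real.rpow_natCast, ← Real.rpow_mul hx0.le,
              ← Real.rpow_mul hx0.le, mul_comm]
    have h1 := edist_le_tsum_of_edist_le_of_tendsto₀ _ hstep hlim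
    rw [ENNReal.tsum_mul_right, ENNReal.tsum_geometric] at h1
    have h2 : ρ 0 = r := by simp [hρ]
    rw [h2] at h1
    exact h1
  intro z z' hz hz'
  have htwo : edist (⨍ y in ball z r, u y) (⨍ y in ball z' r, u y) ≤
      (ENNReal.ofReal c4 * X) ^ (1 / q) := by
    have hsub : ∀ z, dist z a = t → closedBall z r ⊆ closedBall a (3 * r) := by
      intro z hz y hy
      rw [mem_closedBall] at hy ⊢
      have h1 := dist_triangle y z a
      linarith [ht.2]
    have hsubB : ∀ z, dist z a = t → ball z r ⊆ B := by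
      intro z hz y hy
      rw [hB, mem_ball]
      rw [mem_ball] at hy
      have h1 := dist_triangle y z a
      linarith [ht.2]
    have h1 := avg_diff hu (B := ball z r) (B' := ball z' r)
        (measure_ball_pos _ _ hr).ne' measure_ball_lt_top.ne
        (measure_ball_pos _ _ hr).ne' measure_ball_lt_top.ne
        (hint z _ (hsub z hz)) (hint z' _ (hsub z' hz')) hq
    have h2 : ∫⁻ y in ball z r, ∫⁻ y' in ball z' r, edist (u y) (u y') ^ q ≤
        ENNReal.ofReal (6 * r) ^ c * J := by
      calc ∫⁻ y in ball z r, ∫⁻ y' in ball z' r, edist (u y) (u y') ^ q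
          ≤ ∫⁻ y in B, ∫⁻ y' in ball z' r, edist (u y) (u y') ^ q :=
            lintegral_mono_set (hsubB z hz)
        _ ≤ ∫⁻ y in B, ∫⁻ y' in B, edist (u y) (u y') ^ q :=
            lintegral_mono fun y => lintegral_mono_set (hsubB z' hz')
        _ ≤ ∫⁻ y in B, ∫⁻ y' in B, ENNReal.ofReal (6 * r) ^ c * K y y' := by
            refine setLIntegral_mono' hBm fun y hy => setLIntegral_mono' hBm fun y' hy' => ?_
            rw [hGa]
            refine hGK ?_
            have h3 := dist_triangle_right y y' a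
            rw [hB, mem_ball] at hy hy'
            linarith
        _ = _ := by
            have h3 : ∀ y, ∫⁻ y' in B, ENNReal.ofReal (6 * r) ^ c * K y y' =
                ENNReal.ofReal (6 * r) ^ c * ∫⁻ y' in B, K y y' := fun y =>
              lintegral_const_mul _ hKm.of_uncurry_left
            simp_rw [h3]
            have h7 : ENNReal.ofReal (6 * r) ^ c ≠ ∞ :=
              ENNReal.rpow_ne_top_of_nonneg hcpos.le ENNReal.ofReal_ne_top
            rw [lintegral_const_mul' _ _ h7, ← hJ]
    have h3 : edist (⨍ y in ball z r, u y) (⨍ y in ball z' r, u y) ^ q ≤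
        ENNReal.ofReal c4 * X := by
      refine h1.trans ?_
      rw [← mul_assoc, hvol _ _ hr, hvol _ _ hr]
      rw [← ENNReal.ofReal_inv_of_pos (by positivity), ← ENNReal.ofReal_mul (by positivity)]
      calc ENNReal.ofReal ((r ^ n * k)⁻¹ * (r ^ n * k)⁻¹) *
            ∫⁻ y in ball z r, ∫⁻ y' in ball z' r, edist (u y) (u y') ^ q
          ≤ ENNReal.ofReal ((r ^ n * k)⁻¹ * (r ^ n * k)⁻¹) * (ENNReal.ofReal (6 * r) ^ c * J) := by
            gcongr
        _ = ENNReal.ofReal ((r ^ n * k)⁻¹ * (r ^ n * k)⁻¹ * (6 * r) ^ c) * J := by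
            rw [ENNReal.ofReal_mul (p := (r ^ n * k)⁻¹ * (r ^ n * k)⁻¹) (by positivity),
              ENNReal.ofReal_rpow_of_pos (by positivity), mul_assoc]
        _ = ENNReal.ofReal (c4 * r ^ (s * q - n)) * J := by
            congr 2
            have e1 : (r ^ n * k)⁻¹ * (r ^ n * k)⁻¹ = r ^ (-(2 * n) : ℝ) / k ^ 2 := by
              rw [Real.rpow_neg hr.le]
              have e2 : r ^ (2 * n : ℝ) = (r ^ n) * (r ^ n) := by
                rw [← pow_add, ← Real.rpow_natCast]
                congr 1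
                push_cast
                ring
              rw [e2]
              have h3 : r ^ n ≠ 0 := (pow_pos hr n).ne'
              field_simp
            have e3 : (6 * r) ^ c = 6 ^ c * r ^ c := Real.mul_rpow (by norm_num) hr.le
            have e4 : r ^ (-(2 * n) : ℝ) * r ^ c = r ^ (s * q - n) := by
              rw [← Real.rpow_add hr]
              congr 1
              rw [hc]
              ring
            rw [e1, e3, ← e4, hc4]
            ring
        _ = _ := by
            rw [ENNReal.ofReal_mul hc40.le, hX]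
            ring
    calc edist (⨍ y in ball z r, u y) (⨍ y in ball z' r, u y)
        = (edist (⨍ y in ball z r, u y) (⨍ y in ball z' r, u y) ^ q) ^ (1 / q) := by
          rw [← ENNReal.rpow_mul, mul_one_div_cancel hq0.ne', ENNReal.rpow_one]
      _ ≤ _ := ENNReal.rpow_le_rpow h3 (by positivity)
  have hfin : edist (u z) (u z') ≤ C5 * X ^ (1 / q) := by
    calc edist (u z) (u z') ≤ edist (u z) (⨍ y in ball z r, u y) +
          edist (⨍ y in ball z r, u y) (⨍ y in ball z' r, u y) +
          edist (⨍ y in ball z' r, u y) (u z') := edist_triangle4 _ _ _ _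
      _ ≤ (1 - ENNReal.ofReal w)⁻¹ * (C1 * X) ^ (1 / q) + (ENNReal.ofReal c4 * X) ^ (1 / q) +
          (1 - ENNReal.ofReal w)⁻¹ * (C1 * X) ^ (1 / q) := by
          refine add_le_add (add_le_add ?_ htwo) (hone z' hz')
          rw [edist_comm]
          exact hone z hz
      _ = _ := by
          rw [ENNReal.mul_rpow_of_nonneg C1 X (by positivity),
            ENNReal.mul_rpow_of_nonneg (ENNReal.ofReal c4) X (by positivity), hC5]
          generalize C1 ^ (1 / q) = A1
          generalize X ^ (1 / q) = A2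
          generalize ENNReal.ofReal c4 ^ (1 / q) = A3
          generalize (1 - ENNReal.ofReal w)⁻¹ = A4
          ring
  calc edist (u z) (u z') ^ q ≤ (C5 * X ^ (1 / q)) ^ q := ENNReal.rpow_le_rpow hfin hq0.le
    _ = C5 ^ q * X := by
      rw [ENNReal.mul_rpow_of_nonneg _ _ hq0.le, ← ENNReal.rpow_mul, one_div_mul_cancel hq0.ne',
        ENNReal.rpow_one]

end Pool.Agent.L0h31.HS
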