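import Pool.Agent.L0h31.HS.F2
import Pool.Agent.L0h31.HS.B7

/-!
# Small energies of homeomorphisms of fractional Sobolev class
-/

set_option autoImplicit false

open MeasureTheory Set Metric Filter Topology
open scoped ENNReal NNReal

namespace Pool.Agent.L0h31.HS

open Pool.Agent.Y485.HS Pool.Agent.Y489.SP Pool.Agent.R775.HS Pool.Agent.R775.HC

theorem far_ball {n : ℕ} (u : OpenPartialHomeomorph (E n) (E n)) {a : E n} {t : ℝ}
    (hQ : closedBall a t ⊆ u.source) {x x' : E n} (hx : x ∈ closedBall a t)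
    (hmax : ∀ z ∈ closedBall a t, dist (u z) (u x') ≤ dist (u x) (u x'))
    (hne : u x ≠ u x') : dist x a = t := by
  by_contra hcon
  have hlt : dist x a < t := lt_of_le_of_ne (mem_closedBall.1 hx) hcon
  have hxs : x ∈ u.source := hQ hx
  have huB : u.target ∈ 𝓝 (u x) := u.open_target.mem_nhds (u.map_source hxs)
  have hc : ContinuousAt u.symm (u x) := u.continuousAt_symm (u.map_source hxs)
  have hinv : u.symm (u x) = x := u.left_inv hxs
  have hev : ∀ᶠ w in 𝓝 (u x), u.symm w ∈ ball a t := by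
    apply hc
    rw [hinv]
    exact isOpen_ball.mem_nhds (mem_ball.2 hlt)
  have hray : Tendsto (fun s : ℝ => u x + s • (u x - u x')) (𝓝[>] 0) (𝓝 (u x)) := by
    have h1 : Continuous (fun s : ℝ => u x + s • (u x - u x')) := by fun_prop
    have h2 := h1.tendsto 0
    simp only [zero_smul, add_zero] at h2
    exact h2.mono_left nhdsWithin_le_nhds
  have hev2 : ∀ᶠ s in 𝓝[>] (0 : ℝ), 0 < s := self_mem_nhdsWithin
  obtain ⟨s, ⟨hs1, hs2⟩, hs0⟩ := (((hray.eventually (hev.and huB)).and hev2)).exists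
  have huw : u (u.symm (u x + s • (u x - u x'))) = u x + s • (u x - u x') := u.right_inv hs2
  have hle := hmax _ (ball_subset_closedBall hs1)
  rw [huw] at hle
  have h3 : dist (u x + s • (u x - u x')) (u x') = (1 + s) * dist (u x) (u x') := by
    rw [dist_eq_norm, dist_eq_norm]
    have : u x + s • (u x - u x') - u x' = (1 + s) • (u x - u x') := by module
    rw [this, norm_smul, Real.norm_eq_abs, abs_of_pos (by linarith)]
  rw [h3] at hle
  have := dist_pos.2 hne
  nlinarith

theorem sphere_far {n : ℕ} (hn : 1 ≤ n) (u : OpenPartialHomeomorph (E n) (E n)) {a : E n} {t : ℝ}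
    (ht : 0 ≤ t) (hQ : closedBall a t ⊆ u.source) :
    ∃ z z', dist z a = t ∧ dist z' a = t ∧
      ∀ x ∈ closedBall a t, ∀ x' ∈ closedBall a t, dist (u x) (u x') ≤ dist (u z) (u z') := by
  have hcont : ContinuousOn u (closedBall a t) := u.continuousOn.mono hQ
  obtain ⟨x, hx, x', hx', hmax⟩ := Pool.Agent.Y566.SP.exists_far
    (isCompact_closedBall a t) ⟨a, mem_closedBall_self ht⟩ hcont
  have : Nonempty (Fin n) := Fin.pos_iff_nonempty.1 (by omega)
  by_cases hne : u x = u x'
  · obtain ⟨z, hz⟩ := (NormedSpace.sphere_nonempty (x := a) (r := t)).2 ht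
    refine ⟨z, z, mem_sphere.1 hz, mem_sphere.1 hz, fun w hw w' hw' => ?_⟩
    have := hmax w hw w' hw'
    rw [hne, dist_self] at this
    simpa using this
  · refine ⟨x, x', far_ball u hQ hx (fun z hz => hmax z hz x' hx') hne,
      far_ball u hQ hx' (x' := x) (fun z hz => ?_) (Ne.symm hne), hmax⟩
    rw [dist_comm (u x') (u x)]
    exact hmax z hz x hx

/-- comparison of powers -/
theorem pow_cmp {q : ℝ} {n : ℕ} {d l : ℝ} (hd : 0 ≤ d) (hl : 0 < l)
    (hqn : (n : ℝ) + 1 ≤ q) : d ^ (n + 1) ≤ l ^ (n + 1) + l ^ ((n : ℝ) + 1 - q) * d ^ q := by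
  rcases le_total d l with h | h
  · have h1 : d ^ (n + 1) ≤ l ^ (n + 1) := pow_le_pow_left₀ hd h _
    have h2 : 0 ≤ l ^ ((n : ℝ) + 1 - q) * d ^ q := by positivity
    linarith
  · have hd0 : 0 < d := lt_of_lt_of_le hl h
    have e : d ^ (n + 1) = d ^ ((n : ℝ) + 1 - q) * d ^ q := by
      rw [← Real.rpow_add hd0, sub_add_cancel, ← Real.rpow_natCast]
      push_cast
      rfl
    have h1 : d ^ ((n : ℝ) + 1 - q) ≤ l ^ ((n : ℝ) + 1 - q) :=
      Real.rpow_le_rpow_of_nonpos hl h (by linarith)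
    have h2 : 0 ≤ l ^ (n + 1) := by positivity
    rw [e]
    have h3 := mul_le_mul_of_nonneg_right h1 (Real.rpow_nonneg hd q)
    linarith

theorem en_frac {n : ℕ} (hn : 2 ≤ n) (u : OpenPartialHomeomorph (E n) (E n)) {q s : ℝ}
    (hq : 1 ≤ q) (hs : (n : ℝ) - 1 < s * min q (n + 1)) {z0 : E n} {R : ℝ} (hR : 0 < R)
    (hsrc : ball z0 R ⊆ u.source)
    (hfin : ∫⁻ y in ball z0 R, ∫⁻ y' in ball z0 R, Ker q ((n : ℝ) + s * q) u y y' < ∞) :
    ∃ m : ℕ, ∀ j, m ≤ j → En (n + 1) (closedBall z0 (R / 2)) ((1 / 2) ^ j) (2 ^ j / (j + 1)) u := by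
  classical
  have hn1 : 1 ≤ n := by omega
  have hn2 : (2 : ℝ) ≤ n := by exact_mod_cast hn
  have hq0 : 0 < q := by linarith
  have hm0 : 0 < min q ((n : ℝ) + 1) := lt_min hq0 (by linarith)
  have hs0 : 0 < s := by
    by_contra h
    push Not at h
    have : s * min q ((n : ℝ) + 1) ≤ 0 := mul_nonpos_of_nonpos_of_nonneg h hm0.le
    linarith
  have hsq : (n : ℝ) - 1 < s * q :=
    lt_of_lt_of_le hs (mul_le_mul_of_nonneg_left (min_le_left _ _) hs0.le)
  obtain ⟨C, hCt, hC⟩ := osc_frac (n := n) hn1 hq hsq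
  set B : Set (E n) := ball z0 R with hB
  have hBm : MeasurableSet B := measurableSet_ball
  obtain ⟨v, hv⟩ : ∃ v : E n → E n, v = B.piecewise u (fun _ => 0) := ⟨_, rfl⟩
  have hvm : Measurable v := by
    rw [hv]
    exact (u.continuousOn.mono hsrc).measurable_piecewise continuousOn_const hBm
  have hve : ∀ y ∈ B, v y = u y := by
    intro y hy
    rw [hv]
    exact piecewise_eq_of_mem _ _ _ hy
  obtain ⟨K, hK⟩ : ∃ K : E n → E n → ℝ≥0∞, K = Ker q ((n : ℝ) + s * q) v := ⟨_, rfl⟩
  have hKm : Measurable (Function.uncurry K) := by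
    rw [hK]
    have h1 : Measurable (Function.uncurry fun y y' : E n => edist (v y) (v y') ^ q) :=
      ((hvm.comp measurable_fst).edist (hvm.comp measurable_snd)).pow_const q
    exact h1.div ((measurable_fst.edist measurable_snd).pow_const _)
  obtain ⟨F, hF⟩ : ∃ F : E n → ℝ≥0∞, F = fun y => ∫⁻ y' in B, K y y' := ⟨_, rfl⟩
  have hFm : Measurable F := by
    rw [hF]
    exact hKm.lintegral_prod_right'
  have hFfin : ∫⁻ y in B, F y < ∞ := by
    refine lt_of_le_of_lt (le_of_eq ?_) hfin
    refine setLIntegral_congr_fun hBm fun y hy => ?_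
    rw [hF]
    refine setLIntegral_congr_fun hBm fun y' hy' => ?_
    simp only [hK, Ker]
    rw [hve y hy, hve y' hy']
  set J : ℝ := (∫⁻ y in B, F y).toReal with hJ
  have hJ0 : 0 ≤ J := ENNReal.toReal_nonneg
  have hJe : ∫⁻ y in B, F y = ENNReal.ofReal J := (ENNReal.ofReal_toReal hFfin.ne).symm
  set c : ℝ := C.toReal with hc
  have hc0 : 0 ≤ c := ENNReal.toReal_nonneg
  have hce : C = ENNReal.ofReal c := (ENNReal.ofReal_toReal hCt).symm
  -- one radius
  set D1 : ℝ := c * 7 ^ n * J with hD1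
  have hD10 : 0 ≤ D1 := by positivity
  have hone : ∀ r : ℝ, 0 < r → r ≤ R / 12 → ∀ (A : Finset (E n)) (x y : E n → E n),
      (∀ a ∈ A, a ∈ closedBall z0 (R / 2) ∧ dist (x a) a ≤ r ∧ dist (y a) a ≤ r) →
      (∀ a ∈ A, ∀ a' ∈ A, a ≠ a' → r ≤ dist a a') →
      ∑ a ∈ A, dist (u (x a)) (u (y a)) ^ q ≤ D1 * r ^ (s * q - n) := by
    intro r hr hrR A x y h1 hsep
    have hsub : ∀ a ∈ A, closedBall a (3 * r) ⊆ B := by
      intro a ha z hz
      have h3 := (h1 a ha).1
      rw [mem_closedBall] at h3 hz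
      rw [hB, mem_ball]
      have h4 := dist_triangle z a z0
      linarith
    have hMz : ∀ z : E n, ((A.filter fun a => z ∈ closedBall a (3 * r)).card : ℝ≥0∞) ≤
        ENNReal.ofReal (7 ^ n) := by
      intro z
      rw [← ENNReal.ofReal_natCast]
      apply ENNReal.ofReal_le_ofReal
      have := Pool.Agent.Y662.SP.SOB.pack z hr (R := 3 * r) (by positivity)
        (A.filter fun a => z ∈ closedBall a (3 * r))
        (fun a ha => by
          have := (Finset.mem_filter.1 ha).2
          rw [mem_closedBall] at this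
          rw [dist_comm]; exact this)
        (fun a ha b hb hab => hsep a (Finset.mem_filter.1 ha).1 b (Finset.mem_filter.1 hb).1 hab)
      refine this.trans (le_of_eq ?_)
      congr 1
      field_simp
      ring
    have hov : ∑ a ∈ A, ∫⁻ z in closedBall a (3 * r), F z ≤
        ENNReal.ofReal (7 ^ n) * ∫⁻ z in B, F z := by
      have hsub2 : ∀ a ∈ A, closedBall a (3 * r) ⊆ closedBall z0 (3 * R / 4) := by
        intro a ha z hz
        have h3 := (h1 a ha).1
        rw [mem_closedBall] at h3 hz ⊢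
        have h4 := dist_triangle z a z0
        linarith
      refine (overlap' hFm A hsub2 hMz).trans ?_
      gcongr
      rw [hB]
      exact closedBall_subset_ball (by linarith)
    have hterm : ∀ a ∈ A, ENNReal.ofReal (dist (u (x a)) (u (y a)) ^ q) ≤
        C * (ENNReal.ofReal (r ^ (s * q - n)) * ∫⁻ z in closedBall a (3 * r), F z) := by
      intro a ha
      obtain ⟨-, hxa, hya⟩ := h1 a ha
      have hcv : ContinuousOn v (closedBall a (3 * r)) :=
        (u.continuousOn.mono ((hsub a ha).trans hsrc)).congr fun z hz => hve z (hsub a ha hz)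
      obtain ⟨t, ht, htt⟩ := hC r hr a v hvm hcv
      have hts : closedBall a t ⊆ closedBall a (3 * r) :=
        closedBall_subset_closedBall (by linarith [ht.2])
      obtain ⟨z, z', hz, hz', hfar⟩ := sphere_far hn1 u (t := t) (by linarith [ht.1])
        ((hts.trans (hsub a ha)).trans hsrc)
      have h2 := hfar (x a) (mem_closedBall.2 (by linarith [ht.1])) (y a)
        (mem_closedBall.2 (by linarith [ht.1]))
      have h3 := htt z z' hz hz'
      rw [hve z (hsub a ha (hts (mem_closedBall.2 hz.le))),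
        hve z' (hsub a ha (hts (mem_closedBall.2 hz'.le)))] at h3
      calc ENNReal.ofReal (dist (u (x a)) (u (y a)) ^ q)
          ≤ ENNReal.ofReal (dist (u z) (u z') ^ q) := by gcongr
        _ = edist (u z) (u z') ^ q := by
            rw [edist_dist, ENNReal.ofReal_rpow_of_nonneg dist_nonneg hq0.le]
        _ ≤ _ := h3
        _ ≤ _ := by
            refine mul_le_mul' le_rfl (mul_le_mul' le_rfl ?_)
            calc ∫⁻ y in ball a (3 * r), ∫⁻ y' in ball a (3 * r), Ker q ((n : ℝ) + s * q) v y y'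
                ≤ ∫⁻ y in closedBall a (3 * r), ∫⁻ y' in ball a (3 * r),
                  Ker q ((n : ℝ) + s * q) v y y' := lintegral_mono_set ball_subset_closedBall
              _ ≤ ∫⁻ y in closedBall a (3 * r), F y := by
                  refine lintegral_mono fun y => ?_
                  simp only [hF, hK]
                  exact lintegral_mono_set (ball_subset_closedBall.trans (hsub a ha))
    have hsum : ENNReal.ofReal (∑ a ∈ A, dist (u (x a)) (u (y a)) ^ q) ≤
        ENNReal.ofReal (D1 * r ^ (s * q - n)) := by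
      rw [ENNReal.ofReal_sum_of_nonneg (fun a _ => Real.rpow_nonneg dist_nonneg _)]
      calc ∑ a ∈ A, ENNReal.ofReal (dist (u (x a)) (u (y a)) ^ q)
          ≤ ∑ a ∈ A, C * (ENNReal.ofReal (r ^ (s * q - n)) *
            ∫⁻ z in closedBall a (3 * r), F z) := Finset.sum_le_sum hterm
        _ = C * (ENNReal.ofReal (r ^ (s * q - n)) *
            ∑ a ∈ A, ∫⁻ z in closedBall a (3 * r), F z) := by
            rw [Finset.mul_sum, Finset.mul_sum]
        _ ≤ C * (ENNReal.ofReal (r ^ (s * q - n)) * (ENNReal.ofReal (7 ^ n) *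
            ENNReal.ofReal J)) := by
            rw [← hJe]
            gcongr
        _ = _ := by
            rw [hce, ← ENNReal.ofReal_mul (by positivity), ← ENNReal.ofReal_mul (by positivity),
              ← ENNReal.ofReal_mul (by positivity)]
            congr 1
            rw [hD1]
            ring
    exact (ENNReal.ofReal_le_ofReal_iff (by positivity)).1 hsum
  -- a bound for the distances
  have hcomp : IsCompact (u '' closedBall z0 (R / 2)) :=
    (isCompact_closedBall _ _).image_of_continuousOn (u.continuousOn.mono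
      ((closedBall_subset_ball (by linarith)).trans hsrc))
  set D : ℝ := Metric.diam (u '' closedBall z0 (R / 2)) with hD
  have hD0 : 0 ≤ D := diam_nonneg
  have hdD : ∀ x ∈ closedBall z0 (R / 2), ∀ y ∈ closedBall z0 (R / 2), dist (u x) (u y) ≤ D :=
    fun x hx y hy => dist_le_diam_of_mem hcomp.isBounded (mem_image_of_mem _ hx)
      (mem_image_of_mem _ hy)
  -- the exponent
  obtain ⟨δ, hδ⟩ : ∃ δ : ℝ, δ = s * min q (n + 1) - (n - 1) := ⟨_, rfl⟩
  have hδ0 : 0 < δ := by rw [hδ]; linarith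
  obtain ⟨C2, hC2⟩ : ∃ C2 : ℝ, ∀ r : ℝ, 0 < r → r ≤ R / 12 →
      En (n + 1) (closedBall z0 (R / 2)) r (C2 * r ^ (δ - 1)) u := by
    rcases le_total q ((n : ℝ) + 1) with hqn | hqn
    · refine ⟨D ^ ((n : ℝ) + 1 - q) * D1, fun r hr hrR A x y h1 hsep => ?_⟩
      have h2 := hone r hr hrR A x y (fun a ha => ⟨(h1 a ha).1, (h1 a ha).2.2.2.1,
        (h1 a ha).2.2.2.2⟩) hsep
      have hterm : ∀ a ∈ A, dist (u (x a)) (u (y a)) ^ (n + 1) ≤
          D ^ ((n : ℝ) + 1 - q) * dist (u (x a)) (u (y a)) ^ q := by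
        intro a ha
        have h3 := hdD _ (h1 a ha).2.1 _ (h1 a ha).2.2.1
        rcases (dist_nonneg (x := u (x a)) (y := u (y a))).eq_or_lt with h0 | h0
        · rw [← h0, Real.zero_rpow hq0.ne', mul_zero, zero_pow (by omega)]
        · have e : dist (u (x a)) (u (y a)) ^ (n + 1) =
              dist (u (x a)) (u (y a)) ^ ((n : ℝ) + 1 - q) * dist (u (x a)) (u (y a)) ^ q := by
            rw [← Real.rpow_add h0, sub_add_cancel, ← Real.rpow_natCast]
            push_cast
            rfl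
          rw [e]
          exact mul_le_mul_of_nonneg_right (Real.rpow_le_rpow h0.le h3 (by linarith))
            (Real.rpow_nonneg h0.le _)
      calc ∑ a ∈ A, dist (u (x a)) (u (y a)) ^ (n + 1)
          ≤ ∑ a ∈ A, D ^ ((n : ℝ) + 1 - q) * dist (u (x a)) (u (y a)) ^ q :=
            Finset.sum_le_sum hterm
        _ = D ^ ((n : ℝ) + 1 - q) * ∑ a ∈ A, dist (u (x a)) (u (y a)) ^ q := by
            rw [Finset.mul_sum]
        _ ≤ D ^ ((n : ℝ) + 1 - q) * (D1 * r ^ (s * q - n)) := by gcongr
        _ = _ := by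
            rw [hδ, min_eq_left hqn]
            rw [show s * q - ((n : ℝ) - 1) - 1 = s * q - n by ring]
            ring
    · refine ⟨(R + 1 + R / 12) ^ n + D1, fun r hr hrR A x y h1 hsep => ?_⟩
      have h2 := hone r hr hrR A x y (fun a ha => ⟨(h1 a ha).1, (h1 a ha).2.2.2.1,
        (h1 a ha).2.2.2.2⟩) hsep
      have hcard : (A.card : ℝ) ≤ (R + 1 + R / 12) ^ n * r ^ (-(n : ℝ)) := by
        have h3 := Pool.Agent.Y662.SP.SOB.pack z0 hr (R := R / 2) (by positivity) A
          (fun a ha => mem_closedBall.1 (h1 a ha).1) hsep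
        refine h3.trans ?_
        have e1 : r ^ (-(n : ℝ)) = (r⁻¹) ^ n := by
          rw [Real.rpow_neg hr.le, Real.rpow_natCast, inv_pow]
        rw [e1, ← mul_pow]
        refine pow_le_pow_left₀ (by positivity) ?_ n
        rw [show 2 * (R / 2) / r + 1 = (R + r) * r⁻¹ by field_simp]
        gcongr
        linarith
      have hl : 0 < r ^ s := Real.rpow_pos_of_pos hr s
      calc ∑ a ∈ A, dist (u (x a)) (u (y a)) ^ (n + 1)
          ≤ ∑ a ∈ A, ((r ^ s) ^ (n + 1) +
            (r ^ s) ^ ((n : ℝ) + 1 - q) * dist (u (x a)) (u (y a)) ^ q) :=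
            Finset.sum_le_sum fun a _ => pow_cmp dist_nonneg hl hqn
        _ = A.card * (r ^ s) ^ (n + 1) +
            (r ^ s) ^ ((n : ℝ) + 1 - q) * ∑ a ∈ A, dist (u (x a)) (u (y a)) ^ q := by
            rw [Finset.sum_add_distrib, Finset.sum_const, nsmul_eq_mul, Finset.mul_sum]
        _ ≤ ((R + 1 + R / 12) ^ n * r ^ (-(n : ℝ))) * (r ^ s) ^ (n + 1) +
            (r ^ s) ^ ((n : ℝ) + 1 - q) * (D1 * r ^ (s * q - n)) := by gcongr
        _ = _ := by
            have e1 : r ^ (-(n : ℝ)) * (r ^ s) ^ (n + 1) = r ^ (δ - 1) := by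
              rw [← Real.rpow_natCast, ← Real.rpow_mul hr.le, ← Real.rpow_add hr]
              congr 1
              rw [hδ, min_eq_right hqn]
              push_cast
              ring
            have e2 : (r ^ s) ^ ((n : ℝ) + 1 - q) * r ^ (s * q - n) = r ^ (δ - 1) := by
              rw [← Real.rpow_mul hr.le, ← Real.rpow_add hr]
              congr 1
              rw [hδ, min_eq_right hqn]
              ring
            calc ((R + 1 + R / 12) ^ n * r ^ (-(n : ℝ))) * (r ^ s) ^ (n + 1) +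
                  (r ^ s) ^ ((n : ℝ) + 1 - q) * (D1 * r ^ (s * q - n))
                = (R + 1 + R / 12) ^ n * (r ^ (-(n : ℝ)) * (r ^ s) ^ (n + 1)) +
                  D1 * ((r ^ s) ^ ((n : ℝ) + 1 - q) * r ^ (s * q - n)) := by ring
              _ = _ := by rw [e1, e2]; ring
  obtain ⟨m1, hm1⟩ := seq_bound C2 δ hδ0
  have hl4 : Tendsto (fun j : ℕ => (1 / 2 : ℝ) ^ j) atTop (𝓝 0) :=
    tendsto_pow_atTop_nhds_zero_of_lt_one (by norm_num) (by norm_num)
  obtain ⟨m2, hm2⟩ := eventually_atTop.1 (hl4.eventually (gt_mem_nhds (show 0 < R / 12 by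
    positivity)))
  refine ⟨max m1 m2, fun j hj => ?_⟩
  exact en_mono subset_rfl (hm1 j ((le_max_left _ _).trans hj))
    (hC2 _ (by positivity) (hm2 j ((le_max_right _ _).trans hj)).le)

end Pool.Agent.L0h31.HS
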