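import Pool.Agent.L0h31.HS.F3
import Pool.Agent.L0h31.HS.B8

/-!
# Conditions for small energies in the charts
-/

set_option autoImplicit false
set_option linter.unusedSectionVars false

open MeasureTheory Set Metric Filter Topology
open scoped ENNReal NNReal

namespace Pool.Agent.L0h31.HS

open Pool.Agent.Y485.HS Pool.Agent.Y489.SP Pool.Agent.R775.HS Pool.Agent.R775.HC

/-- the map is of fractional Sobolev class `W^{s,q}` near the point -/
def FracAt (n : ℕ) {X : Type} [MetricSpace X] [MeasurableSpace X] [BorelSpace X] (f : X → X)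
    (x : X) : Prop :=
  ∃ W ∈ 𝓝 x, ∃ s q : ℝ, 1 ≤ q ∧ (n : ℝ) - 1 < s * min q (n + 1) ∧
    ∫⁻ a in W, ∫⁻ b in W, edist (f a) (f b) ^ q / edist a b ^ ((n : ℝ) + s * q)
      ∂(Measure.hausdorffMeasure (n : ℝ)) ∂(Measure.hausdorffMeasure (n : ℝ)) < ∞

/-- transfer of integrals, for all functions -/
theorem transfer {n : ℕ} {X : Type} [MetricSpace X] [MeasurableSpace X] [BorelSpace X]
    (φ ψ : OpenPartialHomeomorph X (E n)) (hψ : ∀ y ∈ ψ.target, ψ.symm y = φ.symm y)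
    (hψt : ψ.target ⊆ φ.target) {K : ℝ≥0} (hlip : LipschitzOnWith K φ φ.source) {W : Set X}
    (hW : ∀ y ∈ ψ.target, φ.symm y ∈ W) {c : ℝ≥0}
    (hc : ∀ s : Set (E n), volume s = (c : ℝ≥0∞) * Measure.hausdorffMeasure (n : ℝ) s)
    (f : X → ℝ≥0∞) :
    ∫⁻ y in ψ.target, f (φ.symm y) ≤
      ((c : ℝ≥0∞) * (K : ℝ≥0∞) ^ n) * ∫⁻ a in W, f a ∂(Measure.hausdorffMeasure (n : ℝ)) := by
  set T : Set (E n) := ψ.target with hT
  have hTm : MeasurableSet T := ψ.open_target.measurableSet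
  have hopen : IsOpenEmbedding (T.domRestrict ψ.symm) := ψ.symm.isOpenEmbedding_restrict
  have hemb : MeasurableEmbedding (T.domRestrict ψ.symm) := hopen.measurableEmbedding
  have e1 : ∫⁻ y in T, f (φ.symm y) = ∫⁻ y in T, f (ψ.symm y) :=
    setLIntegral_congr_fun hTm fun y hy => by rw [hψ y hy]
  have e2 : ∫⁻ y in T, f (ψ.symm y) =
      ∫⁻ x, f x ∂(Measure.map (T.domRestrict ψ.symm) (Measure.comap Subtype.val volume)) := by
    rw [hemb.lintegral_map, ← lintegral_subtype_comap hTm]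
    rfl
  rw [e1, e2]
  have hmap : Measure.map (T.domRestrict ψ.symm) (Measure.comap Subtype.val volume) ≤
      ((c : ℝ≥0∞) * (K : ℝ≥0∞) ^ n) • (Measure.hausdorffMeasure (n : ℝ)).restrict W := by
    refine Measure.le_iff.2 fun A hA => ?_
    rw [hemb.map_apply, Measure.smul_apply, Measure.restrict_apply hA, smul_eq_mul,
      (MeasurableEmbedding.subtype_coe hTm).comap_apply]
    have hsub : Subtype.val '' ((T.domRestrict ψ.symm) ⁻¹' A) ⊆ φ '' (A ∩ (W ∩ φ.source)) := by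
      rintro _ ⟨⟨y, hy⟩, hyA, rfl⟩
      have h1 : ψ.symm y ∈ A := hyA
      rw [hψ y hy] at h1
      exact ⟨φ.symm y, ⟨h1, hW y hy, φ.map_target (hψt hy)⟩, φ.right_inv (hψt hy)⟩
    have hh := (hlip.mono
      (fun a ha => ha.2.2 : A ∩ (W ∩ φ.source) ⊆ φ.source)).hausdorffMeasure_image_le
      (d := (n : ℝ)) (Nat.cast_nonneg n)
    calc volume (Subtype.val '' ((T.domRestrict ψ.symm) ⁻¹' A))
        ≤ volume (φ '' (A ∩ (W ∩ φ.source))) := measure_mono hsub
      _ = c * Measure.hausdorffMeasure (n : ℝ) (φ '' (A ∩ (W ∩ φ.source))) := hc _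
      _ ≤ c * ((K : ℝ≥0∞) ^ (n : ℝ) *
          Measure.hausdorffMeasure (n : ℝ) (A ∩ (W ∩ φ.source))) := by gcongr
      _ ≤ c * ((K : ℝ≥0∞) ^ (n : ℝ) * Measure.hausdorffMeasure (n : ℝ) (A ∩ W)) := by
        gcongr
        exact inter_subset_left
      _ = c * (K : ℝ≥0∞) ^ n * Measure.hausdorffMeasure (n : ℝ) (A ∩ W) := by
        rw [ENNReal.rpow_natCast, mul_assoc]
  refine (lintegral_mono' hmap le_rfl).trans (le_of_eq ?_)
  rw [lintegral_smul_measure, smul_eq_mul]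

theorem en_frac_chart {n : ℕ} (hn : 2 ≤ n) {X : Type} [MetricSpace X] [MeasurableSpace X]
    [BorelSpace X] {G : Type} [Group G] [MulAction G X] [ContinuousConstSMul G X] (g : G) {x : X}
    (hS : FracAt n (fun x : X => g • x) x) : EnAt n g x := by
  classical
  intro φ hφ hx hgx
  obtain ⟨L, hbl⟩ := hφ
  obtain ⟨W, hW, s, q, hq, hsq, hfin⟩ := hS
  have hn2 : (2 : ℝ) ≤ n := by exact_mod_cast hn
  have hq0 : 0 < q := by linarith
  have hm0 : 0 < min q ((n : ℝ) + 1) := lt_min hq0 (by linarith)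
  have hs0 : 0 < s := by
    by_contra h
    push Not at h
    have : s * min q ((n : ℝ) + 1) ≤ 0 := mul_nonpos_of_nonpos_of_nonneg h hm0.le
    linarith
  set e : ℝ := (n : ℝ) + s * q with he
  have he0 : 0 < e := by positivity
  obtain ⟨K, hK⟩ : ∃ K : ℝ≥0, K = max (Real.toNNReal L) 1 := ⟨_, rfl⟩
  have hLK : L ≤ (K : ℝ) := by
    rw [hK]
    refine (Real.le_coe_toNNReal L).trans ?_
    exact_mod_cast le_max_left _ _
  have hK1 : 1 ≤ K := by rw [hK]; exact le_max_right _ _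
  have hK0 : (K : ℝ≥0∞) ≠ 0 := by
    rw [Ne, ENNReal.coe_eq_zero]
    exact (lt_of_lt_of_le one_pos hK1).ne'
  have hKt : (K : ℝ≥0∞) ≠ ∞ := ENNReal.coe_ne_top
  have hlip : LipschitzOnWith K φ φ.source := by
    refine LipschitzOnWith.of_dist_le_mul fun a ha b hb => ?_
    exact ((hbl a ha b hb).1).trans (mul_le_mul_of_nonneg_right hLK dist_nonneg)
  have hlip' : LipschitzOnWith K φ.symm φ.target := by
    refine LipschitzOnWith.of_dist_le_mul fun a ha b hb => ?_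
    have h1 := (hbl _ (φ.map_target ha) _ (φ.map_target hb)).2
    rw [φ.right_inv ha, φ.right_inv hb] at h1
    exact h1.trans (mul_le_mul_of_nonneg_right hLK dist_nonneg)
  -- a small ball
  have hv0 : φ x ∈ φ.target := φ.map_source hx
  have hct : ContinuousAt φ.symm (φ x) := φ.continuousAt_symm hv0
  have hleft : φ.symm (φ x) = x := φ.left_inv hx
  have hev : ∀ᶠ v in 𝓝 (φ x), v ∈ φ.target ∧ φ.symm v ∈ W ∧ g • φ.symm v ∈ φ.source := by
    have e1 : ∀ᶠ v in 𝓝 (φ x), v ∈ φ.target := φ.open_target.mem_nhds hv0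
    have e2 : ∀ᶠ v in 𝓝 (φ x), φ.symm v ∈ W := hct.eventually_mem (by rw [hleft]; exact hW)
    have e3 : ContinuousAt (fun v => g • φ.symm v) (φ x) := hct.const_smul g
    have e4 : ∀ᶠ v in 𝓝 (φ x), g • φ.symm v ∈ φ.source :=
      e3.eventually_mem (by simp only [hleft]; exact φ.open_source.mem_nhds hgx)
    exact e1.and (e2.and e4)
  obtain ⟨R, hR, hball⟩ := Metric.eventually_nhds_iff_ball.1 hev
  set z0 : E n := φ x with hz0
  let u : OpenPartialHomeomorph (E n) (E n) :=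
    φ.symm.trans ((Homeomorph.smul g).toOpenPartialHomeomorph.trans φ)
  have hu : ∀ v, u v = φ (g • φ.symm v) := fun v => rfl
  have husrc : ball z0 R ⊆ u.source := by
    intro v hv
    obtain ⟨h1, h2, h3⟩ := hball v hv
    show v ∈ (φ.symm.trans ((Homeomorph.smul g).toOpenPartialHomeomorph.trans φ)).source
    rw [OpenPartialHomeomorph.trans_source]
    refine ⟨h1, ?_⟩
    rw [mem_preimage, OpenPartialHomeomorph.trans_source]
    exact ⟨mem_univ _, h3⟩
  let ψ : OpenPartialHomeomorph X (E n) := (φ.symm.restrOpen (ball z0 R) isOpen_ball).symm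
  have hψt : ψ.target = ball z0 R := by
    show φ.symm.source ∩ ball z0 R = ball z0 R
    exact inter_eq_right.2 fun v hv => (hball v hv).1
  have hψs : ∀ y, ψ.symm y = φ.symm y := fun y => rfl
  obtain ⟨c, hc⟩ := Pool.Agent.Y858.HS.vol_haus n
  have htr : ∀ f : X → ℝ≥0∞, ∫⁻ y in ball z0 R, f (φ.symm y) ≤
      ((c : ℝ≥0∞) * (K : ℝ≥0∞) ^ n) * ∫⁻ a in W, f a ∂(Measure.hausdorffMeasure (n : ℝ)) := by
    intro f
    have h := transfer φ ψ (fun y _ => hψs y) (by rw [hψt]; exact fun v hv => (hball v hv).1)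
      hlip (W := W) (by rw [hψt]; exact fun v hv => (hball v hv).2.1) hc f
    rwa [hψt] at h
  set M : ℝ≥0∞ := (c : ℝ≥0∞) * (K : ℝ≥0∞) ^ n with hM
  have hMt : M ≠ ∞ := ENNReal.mul_ne_top ENNReal.coe_ne_top (ENNReal.pow_ne_top hKt)
  have hker : ∀ y ∈ ball z0 R, ∀ y' ∈ ball z0 R, Ker q e u y y' ≤ (K : ℝ≥0∞) ^ q *
      (K : ℝ≥0∞) ^ e * (edist (g • φ.symm y) (g • φ.symm y') ^ q /
        edist (φ.symm y) (φ.symm y') ^ e) := by
    intro y hy y' hy'
    obtain ⟨v1, v2, v3⟩ := hball y hy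
    obtain ⟨w1, w2, w3⟩ := hball y' hy'
    have h1 := hlip v3 w3
    have h3 := hlip' v1 w1
    have hKe0 : (K : ℝ≥0∞) ^ e ≠ 0 := by
      intro h0
      rcases ENNReal.rpow_eq_zero_iff.1 h0 with ⟨h4, -⟩ | ⟨h4, -⟩
      · exact hK0 h4
      · exact hKt h4
    have hKet : (K : ℝ≥0∞) ^ e ≠ ∞ := ENNReal.rpow_ne_top_of_nonneg he0.le hKt
    rw [Ker, hu, hu]
    have h4 : edist (φ (g • φ.symm y)) (φ (g • φ.symm y')) ^ q ≤
        (K : ℝ≥0∞) ^ q * edist (g • φ.symm y) (g • φ.symm y') ^ q := by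
      rw [← ENNReal.mul_rpow_of_nonneg _ _ hq0.le]
      exact ENNReal.rpow_le_rpow h1 hq0.le
    have h5 : edist (φ.symm y) (φ.symm y') ^ e / (K : ℝ≥0∞) ^ e ≤ edist y y' ^ e := by
      refine ENNReal.div_le_of_le_mul' ?_
      rw [← ENNReal.mul_rpow_of_nonneg _ _ he0.le]
      exact ENNReal.rpow_le_rpow h3 he0.le
    calc edist (φ (g • φ.symm y)) (φ (g • φ.symm y')) ^ q / edist y y' ^ e
        ≤ ((K : ℝ≥0∞) ^ q * edist (g • φ.symm y) (g • φ.symm y') ^ q) /
          (edist (φ.symm y) (φ.symm y') ^ e / (K : ℝ≥0∞) ^ e) := ENNReal.div_le_div h4 h5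
      _ = _ := by
          rw [div_eq_mul_inv, ENNReal.inv_div (Or.inl hKet) (Or.inl hKe0), div_eq_mul_inv,
            div_eq_mul_inv]
          ring
  have hfinal : ∫⁻ y in ball z0 R, ∫⁻ y' in ball z0 R, Ker q e u y y' < ∞ := by
    set G : X → X → ℝ≥0∞ := fun a b => edist (g • a) (g • b) ^ q / edist a b ^ e with hG
    have hKKt : (K : ℝ≥0∞) ^ q * (K : ℝ≥0∞) ^ e ≠ ∞ :=
      ENNReal.mul_ne_top (ENNReal.rpow_ne_top_of_nonneg hq0.le hKt)
        (ENNReal.rpow_ne_top_of_nonneg he0.le hKt)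
    calc ∫⁻ y in ball z0 R, ∫⁻ y' in ball z0 R, Ker q e u y y'
        ≤ ∫⁻ y in ball z0 R, ∫⁻ y' in ball z0 R, (K : ℝ≥0∞) ^ q * (K : ℝ≥0∞) ^ e *
            G (φ.symm y) (φ.symm y') :=
          setLIntegral_mono' measurableSet_ball fun y hy =>
            setLIntegral_mono' measurableSet_ball fun y' hy' => hker y hy y' hy'
      _ = (K : ℝ≥0∞) ^ q * (K : ℝ≥0∞) ^ e * ∫⁻ y in ball z0 R, ∫⁻ y' in ball z0 R,
            G (φ.symm y) (φ.symm y') := by
          rw [← lintegral_const_mul' _ _ hKKt]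
          refine lintegral_congr fun y => ?_
          rw [← lintegral_const_mul' _ _ hKKt]
      _ ≤ (K : ℝ≥0∞) ^ q * (K : ℝ≥0∞) ^ e * ∫⁻ y in ball z0 R, M *
            ∫⁻ b in W, G (φ.symm y) b ∂(Measure.hausdorffMeasure (n : ℝ)) := by
          gcongr with y
          exact htr fun b => G (φ.symm y) b
      _ = (K : ℝ≥0∞) ^ q * (K : ℝ≥0∞) ^ e * (M * ∫⁻ y in ball z0 R,
            ∫⁻ b in W, G (φ.symm y) b ∂(Measure.hausdorffMeasure (n : ℝ))) := by
          rw [lintegral_const_mul' _ _ hMt]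
      _ ≤ (K : ℝ≥0∞) ^ q * (K : ℝ≥0∞) ^ e * (M * (M * ∫⁻ a in W,
            ∫⁻ b in W, G a b ∂(Measure.hausdorffMeasure (n : ℝ))
              ∂(Measure.hausdorffMeasure (n : ℝ)))) := by
          gcongr
          exact htr fun a => ∫⁻ b in W, G a b ∂(Measure.hausdorffMeasure (n : ℝ))
      _ < ∞ := ENNReal.mul_lt_top hKKt.lt_top (ENNReal.mul_lt_top hMt.lt_top
          (ENNReal.mul_lt_top hMt.lt_top hfin))
  obtain ⟨m, hm⟩ := en_frac hn u hq hsq hR husrc hfinal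
  refine ⟨R / 2, by positivity, m, 1, fun j hj => ?_⟩
  have := hm j hj
  rw [Nat.cast_one, one_mul]
  exact this

/-- bounded distances -/
theorem en_of_ener {n : ℕ} {Q : Set (E n)} {r b : ℝ} {f : E n → E n}
    (hQ : ∀ x ∈ Q, ∀ y ∈ Q, dist (f x) (f y) ≤ 1) (h : Ener Q r b f) : En (n + 1) Q r b f := by
  intro A x y h1 h2
  refine le_trans (Finset.sum_le_sum fun a ha => ?_) (h A x y h1 h2)
  rw [pow_succ]
  have h3 := hQ _ (h1 a ha).2.1 _ (h1 a ha).2.2.1
  exact mul_le_of_le_one_right (by positivity) h3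

theorem en_sob_chart {n : ℕ} (hn : 2 ≤ n) {X : Type} [MetricSpace X] [MeasurableSpace X]
    [BorelSpace X] {G : Type} [Group G] [MulAction G X] [ContinuousConstSMul G X] (g : G) {x : X}
    (hS : SobAt0 n (fun x : X => g • x) x) : EnAt n g x := by
  intro φ hφ hx hgx
  obtain ⟨ρ, hρ, m, hm⟩ := ener_at0 hn hφ g hx hgx hS
  have hcont : ContinuousAt (fun v => φ (g • φ.symm v)) (φ x) := by
    have hv0 : φ x ∈ φ.target := φ.map_source hx
    have hct : ContinuousAt φ.symm (φ x) := φ.continuousAt_symm hv0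
    have hleft : φ.symm (φ x) = x := φ.left_inv hx
    have h1 : ContinuousAt (fun v => g • φ.symm v) (φ x) := hct.const_smul g
    exact ContinuousAt.comp (f := fun v => g • φ.symm v) (g := φ)
      (by simp only [hleft]; exact φ.continuousAt hgx) h1
  obtain ⟨ρ', hρ', hb⟩ := (nhds_basis_closedBall.mem_iff).1
    (hcont (closedBall_mem_nhds (φ (g • φ.symm (φ x))) (show (0 : ℝ) < 1 / 2 by norm_num)))
  refine ⟨min ρ ρ', lt_min hρ hρ', m, 1, fun j hj => ?_⟩
  rw [Nat.cast_one, one_mul]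
  refine en_of_ener ?_ (ener_mono (closedBall_subset_closedBall (min_le_left _ _)) le_rfl (hm j hj))
  intro v hv w hw
  have h1 := hb (closedBall_subset_closedBall (min_le_right _ _) hv)
  have h2 := hb (closedBall_subset_closedBall (min_le_right _ _) hw)
  rw [mem_preimage, mem_closedBall] at h1 h2
  have h3 := dist_triangle_right (φ (g • φ.symm v)) (φ (g • φ.symm w)) (φ (g • φ.symm (φ x)))
  linarith

/-- the map has small images of balls near the point, with the exponent `n + 1` -/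
def SmallAt' (n : ℕ) {X : Type} [MetricSpace X] (f : X → X) (x : X) : Prop :=
  ∃ W ∈ 𝓝 x, IsCompact W ∧ ∀ c : ℕ, ∃ N : ℕ, ∀ r : ℝ, 0 < r → r ≤ 1 → ∀ A : Finset X,
    (∀ a ∈ A, a ∈ W) → (∀ a ∈ A, ∀ b ∈ A, a ≠ b → r ≤ dist a b) →
    ∑ a ∈ A, Metric.diam (f '' (closedBall a (c * r) ∩ W)) ^ (n + 1) ≤
      N * r ^ (1 / (N : ℝ) - 1)

theorem en_small_chart {n : ℕ} {X : Type} [MetricSpace X]
    {G : Type} [Group G] [MulAction G X] [ContinuousConstSMul G X] (g : G) {x : X}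
    (hS : SmallAt' n (fun x : X => g • x) x) : EnAt n g x := by
  classical
  intro φ hφ hx hgx
  obtain ⟨L, hbl⟩ := hφ
  obtain ⟨W, hW, hWc, hWE⟩ := hS
  obtain ⟨K, hK⟩ : ∃ K : ℝ, K = max L 1 := ⟨_, rfl⟩
  have hLK : L ≤ K := by rw [hK]; exact le_max_left _ _
  have hK1 : 1 ≤ K := by rw [hK]; exact le_max_right _ _
  have hK0 : 0 < K := by linarith
  have hlip : ∀ a ∈ φ.source, ∀ b ∈ φ.source, dist (φ a) (φ b) ≤ K * dist a b :=
    fun a ha b hb => ((hbl a ha b hb).1).trans (mul_le_mul_of_nonneg_right hLK dist_nonneg)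
  have hlip' : ∀ a ∈ φ.target, ∀ b ∈ φ.target, dist (φ.symm a) (φ.symm b) ≤ K * dist a b := by
    intro a ha b hb
    have h1 := (hbl _ (φ.map_target ha) _ (φ.map_target hb)).2
    rw [φ.right_inv ha, φ.right_inv hb] at h1
    exact h1.trans (mul_le_mul_of_nonneg_right hLK dist_nonneg)
  have hv0 : φ x ∈ φ.target := φ.map_source hx
  have hct : ContinuousAt φ.symm (φ x) := φ.continuousAt_symm hv0
  have hleft : φ.symm (φ x) = x := φ.left_inv hx
  have hev : ∀ᶠ v in 𝓝 (φ x), v ∈ φ.target ∧ φ.symm v ∈ W ∧ g • φ.symm v ∈ φ.source := by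
    have e1 : ∀ᶠ v in 𝓝 (φ x), v ∈ φ.target := φ.open_target.mem_nhds hv0
    have e2 : ∀ᶠ v in 𝓝 (φ x), φ.symm v ∈ W := hct.eventually_mem (by rw [hleft]; exact hW)
    have e3 : ContinuousAt (fun v => g • φ.symm v) (φ x) := hct.const_smul g
    have e4 : ∀ᶠ v in 𝓝 (φ x), g • φ.symm v ∈ φ.source :=
      e3.eventually_mem (by simp only [hleft]; exact φ.open_source.mem_nhds hgx)
    exact e1.and (e2.and e4)
  obtain ⟨ρ, hρ, hball⟩ := (nhds_basis_closedBall.mem_iff).1 hev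
  have hbt : ∀ v ∈ closedBall (φ x) ρ, v ∈ φ.target := fun v hv => (hball hv).1
  obtain ⟨c, hc⟩ := exists_nat_ge (K ^ 2)
  obtain ⟨N, hN⟩ := hWE c
  have hinj : InjOn φ.symm (closedBall (φ x) ρ) := fun a ha b hb hab => by
    rw [← φ.right_inv (hbt a ha), hab, φ.right_inv (hbt b hb)]
  have hone : ∀ r : ℝ, 0 < r → r ≤ 1 → En (n + 1) (closedBall (φ x) ρ) r
      (K ^ (n + 1) * (N * (r / K) ^ (1 / (N : ℝ) - 1))) (fun v => φ (g • φ.symm v)) := by
    intro r hr0 hr1 A y z h1 hAs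
    have hr' : 0 < r / K := by positivity
    have hr'1 : r / K ≤ 1 := by
      rw [div_le_one hK0]
      linarith
    have hmain := hN (r / K) hr' hr'1 (A.image φ.symm) (by
        intro a ha
        obtain ⟨a0, ha0, rfl⟩ := Finset.mem_image.1 ha
        exact (hball (h1 a0 ha0).1).2.1) (by
        intro a ha b hb hab
        obtain ⟨a0, ha0, rfl⟩ := Finset.mem_image.1 ha
        obtain ⟨b0, hb0, rfl⟩ := Finset.mem_image.1 hb
        have hne : a0 ≠ b0 := fun h => hab (by rw [h])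
        have h3 := hAs a0 ha0 b0 hb0 hne
        have h2 := hlip _ (φ.map_target (hbt _ (h1 a0 ha0).1)) _
          (φ.map_target (hbt _ (h1 b0 hb0).1))
        rw [φ.right_inv (hbt _ (h1 a0 ha0).1), φ.right_inv (hbt _ (h1 b0 hb0).1)] at h2
        rw [div_le_iff₀ hK0]
        linarith)
    rw [Finset.sum_image (fun a ha b hb hab => hinj (h1 a ha).1 (h1 b hb).1 hab)] at hmain
    have hterm : ∀ a ∈ A, dist (φ (g • φ.symm (y a))) (φ (g • φ.symm (z a))) ^ (n + 1) ≤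
        K ^ (n + 1) * Metric.diam ((fun x : X => g • x) ''
          (closedBall (φ.symm a) (c * (r / K)) ∩ W)) ^ (n + 1) := by
      intro a ha
      rw [← mul_pow]
      refine pow_le_pow_left₀ dist_nonneg ?_ (n + 1)
      obtain ⟨ha1, hy1, hz1, hy2, hz2⟩ := h1 a ha
      have hin : ∀ w ∈ closedBall (φ x) ρ, dist w a ≤ r →
          φ.symm w ∈ closedBall (φ.symm a) (c * (r / K)) ∩ W := by
        intro w hw hwa
        refine ⟨?_, (hball hw).2.1⟩
        rw [mem_closedBall]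
        calc dist (φ.symm w) (φ.symm a) ≤ K * dist w a := hlip' _ (hbt w hw) _ (hbt a ha1)
          _ ≤ K * r := by gcongr
          _ = K ^ 2 * (r / K) := by field_simp
          _ ≤ c * (r / K) := by gcongr
      have hbdd : Bornology.IsBounded ((fun x : X => g • x) ''
          (closedBall (φ.symm a) (c * (r / K)) ∩ W)) :=
        ((hWc.image (continuous_const_smul g)).isBounded).subset (image_mono inter_subset_right)
      calc dist (φ (g • φ.symm (y a))) (φ (g • φ.symm (z a)))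
          ≤ K * dist (g • φ.symm (y a)) (g • φ.symm (z a)) :=
            hlip _ (hball hy1).2.2 _ (hball hz1).2.2
        _ ≤ _ := by
          gcongr
          exact dist_le_diam_of_mem hbdd (mem_image_of_mem _ (hin _ hy1 hy2))
            (mem_image_of_mem _ (hin _ hz1 hz2))
    calc ∑ a ∈ A, dist (φ (g • φ.symm (y a))) (φ (g • φ.symm (z a))) ^ (n + 1)
        ≤ ∑ a ∈ A, K ^ (n + 1) * Metric.diam ((fun x : X => g • x) ''
          (closedBall (φ.symm a) (c * (r / K)) ∩ W)) ^ (n + 1) := Finset.sum_le_sum hterm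
      _ = K ^ (n + 1) * ∑ a ∈ A, Metric.diam ((fun x : X => g • x) ''
          (closedBall (φ.symm a) (c * (r / K)) ∩ W)) ^ (n + 1) := by rw [Finset.mul_sum]
      _ ≤ K ^ (n + 1) * (N * (r / K) ^ (1 / (N : ℝ) - 1)) := by gcongr
  set N' : ℕ := ⌈K ^ (n + 1 + 1) * N⌉₊ + 1 with hN'
  have hN'0 : (0 : ℝ) < (N' : ℝ) := by rw [hN']; positivity
  have hbd : ∀ r : ℝ, 0 < r → r ≤ 1 →
      K ^ (n + 1) * (N * (r / K) ^ (1 / (N : ℝ) - 1)) ≤ N' * r ^ (1 / (N' : ℝ) - 1) := by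
    intro r hr0 hr1
    refine (Pool.Agent.Y909.SP.const_aux K r hK1 hr0 hr1 (n + 1) N).trans ?_
    rcases Nat.eq_zero_or_pos ⌈K ^ (n + 1 + 1) * N⌉₊ with h0 | h0
    · rw [h0]
      simp only [Nat.cast_zero, zero_mul]
      positivity
    · have h0' : (0 : ℝ) < (⌈K ^ (n + 1 + 1) * N⌉₊ : ℝ) := by exact_mod_cast h0
      have h1 : (⌈K ^ (n + 1 + 1) * N⌉₊ : ℝ) ≤ (N' : ℝ) := by rw [hN']; push_cast; linarith
      have h2 : r ^ (1 / (⌈K ^ (n + 1 + 1) * N⌉₊ : ℝ) - 1) ≤ r ^ (1 / (N' : ℝ) - 1) := by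
        refine Real.rpow_le_rpow_of_exponent_ge hr0 hr1 ?_
        have := one_div_le_one_div_of_le h0' h1
        linarith
      gcongr
  obtain ⟨m, hm⟩ := seq_bound N' (1 / (N' : ℝ)) (by positivity)
  refine ⟨ρ, hρ, m, 1, fun j hj => ?_⟩
  rw [Nat.cast_one, one_mul]
  have hr1 : ((1 : ℝ) / 2) ^ j ≤ 1 := pow_le_one₀ (by norm_num) (by norm_num)
  exact en_mono subset_rfl ((hbd _ (by positivity) hr1).trans (hm j hj))
    (hone _ (by positivity) hr1)

end Pool.Agent.L0h31.HS
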