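import Pool.Agent.L0h31.HS.B6
import Pool.Agent.L0h31.HS.F4
import Pool.Agent.R775.HS.Fin

/-!
# Cosets with small energies, read in two charts

Adaptation of `Pool/Agent/R775/HS/Some.lean` to sums of the powers `n + 1`.
-/

set_option autoImplicit false
set_option linter.unusedSectionVars false

open MeasureTheory Set Metric Filter Topology TopologicalSpace
open scoped ENNReal NNReal

namespace Pool.Agent.L0h31.HS.SW

open Pool.Agent.Y485.HS Pool.Agent.Y489.SP Pool.Agent.Y475.HS Pool.Agent.R775.HS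
  Pool.Agent.R775.HC Pool.Agent.N512.HS Pool.Agent.N512.CC Pool.Agent.L0h31.HS

section
variable {n : ℕ} {X : Type} [TopologicalSpace X]

/-- the set of the elements with small energies on `B` and with images of `B` in `B'` -/
def Dset {S : Type} [Group S] [MulAction S X] (ψ χ : OpenPartialHomeomorph X (E n))
    (r b : ℕ → ℝ) (B B' : Set (E n)) (m : ℕ) : Set S :=
  {s | (IsCompact (closure B') ∧ closure B' ⊆ χ.target ∧ B ⊆ ψ.target ∧ B.Nonempty ∧ IsOpen B) ∧
    (∀ v ∈ B, s • ψ.symm v ∈ χ.symm '' closure B') ∧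
    ∀ j, m ≤ j → En (n + 1) B (r j) (b j) (fun v => χ (s • ψ.symm v))}

theorem isClosed_Dset [T2Space X] {S : Type} [Group S] [TopologicalSpace S] [MulAction S X]
    [ContinuousSMul S X] (ψ χ : OpenPartialHomeomorph X (E n)) (r b : ℕ → ℝ) (B B' : Set (E n))
    (m : ℕ) : IsClosed (Dset (S := S) ψ χ r b B B' m) := by
  by_cases hc : IsCompact (closure B') ∧ closure B' ⊆ χ.target ∧ B ⊆ ψ.target ∧ B.Nonempty ∧
      IsOpen B
  swap
  · have : Dset (S := S) ψ χ r b B B' m = ∅ := by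
      ext s
      simp only [Dset, mem_ofPred_eq, mem_empty_iff_false, iff_false, not_and]
      intro h
      exact (hc h).elim
    rw [this]
    exact isClosed_empty
  obtain ⟨hc1, hc2, hc3, hc4⟩ := id hc
  set D1 : Set S := {s | ∀ v ∈ B, s • ψ.symm v ∈ χ.symm '' closure B'} with hD1
  have hcl : IsClosed (χ.symm '' closure B') :=
    (hc1.image_of_continuousOn (χ.continuousOn_symm.mono hc2)).isClosed
  have hsrc : χ.symm '' closure B' ⊆ χ.source := by
    rintro _ ⟨v, hv, rfl⟩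
    exact χ.map_target (hc2 hv)
  have hD1c : IsClosed D1 := by
    have h1 : D1 = ⋂ v ∈ B, {s : S | s • ψ.symm v ∈ χ.symm '' closure B'} := by
      ext s
      simp [D1]
    rw [h1]
    refine isClosed_biInter fun v _ => ?_
    have hcont : Continuous (fun s : S => s • ψ.symm v) := by fun_prop
    exact hcl.preimage hcont
  have hcont : ∀ v ∈ B, ContinuousOn (fun s : S => χ (s • ψ.symm v)) D1 := by
    intro v hv
    have h1 : Continuous (fun s : S => s • ψ.symm v) := by fun_prop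
    exact χ.continuousOn.comp h1.continuousOn fun s hs => hsrc (hs v hv)
  have heq : Dset (S := S) ψ χ r b B B' m = D1 ∩ ⋂ (j : ℕ) (_ : m ≤ j) (A : Finset (E n))
      (x : E n → E n) (y : E n → E n)
      (_ : ∀ a ∈ A, a ∈ B ∧ x a ∈ B ∧ y a ∈ B ∧ dist (x a) a ≤ r j ∧ dist (y a) a ≤ r j)
      (_ : ∀ a ∈ A, ∀ a' ∈ A, a ≠ a' → r j ≤ dist a a'),
      (D1 ∩ (fun s : S => ∑ a ∈ A, dist (χ (s • ψ.symm (x a))) (χ (s • ψ.symm (y a))) ^ (n + 1)) ⁻¹'
        Iic (b j)) := by
    ext s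
    simp only [Dset, mem_ofPred_eq, mem_inter_iff, mem_iInter, mem_preimage, mem_Iic, En, hD1]
    constructor
    · rintro ⟨-, h1, h2⟩
      exact ⟨h1, fun j hj A x y h3 h4 => ⟨h1, h2 j hj A x y h3 h4⟩⟩
    · rintro ⟨h1, h2⟩
      exact ⟨hc, h1, fun j hj A x y h3 h4 => (h2 j hj A x y h3 h4).2⟩
  rw [heq]
  refine hD1c.inter ?_
  refine isClosed_iInter fun j => isClosed_iInter fun _ => isClosed_iInter fun A =>
    isClosed_iInter fun x => isClosed_iInter fun y => isClosed_iInter fun h1 =>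
    isClosed_iInter fun _ => ?_
  refine ContinuousOn.preimage_isClosed_of_isClosed ?_ hD1c isClosed_Iic
  refine continuousOn_finsetSum _ fun a ha => ?_
  exact (continuous_dist.comp_continuousOn
    ((hcont _ (h1 a ha).2.1).prodMk (hcont _ (h1 a ha).2.2.1))).pow (n + 1)

theorem exists_Dset {S : Type} [Group S] [TopologicalSpace S] [MulAction S X]
    [ContinuousSMul S X] (ψ χ : OpenPartialHomeomorph X (E n)) {r b : ℕ → ℝ} {s : S} {W : Set X}
    (hWo : IsOpen W) (hWn : W.Nonempty) (hWs : W ⊆ ψ.source) (hsW : ∀ x ∈ W, s • x ∈ χ.source)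
    {m : ℕ} (hE : ∀ j, m ≤ j → En (n + 1) (ψ '' W) (r j) (b j) (fun v => χ (s • ψ.symm v))) :
    ∃ B ∈ countableBasis (E n), ∃ B' ∈ countableBasis (E n), s ∈ Dset ψ χ r b B B' m := by
  obtain ⟨x0, hx0⟩ := hWn
  have hw : χ (s • x0) ∈ χ.target := χ.map_source (hsW x0 hx0)
  obtain ⟨ρ, hρ, hball⟩ := (nhds_basis_closedBall.mem_iff).1 (χ.open_target.mem_nhds hw)
  obtain ⟨B', hB', hwB', hB's⟩ := (isBasis_countableBasis (E n)).mem_nhds_iff.1
    (ball_mem_nhds (χ (s • x0)) hρ)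
  have hclB' : closure B' ⊆ closedBall (χ (s • x0)) ρ :=
    closure_minimal (hB's.trans ball_subset_closedBall) isClosed_closedBall
  have hcomp : IsCompact (closure B') :=
    (isCompact_closedBall _ _).of_isClosed_subset isClosed_closure hclB'
  have hBo' : IsOpen B' := (isBasis_countableBasis (E n)).isOpen hB'
  have hx0s := hWs hx0
  have hv0 : ψ x0 ∈ ψ.target := ψ.map_source hx0s
  have hct : ContinuousAt ψ.symm (ψ x0) := ψ.continuousAt_symm hv0
  have hleft : ψ.symm (ψ x0) = x0 := ψ.left_inv hx0s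
  have h1 : ∀ᶠ v in 𝓝 (ψ x0), v ∈ ψ.target ∧ ψ.symm v ∈ W ∧ χ (s • ψ.symm v) ∈ B' := by
    have e1 : ∀ᶠ v in 𝓝 (ψ x0), v ∈ ψ.target := ψ.open_target.mem_nhds hv0
    have e2 : ∀ᶠ v in 𝓝 (ψ x0), ψ.symm v ∈ W :=
      hct.eventually_mem (by rw [hleft]; exact hWo.mem_nhds hx0)
    have e3 : ContinuousAt (fun v => χ (s • ψ.symm v)) (ψ x0) := by
      have f1 : ContinuousAt (fun v => s • ψ.symm v) (ψ x0) := hct.const_smul s
      refine ContinuousAt.comp (g := χ) (f := fun v => s • ψ.symm v) ?_ f1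
      simp only [hleft]
      exact χ.continuousAt (hsW x0 hx0)
    have e4 : ∀ᶠ v in 𝓝 (ψ x0), χ (s • ψ.symm v) ∈ B' :=
      e3.eventually_mem (by simp only [hleft]; exact hBo'.mem_nhds hwB')
    exact e1.and (e2.and e4)
  obtain ⟨B, hB, hvB, hBs⟩ := (isBasis_countableBasis (E n)).mem_nhds_iff.1 h1
  refine ⟨B, hB, B', hB', ⟨hcomp, hclB'.trans hball, fun v hv => (hBs hv).1, ⟨_, hvB⟩,
    (isBasis_countableBasis (E n)).isOpen hB⟩, ?_, ?_⟩
  · intro v hv
    obtain ⟨f1, f2, f3⟩ := hBs hv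
    exact ⟨_, subset_closure f3, χ.left_inv (hsW _ f2)⟩
  · intro j hj
    refine en_mono (fun v hv => ?_) le_rfl (hE j hj)
    obtain ⟨f1, f2, f3⟩ := hBs hv
    exact ⟨_, f2, ψ.right_inv f1⟩

/-- a coset of a closed subgroup with small energies -/
theorem coset_two (hn : 1 ≤ n) [T2Space X] {S : Type} [Group S] [TopologicalSpace S]
    [IsTopologicalGroup S] [CompactSpace S] [T2Space S] [TotallyDisconnectedSpace S]
    [MulAction S X] [ContinuousSMul S X] {ψ χ : OpenPartialHomeomorph X (E n)} {s1 : S}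
    {r b : ℕ → ℝ} {B B' : Set (E n)} {m : ℕ} (hr : ∀ j, 0 < r j)
    (hrb : Tendsto (fun j => r j * b j) atTop (𝓝 0)) {K : Subgroup S}
    (hKc : IsClosed (K : Set S)) (hD : ∀ k ∈ K, s1 * k ∈ Dset ψ χ r b B B' m) {v1 : E n}
    (hv1 : v1 ∈ B) :
    ∃ K1 : Subgroup K, IsOpen (K1 : Set K) ∧
      ∀ᶠ x in 𝓝 (ψ.symm v1), ∀ k ∈ K1, k • x = x := by
  have : CompactSpace K := isCompact_iff_compactSpace.1 hKc.isCompact
  obtain ⟨⟨hc1, hc2, hc3, hc4, hc5⟩, hc6, hc7⟩ := hD 1 K.one_mem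
  have hsrc : χ.symm '' closure B' ⊆ χ.source := by
    rintro _ ⟨v, hv, rfl⟩
    exact χ.map_target (hc2 hv)
  rw [mul_one] at hc6
  let A : Set (OpenPartialHomeomorph X (E n)) := {φ | φ.source ⊆ ψ.source ∩ ψ ⁻¹' B ∧
    ∃ L : ℝ, 0 ≤ L ∧ ∀ a ∈ φ.source, ∀ a' ∈ φ.source,
      dist (φ a) (φ a') ≤ L * dist (χ (s1 • a)) (χ (s1 • a'))}
  have hA : Stable n A := by
    rintro φ ⟨h1, L, hL0, hL⟩ e ⟨L', hL'⟩
    have hsub : (φ.trans e).source ⊆ φ.source := by
      rw [OpenPartialHomeomorph.trans_source]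
      exact inter_subset_left
    refine ⟨hsub.trans h1, |L'| * L, by positivity, fun a ha a' ha' => ?_⟩
    have ha2 := ha
    have ha2' := ha'
    rw [OpenPartialHomeomorph.trans_source] at ha2 ha2'
    have e1 := (hL' (φ a) ha2.2 (φ a') ha2'.2).1
    have e2 := hL a (hsub ha) a' (hsub ha')
    calc dist ((φ.trans e) a) ((φ.trans e) a') ≤ L' * dist (φ a) (φ a') := e1
      _ ≤ |L'| * dist (φ a) (φ a') := mul_le_mul_of_nonneg_right (le_abs_self _) dist_nonneg
      _ ≤ |L'| * (L * dist (χ (s1 • a)) (χ (s1 • a'))) := by gcongr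
      _ = _ := by ring
  have hO : IsOpen (ψ.source ∩ ψ ⁻¹' B) := ψ.isOpen_inter_preimage hc5
  have hx1 : ψ.symm v1 ∈ RegA A := by
    refine ⟨((Homeomorph.smul s1).toOpenPartialHomeomorph.trans χ).restrOpen _ hO, ⟨?_, 1,
      zero_le_one, ?_⟩, ?_⟩
    · rw [OpenPartialHomeomorph.restrOpen_source]
      exact inter_subset_right
    · intro a _ a' _
      rw [one_mul]
      exact le_of_eq rfl
    · rw [OpenPartialHomeomorph.restrOpen_source, OpenPartialHomeomorph.trans_source]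
      refine ⟨⟨mem_univ _, ?_⟩, ψ.map_target (hc3 hv1), ?_⟩
      · show s1 • ψ.symm v1 ∈ χ.source
        exact hsrc (hc6 v1 hv1)
      · show ψ (ψ.symm v1) ∈ B
        rw [ψ.right_inv (hc3 hv1)]
        exact hv1
  have hcrit : ∀ k : K, CritK A k := by
    intro k p' hp' hkp hcomp φ' hφ' hsm
    obtain ⟨hφs, L, hL0, hL⟩ := hφ'
    refine triv_of_good circ hn hp' hkp hcomp hsm ?_
    have h34 : closedBall (0 : E n) 3 ⊆ closedBall 0 4 :=
      closedBall_subset_closedBall (by norm_num)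
    have ht3 : closedBall (0 : E n) 3 ⊆ φ'.target := h34.trans hsm.1
    have hτs : ∀ v ∈ closedBall (0 : E n) 3, φ'.symm v ∈ φ'.source := fun v hv =>
      φ'.map_target (ht3 hv)
    have hτφ : ∀ v ∈ closedBall (0 : E n) 3, ψ.symm (ψ (φ'.symm v)) = φ'.symm v := fun v hv =>
      ψ.left_inv (hφs (hτs v hv)).1
    -- the coordinates
    obtain ⟨τ, hτ⟩ : ∃ τ : E n → E n, τ = fun v => ψ (φ'.symm v) := ⟨_, rfl⟩
    obtain ⟨σ, hσ⟩ : ∃ σ : E n → E n, σ = fun u => φ' (ψ.symm u) := ⟨_, rfl⟩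
    have hτa : ∀ v, τ v = ψ (φ'.symm v) := fun v => by rw [hτ]
    have hσa : ∀ v, σ v = φ' (ψ.symm v) := fun v => by rw [hσ]
    have hτc : ContinuousOn τ (closedBall 0 3) := by
      rw [hτ]
      exact ψ.continuousOn.comp (φ'.continuousOn_symm.mono ht3) fun v hv => (hφs (hτs v hv)).1
    have hστ : ∀ v ∈ closedBall (0 : E n) 3, σ (τ v) = v := by
      intro v hv
      rw [hσa, hτa, hτφ v hv, φ'.right_inv (ht3 hv)]
    have hσc : ContinuousOn σ (τ '' closedBall 0 3) := by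
      rw [hσ]
      refine φ'.continuousOn.comp (ψ.continuousOn_symm.mono ?_) ?_
      · rintro _ ⟨v, hv, rfl⟩
        rw [hτa]
        exact ψ.map_source (hφs (hτs v hv)).1
      · rintro _ ⟨v, hv, rfl⟩
        show ψ.symm (τ v) ∈ φ'.source
        rw [hτa, hτφ v hv]
        exact hτs v hv
    have hval : ∀ u ∈ τ '' closedBall 0 3 ∩ (univ : Set (E n)), u ∈ B ∧ φ'.symm (σ u) = ψ.symm u ∧
        ∀ q : K, q ∈ (Subgroup.zpowers k).topologicalClosure →
          (q : S) • ψ.symm u ∈ φ'.source := by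
      rintro _ ⟨⟨v, hv, rfl⟩, -⟩
      have e1 := hτφ v hv
      rw [hτa]
      refine ⟨(hφs (hτs v hv)).2, ?_, fun q hq => ?_⟩
      · rw [hσa, e1, φ'.left_inv (hτs v hv)]
      · rw [e1]
        exact (hsm.2 q hq v (h34 hv)).1
    have hrb' : Tendsto (fun j => r (j + m) * (L ^ (n + 1) * b (j + m))) atTop (𝓝 0) := by
      have h1 := (tendsto_add_atTop_iff_nat m).2 hrb
      have h2 := h1.const_mul (L ^ (n + 1))
      rw [mul_zero] at h2
      refine h2.congr fun j => ?_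
      ring
    refine good_of_en (H := K) hn hp' hkp hsm hτc hσc hστ (P := univ) isClosed_univ ?_
      (r := fun j => r (j + m)) (b := fun j => L ^ (n + 1) * b (j + m))
      (fun j => hr (j + m)) hrb' ?_
    · -- countability
      convert countable_empty
      ext v
      simp
    · intro q hq j
      refine en_lip hL0 (f := fun v => χ ((s1 * (q : S)) • ψ.symm v)) ?_
        (en_mono (fun u hu => (hval u hu).1) le_rfl ((hD (q : S) q.2).2.2 (j + m) (by omega)))
      intro u hu w hw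
      obtain ⟨-, hu2, hu3⟩ := hval u hu
      obtain ⟨-, hw2, hw3⟩ := hval w hw
      show dist (φ' (q • φ'.symm (σ u))) (φ' (q • φ'.symm (σ w))) ≤ _
      rw [hu2, hw2, mul_smul, mul_smul]
      exact hL _ (hu3 q hq) _ (hw3 q hq)
  exact locTriv3 hA (H := K) hcrit hx1

end

end Pool.Agent.L0h31.HS.SW
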