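import Pool.Agent.L0h31.HS.G1

/-!
# Locally effective actions, some powers of whose elements are regular somewhere
-/

set_option autoImplicit false
set_option linter.unusedSectionVars false

open MeasureTheory Set Metric Filter Topology TopologicalSpace
open scoped ENNReal NNReal

namespace Pool.Agent.L0h31.HS.SW

open Pool.Agent.Y485.HS Pool.Agent.Y489.SP Pool.Agent.Y475.HS Pool.Agent.R775.HS
  Pool.Agent.R775.HC Pool.Agent.N512.HS Pool.Agent.N512.CC Pool.Agent.L0h31.HS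
open Pool.Agent.W660.GY (NSS GY3)

section
variable {n : ℕ} {X : Type} [TopologicalSpace X]

/-- the criterion holds for elements of finite order -/
theorem critK_fin (hn : 1 ≤ n) [T2Space X] {H : Type} [Group H] [TopologicalSpace H]
    [IsTopologicalGroup H] [CompactSpace H] [T2Space H] [TotallyDisconnectedSpace H]
    [MulAction H X] [ContinuousSMul H X] {h : H} (hfin : ∃ m : ℕ, 0 < m ∧ h ^ m = 1)
    (A : Set (OpenPartialHomeomorph X (E n))) : CritK A h := by
  intro p hp hkp hcomp φ _ hsm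
  refine triv_of_good circ hn hp hkp hcomp hsm ?_
  refine good_of_en (H := H) hn hp hkp hsm (τ := id) (σ := id) continuousOn_id continuousOn_id
    (fun v _ => rfl) (P := ∅) isClosed_empty ?_ (r := fun _ => 1) (b := fun _ => 0)
    (fun _ => one_pos) (by simp) ?_
  · have h0 : {x : X | InfOrbit h x} = ∅ := by
      ext x
      simp only [mem_ofPred_eq, mem_empty_iff_false, iff_false]
      intro hx
      obtain ⟨m, hm, he⟩ := hfin
      exact hx m hm (by rw [he, one_smul])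
    rw [h0, closure_empty]
    simp
  · intro k _ j A x y h1 h2
    have : A = ∅ := by
      by_contra hne
      obtain ⟨a, ha⟩ := Finset.nonempty_iff_ne_empty.2 hne
      exact (h1 a ha).1.2
    rw [this]
    simp

/-- the theorem for one compact commutative group -/
theorem one_fin (hn : 1 ≤ n) [T2Space X] (Ψ : ℕ → OpenPartialHomeomorph X (E n))
    {S : Type} [Group S] [TopologicalSpace S] [IsTopologicalGroup S] [CompactSpace S] [T2Space S]
    [TotallyDisconnectedSpace S] [MulAction S X] [ContinuousSMul S X]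
    (hcomm : ∀ a b : S, a * b = b * a) {r' b' : ℕ → ℕ → ℝ}
    (hr' : ∀ k j, 0 < r' k j) (hrb' : ∀ k, Tendsto (fun j => r' k j * b' k j) atTop (𝓝 0))
    (hLE : ∀ (s : S) (i : ℕ) (W : Set X), IsOpen W → W.Nonempty → W ⊆ (Ψ i).source →
      (∀ x ∈ W, s • x = x) → s = 1)
    (hreg : ∀ s : S, ∃ (M i i' k : ℕ) (W : Set X), 0 < M ∧ IsOpen W ∧ W.Nonempty ∧
      W ⊆ (Ψ i).source ∧ (∀ x ∈ W, s ^ M • x ∈ (Ψ i').source) ∧
      ∃ m : ℕ, ∀ j, m ≤ j → En (n + 1) (Ψ i '' W) (r' k j) (b' k j)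
        (fun v => Ψ i' (s ^ M • (Ψ i).symm v))) :
    ∀ s : S, ∃ m : ℕ, 0 < m ∧ s ^ m = 1 := by
  -- Baire
  have hcount : (countableBasis (E n)).Countable := countable_countableBasis (E n)
  have : Countable (countableBasis (E n)) := hcount.to_subtype
  let f : ℕ × (countableBasis (E n)) × (countableBasis (E n)) × ℕ × ℕ × ℕ × ℕ → Set S := fun q =>
    {s | s ^ (q.1 + 1) ∈ Dset (Ψ q.2.2.2.1) (Ψ q.2.2.2.2.1) (r' q.2.2.2.2.2.1)
      (b' q.2.2.2.2.2.1) q.2.1 q.2.2.1 q.2.2.2.2.2.2}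
  have hU : ⋃ q, f q = univ := by
    ext s
    simp only [mem_iUnion, mem_univ, iff_true]
    obtain ⟨M, i, i', k, W, hM, hWo, hWn, hWs, hsW, m, hE⟩ := hreg s
    obtain ⟨B, hB, B', hB', h⟩ := exists_Dset (Ψ i) (Ψ i') hWo hWn hWs hsW hE
    refine ⟨(M - 1, ⟨B, hB⟩, ⟨B', hB'⟩, i, i', k, m), ?_⟩
    show s ^ (M - 1 + 1) ∈ Dset (Ψ i) (Ψ i') (r' k) (b' k) B B' m
    rw [Nat.sub_add_cancel hM]
    exact h
  obtain ⟨⟨M0, ⟨B, hB⟩, ⟨B', hB'⟩, i0, i1, k0, m⟩, s0, hs0⟩ :=
    nonempty_interior_of_iUnion_of_closed (f := f)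
      (fun q => (isClosed_Dset _ _ _ _ _ _ _).preimage (continuous_pow (q.1 + 1))) hU
  obtain ⟨M, hM⟩ : ∃ M, M = M0 + 1 := ⟨_, rfl⟩
  obtain ⟨ψ, hψ⟩ : ∃ ψ, ψ = Ψ i0 := ⟨_, rfl⟩
  obtain ⟨χ, hχ⟩ : ∃ χ, χ = Ψ i1 := ⟨_, rfl⟩
  obtain ⟨r, hrr⟩ : ∃ r, r = r' k0 := ⟨_, rfl⟩
  obtain ⟨b, hbb⟩ : ∃ b, b = b' k0 := ⟨_, rfl⟩
  have hr : ∀ j, 0 < r j := by rw [hrr]; exact hr' k0
  have hrb : Tendsto (fun j => r j * b j) atTop (𝓝 0) := by rw [hrr, hbb]; exact hrb' k0
  have hopen : IsOpen ((fun k : S => s0 * k) ⁻¹'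
      (interior (f (M0, ⟨B, hB⟩, ⟨B', hB'⟩, i0, i1, k0, m)))) :=
    isOpen_interior.preimage (continuous_const.mul continuous_id)
  obtain ⟨N, hN⟩ := ProfiniteGrp.exist_openNormalSubgroup_sub_open_nhds_of_one hopen (by
    rw [mem_preimage, mul_one]; exact hs0)
  have hD0 : ∀ k ∈ N.toSubgroup, (s0 * k) ^ M ∈ Dset ψ χ r b B B' m := fun k hk => by
    have h0 : s0 * k ∈ f (M0, ⟨B, hB⟩, ⟨B', hB'⟩, i0, i1, k0, m) := interior_subset (hN hk)
    rw [hψ, hχ, hrr, hbb, hM]
    exact h0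
  have hNo : IsOpen (N.toSubgroup : Set S) := N.isOpen'
  have hNc : IsClosed (N.toSubgroup : Set S) := Subgroup.isClosed_of_isOpen _ hNo
  have hcp : ∀ a b : S, (a * b) ^ M = a ^ M * b ^ M := fun a b => Commute.mul_pow (hcomm a b) M
  -- the group of the powers
  let K : Subgroup S :=
    { carrier := (fun l : S => l ^ M) '' (N.toSubgroup : Set S)
      mul_mem' := by
        rintro _ _ ⟨l, hl, rfl⟩ ⟨l', hl', rfl⟩
        exact ⟨l * l', N.toSubgroup.mul_mem hl hl', hcp l l'⟩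
      one_mem' := ⟨1, N.toSubgroup.one_mem, one_pow M⟩
      inv_mem' := by
        rintro _ ⟨l, hl, rfl⟩
        exact ⟨l⁻¹, N.toSubgroup.inv_mem hl, inv_pow l M⟩ }
  have hKc : IsClosed (K : Set S) := (hNc.isCompact.image (continuous_pow M)).isClosed
  have hD : ∀ k ∈ K, s0 ^ M * k ∈ Dset ψ χ r b B B' m := by
    rintro _ ⟨l, hl, rfl⟩
    show s0 ^ M * l ^ M ∈ _
    rw [← hcp]
    exact hD0 l hl
  obtain ⟨⟨-, -, hc3, ⟨v1, hv1⟩, -⟩, -, -⟩ := hD 1 K.one_mem
  obtain ⟨K1, hK1o, hK1t⟩ := coset_two hn hr hrb hKc hD hv1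
  have hbot : K1 = ⊥ := by
    rw [eq_bot_iff]
    intro k hk
    rw [Subgroup.mem_bot]
    obtain ⟨W, hW, hWo, hxW⟩ := eventually_nhds_iff.1 hK1t
    have h1 : (k : S) = 1 := by
      refine hLE (k : S) i0 (W ∩ ψ.source) (hWo.inter ψ.open_source)
        ⟨_, hxW, ψ.map_target (hc3 hv1)⟩ (hψ ▸ inter_subset_right) ?_
      intro x hx
      exact hW x hx.1 k hk
    exact Subtype.ext h1
  have hKcomp : CompactSpace K := isCompact_iff_compactSpace.1 hKc.isCompact
  have hdis : DiscreteTopology K := by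
    rw [hbot] at hK1o
    refine discreteTopology_of_isOpen_singleton_one ?_
    convert hK1o using 1
    ext x
    simp
  have hKfin : Finite K := finite_of_compact_of_discrete
  have hfi : Finite (S ⧸ N.toSubgroup) := Subgroup.quotient_finite_of_isOpen _ hNo
  have hidx : N.toSubgroup.index ≠ 0 := by
    rw [Subgroup.index]
    exact Nat.card_pos.ne'
  intro s
  have h1 : s ^ N.toSubgroup.index ∈ N.toSubgroup := by
    have : N.toSubgroup.Normal := N.isNormal'
    exact Subgroup.pow_index_mem _ s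
  have h2 : (s ^ N.toSubgroup.index) ^ M ∈ K := ⟨_, h1, rfl⟩
  obtain ⟨m', hm', he⟩ := (isOfFinOrder_iff_pow_eq_one).1
    (isOfFinOrder_of_finite (⟨_, h2⟩ : K))
  refine ⟨N.toSubgroup.index * M * m', ?_, ?_⟩
  · have : 0 < M := by omega
    have h3 : 0 < N.toSubgroup.index := Nat.pos_of_ne_zero hidx
    positivity
  · rw [pow_mul, pow_mul]
    exact congrArg Subtype.val he

/-- the theorem for locally compact groups -/
theorem lie_some' (hn : 1 ≤ n) [T2Space X] (Ψ : ℕ → OpenPartialHomeomorph X (E n))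
    {G : Type} [Group G] [TopologicalSpace G] [IsTopologicalGroup G] [LocallyCompactSpace G]
    [T2Space G] [MulAction G X] [ContinuousSMul G X] {V : Set G} (hV : V ∈ 𝓝 (1 : G))
    (hLE : ∀ g, SmallPow V g → ∀ (i : ℕ) (W : Set X), IsOpen W → W.Nonempty → W ⊆ (Ψ i).source →
      (∀ x ∈ W, g • x = x) → g = 1)
    {r b : ℕ → ℕ → ℝ} (hr : ∀ k j, 0 < r k j)
    (hrb : ∀ k, Tendsto (fun j => r k j * b k j) atTop (𝓝 0))
    (hreg : ∀ g, SmallPow V g → ∃ (M i i' k : ℕ) (W : Set X), 0 < M ∧ IsOpen W ∧ W.Nonempty ∧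
      W ⊆ (Ψ i).source ∧ (∀ x ∈ W, g ^ M • x ∈ (Ψ i').source) ∧
      ∃ m : ℕ, ∀ j, m ≤ j → En (n + 1) (Ψ i '' W) (r k j) (b k j)
        (fun v => Ψ i' (g ^ M • (Ψ i).symm v))) :
    IsLie G := by
  have hN : NSS G := by
    refine nss_of_Z V hV ?_
    intro S _ _ _ _ _ _ i hi hinj hiV
    let _ : MulAction S X := MulAction.compHom X i
    have _ : ContinuousSMul S X := ⟨by
      have h : Continuous (fun q : S × X => i q.1 • q.2) := by fun_prop
      exact h⟩
    have hsm : ∀ s : S, SmallPow V (i s) := smallPow_of_hom i hi hiV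
    have hLE' : ∀ (s : S) (i : ℕ) (W : Set X), IsOpen W → W.Nonempty → W ⊆ (Ψ i).source →
        (∀ x ∈ W, s • x = x) → s = 1 := by
      intro s i0 W hWo hWn hWs h
      apply hinj
      rw [map_one]
      exact hLE (i s) (hsm s) i0 W hWo hWn hWs h
    have hfin : ∀ s : S, ∃ m : ℕ, 0 < m ∧ s ^ m = 1 := by
      intro s
      set D : Subgroup S := (Subgroup.zpowers s).topologicalClosure with hD
      have hDc : IsClosed (D : Set S) := Subgroup.isClosed_topologicalClosure _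
      have : CompactSpace D := isCompact_iff_compactSpace.1 hDc.isCompact
      have hcomm : ∀ a b : D, a * b = b * a := by
        let _ : CommGroup D := Subgroup.commGroupTopologicalClosure (Subgroup.zpowers s)
          (by
            rintro ⟨_, a, rfl⟩ ⟨_, b, rfl⟩
            exact Subtype.ext ((Commute.refl s).zpow_zpow a b))
        exact fun a b => mul_comm a b
      have h := one_fin (S := D) hn Ψ hcomm hr hrb ?_ ?_
      · obtain ⟨m, hm, he⟩ := h ⟨s, Subgroup.le_topologicalClosure _ (Subgroup.mem_zpowers s)⟩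
        exact ⟨m, hm, congrArg Subtype.val he⟩
      · intro d i0 W hWo hWn hWs h
        exact Subtype.ext (hLE' (d : S) i0 W hWo hWn hWs h)
      · intro d
        obtain ⟨M, i0, i1, k, W, hM, hWo, hWn, hWs, hgW, m, hE⟩ := hreg (i (d : S)) (hsm _)
        have e1 : ∀ x : X, d ^ M • x = i (d : S) ^ M • x := fun x => by
          rw [← map_pow]
          rfl
        refine ⟨M, i0, i1, k, W, hM, hWo, hWn, hWs, fun x hx => ?_, m, fun j hj => ?_⟩
        · rw [e1]
          exact hgW x hx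
        · have h2 := hE j hj
          simp only [e1]
          exact h2
    obtain ⟨-, i0, -, -, W, -, hWo, ⟨x0, hx0⟩, hWs, -⟩ := hreg (i 1) (hsm 1)
    have hx0' : x0 ∈ RegA (univ : Set (OpenPartialHomeomorph X (E n))) :=
      ⟨Ψ i0, mem_univ _, hWs hx0⟩
    obtain ⟨K, hKo, hKt⟩ := locTriv3 (n := n) (A := univ) (fun φ _ e _ => mem_univ _) (H := S)
      (fun h => critK_fin hn (hfin h) univ) hx0'
    have hbot : K = ⊥ := by
      rw [eq_bot_iff]
      intro k hk
      rw [Subgroup.mem_bot]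
      obtain ⟨W', hW', hWo', hxW'⟩ := eventually_nhds_iff.1 hKt
      refine hLE' k i0 (W' ∩ (Ψ i0).source) (hWo'.inter (Ψ i0).open_source)
        ⟨x0, hxW', hWs hx0⟩ inter_subset_right ?_
      intro x hx
      exact hW' x hx.1 k hk
    rw [hbot] at hKo
    refine discreteTopology_of_isOpen_singleton_one ?_
    convert hKo using 1
    ext x
    simp
  obtain ⟨E, i1, i2, i3, ⟨C⟩⟩ := Pool.Agent.Y328.HS.lga G hN
  let _ := i1
  let _ := i2
  have _ := i3
  exact Pool.Agent.Y286.HS.lgb G E C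

end

end Pool.Agent.L0h31.HS.SW
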