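import Pool.Agent.L0h31.HS.G2

/-!
# Small energies from regularity in charts
-/

set_option autoImplicit false
set_option linter.unusedSectionVars false

open MeasureTheory Set Metric Filter Topology TopologicalSpace
open scoped ENNReal NNReal

namespace Pool.Agent.L0h31.HS.SW

open Pool.Agent.Y485.HS Pool.Agent.Y489.SP Pool.Agent.Y475.HS Pool.Agent.R775.HS
  Pool.Agent.R775.HC Pool.Agent.N512.HS Pool.Agent.N512.CC Pool.Agent.L0h31.HS

/-- pointwise Hölder conditions at the points of a set which is not meagre are uniform somewhere -/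
theorem hol_somewhere {n : ℕ} {O : Set (E n)} (hO : IsOpen O) {f : E n → E n}
    (hf : ContinuousOn f O) {α0 : ℝ} (hα0 : 0 ≤ α0)
    (hH : ¬ IsMeagre {v | v ∈ O ∧ ∃ α C : ℝ, α0 < α ∧
      ∀ᶠ w in 𝓝 v, dist (f w) (f v) ≤ C * dist w v ^ α}) :
    ∃ z ∈ O, ∃ ρ : ℝ, 0 < ρ ∧ ρ ≤ 1 ∧ closedBall z ρ ⊆ O ∧ ∃ α C : ℝ, α0 < α ∧ 0 ≤ C ∧
      ∀ v ∈ closedBall z ρ, ∀ w ∈ closedBall z ρ, dist (f v) (f w) ≤ C * dist v w ^ α := by
  let A : ℕ → Set (E n) := fun N => {v | v ∈ O ∧ ∀ w ∈ O, dist w v < 1 / ((N : ℝ) + 1) →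
    dist (f w) (f v) ≤ ((N : ℝ) + 1) * dist w v ^ (α0 + 1 / ((N : ℝ) + 1))}
  have hAc : ∀ N, ∀ v ∈ O, v ∈ closure (A N) → v ∈ A N := by
    intro N v hv hcl
    refine ⟨hv, fun w hw hwv => ?_⟩
    have : (𝓝[A N] v).NeBot := mem_closure_iff_nhdsWithin_neBot.1 hcl
    have hfv : ContinuousAt f v := hf.continuousAt (hO.mem_nhds hv)
    have hdv : ContinuousAt (fun u : E n => dist w u) v := by fun_prop
    have h1 : ∀ᶠ u in 𝓝[A N] v,
        dist (f w) (f u) ≤ ((N : ℝ) + 1) * dist w u ^ (α0 + 1 / ((N : ℝ) + 1)) := by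
      have h2 : ∀ᶠ u in 𝓝[A N] v, dist w u < 1 / ((N : ℝ) + 1) :=
        nhdsWithin_le_nhds (hdv.eventually_lt continuousAt_const hwv)
      filter_upwards [h2, self_mem_nhdsWithin] with u hu huA
      exact huA.2 w hw hu
    refine le_of_tendsto_of_tendsto (b := 𝓝[A N] v) ?_ ?_ h1
    · exact tendsto_const_nhds.dist (hfv.tendsto.mono_left nhdsWithin_le_nhds)
    · refine Tendsto.mono_left ?_ nhdsWithin_le_nhds
      exact continuousAt_const.mul (hdv.rpow_const (Or.inr (by positivity)))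
  obtain ⟨N, hN⟩ : ∃ N, ¬ IsNowhereDense (A N) := by
    by_contra hcon
    simp only [not_exists, not_not] at hcon
    refine hH (IsMeagre.mono (s := ⋃ N, A N) ?_ (isMeagre_iUnion fun N => (hcon N).isMeagre))
    rintro v ⟨hvO, α, C, hα, hv⟩
    rw [mem_iUnion]
    obtain ⟨δ, hδ, hb⟩ := Metric.eventually_nhds_iff.1 hv
    obtain ⟨N1, hN1⟩ := exists_nat_one_div_lt (sub_pos.2 hα)
    obtain ⟨N2, hN2⟩ := exists_nat_ge C
    obtain ⟨N3, hN3⟩ := exists_nat_one_div_lt hδ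
    obtain ⟨N, hN⟩ : ∃ N, N = max N1 (max N2 N3) := ⟨_, rfl⟩
    have g1 : N1 ≤ N := by rw [hN]; exact le_max_left _ _
    have g2 : N2 ≤ N := by rw [hN]; exact (le_max_left _ _).trans (le_max_right _ _)
    have g3 : N3 ≤ N := by rw [hN]; exact (le_max_right _ _).trans (le_max_right _ _)
    have e1 : 1 / ((N : ℝ) + 1) ≤ 1 / ((N1 : ℝ) + 1) := Nat.one_div_le_one_div g1
    have e3 : 1 / ((N : ℝ) + 1) ≤ 1 / ((N3 : ℝ) + 1) := Nat.one_div_le_one_div g3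
    have e2 : C ≤ (N : ℝ) + 1 := by
      have : (N2 : ℝ) ≤ N := by exact_mod_cast g2
      linarith
    refine ⟨N, hvO, fun w _ hw => ?_⟩
    have h1 := hb (y := w) (by linarith)
    refine h1.trans ?_
    have hd1 : dist w v ≤ 1 := by
      have : 1 / ((N : ℝ) + 1) ≤ 1 := by
        rw [div_le_one (by positivity)]
        have : (0 : ℝ) ≤ N := Nat.cast_nonneg _
        linarith
      linarith
    have h2 : dist w v ^ α ≤ dist w v ^ (α0 + 1 / ((N : ℝ) + 1)) :=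
      Real.rpow_le_rpow_of_exponent_ge' dist_nonneg hd1 (by positivity) (by linarith)
    exact mul_le_mul e2 h2 (Real.rpow_nonneg dist_nonneg _) (by positivity)
  obtain ⟨x0, hx0⟩ := nonempty_iff_ne_empty.2 hN
  obtain ⟨v0, hv0, hv0A⟩ := mem_closure_iff.1 (interior_subset hx0) _ isOpen_interior hx0
  obtain ⟨ε, hε, hball⟩ := Metric.isOpen_iff.1 isOpen_interior v0 hv0
  obtain ⟨ε', hε', hball'⟩ := (nhds_basis_closedBall.mem_iff).1 (hO.mem_nhds hv0A.1)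
  have hN : (0 : ℝ) < 1 / ((N : ℝ) + 1) := by positivity
  have hN1 : 1 / ((N : ℝ) + 1) ≤ 1 := by
    rw [div_le_one (by positivity)]
    have : (0 : ℝ) ≤ N := Nat.cast_nonneg _
    linarith
  obtain ⟨ρ, hρ⟩ : ∃ ρ, ρ = min (ε / 2) (min ε' (1 / ((N : ℝ) + 1) / 4)) := ⟨_, rfl⟩
  have r0 : 0 < ρ := by
    rw [hρ]
    exact lt_min (by positivity) (lt_min hε' (by positivity))
  have r1 : ρ ≤ ε / 2 := by rw [hρ]; exact min_le_left _ _
  have r2 : ρ ≤ ε' := by rw [hρ]; exact (min_le_right _ _).trans (min_le_left _ _)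
  have r3 : ρ ≤ 1 / ((N : ℝ) + 1) / 4 := by
    rw [hρ]
    exact (min_le_right _ _).trans (min_le_right _ _)
  have hsub : closedBall v0 ρ ⊆ O := (closedBall_subset_closedBall r2).trans hball'
  refine ⟨v0, hv0A.1, ρ, r0, by linarith, hsub, α0 + 1 / ((N : ℝ) + 1), (N : ℝ) + 1, by linarith,
    by positivity, fun v hv w hw => ?_⟩
  have hw' : w ∈ A N := by
    refine hAc N w (hsub hw) (interior_subset (hball ?_))
    rw [mem_ball]
    have := mem_closedBall.1 hw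
    linarith
  refine hw'.2 v (hsub hv) ?_
  have h1 := mem_closedBall.1 hv
  have h2 := mem_closedBall.1 hw
  have h3 := dist_triangle_right v w v0
  linarith

section
variable {n : ℕ} {X : Type} [TopologicalSpace X]

/-- the action in two charts -/
theorem cont_chart {G : Type} [Group G] [TopologicalSpace G] [MulAction G X]
    [ContinuousSMul G X] (ψ χ : OpenPartialHomeomorph X (E n)) (g : G) {W : Set X}
    (hWs : W ⊆ ψ.source) (hgW : ∀ x ∈ W, g • x ∈ χ.source) :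
    ContinuousOn (fun v => χ (g • ψ.symm v)) (ψ '' W) := by
  refine χ.continuousOn.comp ?_ ?_
  · have h1 : ContinuousOn ψ.symm (ψ '' W) := ψ.continuousOn_symm.mono (by
      rintro _ ⟨x, hx, rfl⟩
      exact ψ.map_source (hWs hx))
    exact h1.const_smul g
  · rintro _ ⟨x, hx, rfl⟩
    show g • ψ.symm (ψ x) ∈ χ.source
    rw [ψ.left_inv (hWs hx)]
    exact hgW x hx

/-- the preimage of a ball -/
theorem ball_chart (ψ : OpenPartialHomeomorph X (E n)) {W : Set X} (hWo : IsOpen W)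
    (hWs : W ⊆ ψ.source) {z : E n} {ρ : ℝ} (hρ : 0 < ρ) (hz : closedBall z ρ ⊆ ψ '' W) :
    ∃ W' : Set X, IsOpen W' ∧ W'.Nonempty ∧ W' ⊆ W ∧ ψ '' W' ⊆ closedBall z ρ := by
  obtain ⟨x0, hx0, hz0⟩ := hz (mem_closedBall_self hρ.le)
  refine ⟨W ∩ (ψ.source ∩ ψ ⁻¹' ball z ρ), hWo.inter (ψ.isOpen_inter_preimage isOpen_ball),
    ⟨x0, hx0, hWs hx0, ?_⟩, inter_subset_left, ?_⟩
  · show ψ x0 ∈ ball z ρ
    rw [hz0]
    exact mem_ball_self hρ
  · rintro _ ⟨x, hx, rfl⟩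
    exact ball_subset_closedBall hx.2.2

theorem en_of_hol (hn : 1 ≤ n) {G : Type} [Group G] [TopologicalSpace G] [MulAction G X]
    [ContinuousSMul G X] (ψ χ : OpenPartialHomeomorph X (E n)) (g : G) {W : Set X}
    (hWo : IsOpen W) (hWs : W ⊆ ψ.source) (hgW : ∀ x ∈ W, g • x ∈ χ.source)
    (hH : ¬ IsMeagre {v | v ∈ ψ '' W ∧ ∃ α C : ℝ, ((n : ℝ) - 1) / (n + 1) < α ∧
      ∀ᶠ w in 𝓝 v, dist (χ (g • ψ.symm w)) (χ (g • ψ.symm v)) ≤ C * dist w v ^ α}) :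
    ∃ W' : Set X, IsOpen W' ∧ W'.Nonempty ∧ W' ⊆ W ∧ ∃ m : ℕ, ∀ j, m ≤ j →
      En (n + 1) (ψ '' W') ((1 / 2) ^ j) (2 ^ j / (j + 1)) (fun v => χ (g • ψ.symm v)) := by
  have hn1 : (1 : ℝ) ≤ n := by exact_mod_cast hn
  obtain ⟨z, hz, ρ, hρ, hρ1, hsub, α, C, hα, hC, hb⟩ := hol_somewhere
    (ψ.isOpen_image_of_subset_source hWo hWs) (cont_chart ψ χ g hWs hgW)
    (div_nonneg (by linarith) (by linarith)) hH
  obtain ⟨W', h1, h2, h3, h4⟩ := ball_chart ψ hWo hWs hρ hsub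
  obtain ⟨m, hm⟩ := en_hol hn (Q := ψ '' W') (z := z)
    (h4.trans (closedBall_subset_closedBall hρ1)) hα hC
    (fun x hx a ha => hb x (h4 hx) a (h4 ha))
  exact ⟨W', h1, h2, h3, m, hm⟩

theorem en_of_frac (hn : 2 ≤ n) {G : Type} [Group G] [TopologicalSpace G] [MulAction G X]
    [ContinuousSMul G X] (ψ χ : OpenPartialHomeomorph X (E n)) (g : G) {W : Set X}
    (hWo : IsOpen W) (hWn : W.Nonempty) (hWs : W ⊆ ψ.source) (hgW : ∀ x ∈ W, g • x ∈ χ.source)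
    {q s : ℝ} (hq : 1 ≤ q) (hs : (n : ℝ) - 1 < s * min q (n + 1))
    (hfin : ∫⁻ v in ψ '' W, ∫⁻ w in ψ '' W, edist (χ (g • ψ.symm v)) (χ (g • ψ.symm w)) ^ q /
      edist v w ^ ((n : ℝ) + s * q) < ∞) :
    ∃ W' : Set X, IsOpen W' ∧ W'.Nonempty ∧ W' ⊆ W ∧ ∃ m : ℕ, ∀ j, m ≤ j →
      En (n + 1) (ψ '' W') ((1 / 2) ^ j) (2 ^ j / (j + 1)) (fun v => χ (g • ψ.symm v)) := by
  obtain ⟨x0, hx0⟩ := hWn
  have hop : IsOpen (ψ '' W) := ψ.isOpen_image_of_subset_source hWo hWs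
  obtain ⟨R, hR, hball⟩ := Metric.isOpen_iff.1 hop (ψ x0) (mem_image_of_mem _ hx0)
  set z0 : E n := ψ x0 with hz0
  have hmem : ∀ v ∈ ball z0 R, v ∈ ψ.target ∧ ψ.symm v ∈ W := by
    intro v hv
    obtain ⟨x, hx, rfl⟩ := hball hv
    exact ⟨ψ.map_source (hWs hx), by rw [ψ.left_inv (hWs hx)]; exact hx⟩
  let u : OpenPartialHomeomorph (E n) (E n) :=
    ψ.symm.trans ((Homeomorph.smul g).toOpenPartialHomeomorph.trans χ)
  have husrc : ball z0 R ⊆ u.source := by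
    intro v hv
    obtain ⟨h1, h2⟩ := hmem v hv
    show v ∈ (ψ.symm.trans ((Homeomorph.smul g).toOpenPartialHomeomorph.trans χ)).source
    rw [OpenPartialHomeomorph.trans_source]
    refine ⟨h1, ?_⟩
    rw [mem_preimage, OpenPartialHomeomorph.trans_source]
    exact ⟨mem_univ _, hgW _ h2⟩
  have hu : ∀ v, u v = χ (g • ψ.symm v) := fun v => rfl
  have hfin' : ∫⁻ y in ball z0 R, ∫⁻ y' in ball z0 R, Ker q ((n : ℝ) + s * q) u y y' < ∞ := by
    refine lt_of_le_of_lt ?_ hfin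
    refine (lintegral_mono_set hball).trans (lintegral_mono fun v => ?_)
    exact lintegral_mono_set hball
  obtain ⟨m, hm⟩ := en_frac hn u hq hs hR husrc hfin'
  obtain ⟨W', h1, h2, h3, h4⟩ := ball_chart ψ hWo hWs (z := z0) (ρ := R / 2) (by positivity)
    ((closedBall_subset_ball (by linarith)).trans hball)
  exact ⟨W', h1, h2, h3, m, fun j hj => en_mono h4 le_rfl (hm j hj)⟩

theorem en_of_sob (hn : 2 ≤ n) {G : Type} [Group G] [TopologicalSpace G] [MulAction G X]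
    [ContinuousSMul G X] (ψ χ : OpenPartialHomeomorph X (E n)) (g : G) {W : Set X}
    (hWo : IsOpen W) (hWn : W.Nonempty) (hWs : W ⊆ ψ.source) (hgW : ∀ x ∈ W, g • x ∈ χ.source)
    {q : ℝ} (hq : (n : ℝ) - 1 < q) (hS : SobO q (ψ '' W) (fun v => χ (g • ψ.symm v))) :
    ∃ W' : Set X, IsOpen W' ∧ W'.Nonempty ∧ W' ⊆ W ∧ ∃ m : ℕ, ∀ j, m ≤ j →
      En (n + 1) (ψ '' W') ((1 / 2) ^ j) (2 ^ j / (j + 1)) (fun v => χ (g • ψ.symm v)) := by
  obtain ⟨W1, h1, ⟨x1, hx1⟩, h3, m, hm⟩ := ener_of_sob hn ψ χ g hWo hWn hWs hgW hq hS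
  have hop : IsOpen (ψ '' W1) := ψ.isOpen_image_of_subset_source h1 (h3.trans hWs)
  have hc := (cont_chart ψ χ g (h3.trans hWs) (fun x hx => hgW x (h3 hx))).continuousAt
    (hop.mem_nhds (mem_image_of_mem _ hx1))
  obtain ⟨ρ, hρ, hb⟩ := (nhds_basis_closedBall.mem_iff).1
    (Filter.inter_mem (hop.mem_nhds (mem_image_of_mem _ hx1)) (hc (closedBall_mem_nhds _
      (show (0 : ℝ) < 1 / 2 by norm_num))))
  obtain ⟨W', g1, g2, g3, g4⟩ := ball_chart ψ h1 (h3.trans hWs) hρ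
    (hb.trans inter_subset_left)
  refine ⟨W', g1, g2, g3.trans h3, m, fun j hj => en_of_ener ?_
    (ener_mono (image_mono g3) le_rfl (hm j hj))⟩
  intro v hv w hw
  have k1 := (hb (g4 hv)).2
  have k2 := (hb (g4 hw)).2
  rw [mem_preimage, mem_closedBall] at k1 k2
  have k3 := dist_triangle_right (χ (g • ψ.symm v)) (χ (g • ψ.symm w)) (χ (g • ψ.symm (ψ x1)))
  linarith

/-- **The theorem.** -/
theorem lie_sw (hn : 2 ≤ n) [T2Space X] (Ψ : ℕ → OpenPartialHomeomorph X (E n))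
    {G : Type} [Group G] [TopologicalSpace G] [IsTopologicalGroup G] [LocallyCompactSpace G]
    [T2Space G] [MulAction G X] [ContinuousSMul G X] {V : Set G} (hV : V ∈ 𝓝 (1 : G))
    (hLE : ∀ g, SmallPow V g → ∀ (i : ℕ) (W : Set X), IsOpen W → W.Nonempty → W ⊆ (Ψ i).source →
      (∀ x ∈ W, g • x = x) → g = 1)
    {r b : ℕ → ℕ → ℝ} (hr : ∀ k j, 0 < r k j)
    (hrb : ∀ k, Tendsto (fun j => r k j * b k j) atTop (𝓝 0))
    (hreg : ∀ g, SmallPow V g → ∃ (M i i' : ℕ) (W : Set X), 0 < M ∧ IsOpen W ∧ W.Nonempty ∧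
      W ⊆ (Ψ i).source ∧ (∀ x ∈ W, g ^ M • x ∈ (Ψ i').source) ∧
      ((¬ IsMeagre {v | v ∈ Ψ i '' W ∧ ∃ α C : ℝ, ((n : ℝ) - 1) / (n + 1) < α ∧
        ∀ᶠ w in 𝓝 v, dist (Ψ i' (g ^ M • (Ψ i).symm w)) (Ψ i' (g ^ M • (Ψ i).symm v)) ≤
          C * dist w v ^ α}) ∨
       (∃ q s : ℝ, 1 ≤ q ∧ (n : ℝ) - 1 < s * min q (n + 1) ∧
        ∫⁻ v in Ψ i '' W, ∫⁻ w in Ψ i '' W,
          edist (Ψ i' (g ^ M • (Ψ i).symm v)) (Ψ i' (g ^ M • (Ψ i).symm w)) ^ q /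
            edist v w ^ ((n : ℝ) + s * q) < ∞) ∨
       (∃ q : ℝ, (n : ℝ) - 1 < q ∧ SobO q (Ψ i '' W) (fun v => Ψ i' (g ^ M • (Ψ i).symm v))) ∨
       ∃ k m : ℕ, ∀ j, m ≤ j → En (n + 1) (Ψ i '' W) (r k j) (b k j)
        (fun v => Ψ i' (g ^ M • (Ψ i).symm v)))) :
    IsLie G := by
  refine lie_some' (by omega) Ψ hV hLE
    (r := fun k j => if k = 0 then (1 / 2) ^ j else r (k - 1) j)
    (b := fun k j => if k = 0 then 2 ^ j / (j + 1) else b (k - 1) j) ?_ ?_ ?_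
  · intro k j
    by_cases hk : k = 0
    · simp only [hk, if_true]
      positivity
    · simp only [hk, if_false]
      exact hr _ j
  · intro k
    by_cases hk : k = 0
    · simp only [hk, if_true]
      have h1 : Tendsto (fun j : ℕ => 1 / ((j : ℝ) + 1)) atTop (𝓝 0) :=
        tendsto_one_div_add_atTop_nhds_zero_nat
      refine h1.congr fun j => ?_
      have h2 : ((1 : ℝ) / 2) ^ j * 2 ^ j = 1 := by
        rw [← mul_pow]
        norm_num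
      rw [← mul_div_assoc, h2]
    · simp only [hk, if_false]
      exact hrb _
  · intro g hg
    obtain ⟨M, i, i', W, hM, hWo, hWn, hWs, hgW, hcase⟩ := hreg g hg
    have key : ∀ W' : Set X, IsOpen W' → W'.Nonempty → W' ⊆ W → (∃ m : ℕ, ∀ j, m ≤ j →
        En (n + 1) (Ψ i '' W') ((1 / 2) ^ j) (2 ^ j / (j + 1))
          (fun v => Ψ i' (g ^ M • (Ψ i).symm v))) →
        ∃ (M i i' k : ℕ) (W : Set X), 0 < M ∧ IsOpen W ∧ W.Nonempty ∧
        W ⊆ (Ψ i).source ∧ (∀ x ∈ W, g ^ M • x ∈ (Ψ i').source) ∧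
        ∃ m : ℕ, ∀ j, m ≤ j → En (n + 1) (Ψ i '' W) (if k = 0 then (1 / 2) ^ j else r (k - 1) j)
          (if k = 0 then 2 ^ j / (j + 1) else b (k - 1) j)
          (fun v => Ψ i' (g ^ M • (Ψ i).symm v)) := by
      rintro W' h1 h2 h3 ⟨m, hm⟩
      refine ⟨M, i, i', 0, W', hM, h1, h2, h3.trans hWs, fun x hx => hgW x (h3 hx), m,
        fun j hj => ?_⟩
      simpa using hm j hj
    rcases hcase with hH | ⟨q, s, hq, hs, hF⟩ | ⟨q, hq, hS⟩ | ⟨k, m, hm⟩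
    · obtain ⟨W', h1, h2, h3, h4⟩ := en_of_hol (by omega) (Ψ i) (Ψ i') (g ^ M) hWo hWs hgW hH
      exact key W' h1 h2 h3 h4
    · obtain ⟨W', h1, h2, h3, h4⟩ := en_of_frac hn (Ψ i) (Ψ i') (g ^ M) hWo hWn hWs hgW hq hs hF
      exact key W' h1 h2 h3 h4
    · obtain ⟨W', h1, h2, h3, h4⟩ := en_of_sob hn (Ψ i) (Ψ i') (g ^ M) hWo hWn hWs hgW hq hS
      exact key W' h1 h2 h3 h4
    · refine ⟨M, i, i', k + 1, W, hM, hWo, hWn, hWs, hgW, m, fun j hj => ?_⟩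
      simpa using hm j hj

end

end Pool.Agent.L0h31.HS.SW
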